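import Mathlib

set_option autoImplicit false
set_option linter.unusedSectionVars false

/-!
# Contractions with a symplectic form
-/

open Module

noncomputable section

namespace Pool.Agent.Q66

variable {k V : Type*} [Field k] [CharZero k] [AddCommGroup V] [Module k V]
variable {ι : Type*} [Fintype ι] [DecidableEq ι]

/-- `b'` is the dual basis of `b` for the alternating form `θ`. -/
structure Fr (θ : V →ₗ[k] V →ₗ[k] k) (b : Basis ι k V) (b' : ι → V) : Prop where
  anti : ∀ u v, θ u v = -θ v u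
  dual : ∀ i j, θ (b' i) (b j) = if i = j then 1 else 0

/-- `X` is symmetric for `θ`. -/
def IsSym (θ : V →ₗ[k] V →ₗ[k] k) (X : Module.End k V) : Prop := ∀ u v, θ (X u) v = θ u (X v)

/-- `X` is skew-symmetric for `θ`. -/
def IsSk (θ : V →ₗ[k] V →ₗ[k] k) (X : Module.End k V) : Prop := ∀ u v, θ (X u) v = -θ u (X v)

namespace Fr

variable {θ : V →ₗ[k] V →ₗ[k] k} {b : Basis ι k V} {b' : ι → V} (F : Fr θ b b')
include F

theorem repr (x : V) (i : ι) : b.repr x i = θ (b' i) x := by
  conv_rhs => rw [← b.sum_repr x]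
  rw [map_sum]
  simp only [map_smul, smul_eq_mul, F.dual]
  simp

theorem exp (x : V) : ∑ i, θ (b' i) x • b i = x := by
  conv_rhs => rw [← b.sum_repr x]
  exact Finset.sum_congr rfl fun i _ => by rw [F.repr]

theorem eq_zero {x : V} (h : ∀ v, θ x v = 0) : x = 0 := by
  rw [← F.exp x]
  refine Finset.sum_eq_zero fun i _ => ?_
  rw [F.anti, h, neg_zero, zero_smul]

theorem eq_zero' {x : V} (h : ∀ v, θ v x = 0) : x = 0 :=
  F.eq_zero fun v => by rw [F.anti, h, neg_zero]

theorem exp' (x : V) : ∑ i, θ x (b i) • b' i = x := by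
  rw [← sub_eq_zero]
  apply F.eq_zero
  intro v
  rw [map_sub, LinearMap.sub_apply, map_sum, LinearMap.sum_apply]
  conv_lhs => rw [← F.exp v]
  simp only [map_sum, map_smul, LinearMap.smul_apply, smul_eq_mul, F.dual]
  simp [mul_comm]

/-- contraction of a value of `θ` -/
theorem s1 {W : Type*} [AddCommGroup W] [Module k W] (f : V →ₗ[k] W) (p : V) :
    ∑ i, θ p (b i) • f (b' i) = f p := by
  conv_rhs => rw [← F.exp' p]
  rw [map_sum]
  simp only [map_smul]

theorem s2 {W : Type*} [AddCommGroup W] [Module k W] (f : V →ₗ[k] W) (p : V) :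
    ∑ i, θ p (b' i) • f (b i) = -f p := by
  conv_rhs => rw [← F.exp p]
  rw [map_sum, ← Finset.sum_neg_distrib]
  refine Finset.sum_congr rfl fun i _ => ?_
  rw [map_smul, F.anti p, neg_smul]

theorem adj {W : Type*} [AddCommGroup W] [Module k W] (f : V →ₗ[k] V →ₗ[k] W)
    {X Y : Module.End k V} (h : ∀ u v, θ (X u) v = θ u (Y v)) :
    ∑ i, f (X (b i)) (b' i) = ∑ i, f (b i) (Y (b' i)) := by
  have h1 : ∀ i, f (X (b i)) (b' i) = ∑ j, θ (b' j) (X (b i)) • f (b j) (b' i) := by
    intro i
    conv_lhs => rw [← F.exp (X (b i))]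
    simp only [map_sum, map_smul, LinearMap.sum_apply, LinearMap.smul_apply]
  have h2 : ∀ j, f (b j) (Y (b' j)) = ∑ i, θ (Y (b' j)) (b i) • f (b j) (b' i) := by
    intro j
    conv_lhs => rw [← F.exp' (Y (b' j))]
    simp only [map_sum, map_smul]
  simp only [h1, h2]
  rw [Finset.sum_comm]
  refine Finset.sum_congr rfl fun j _ => Finset.sum_congr rfl fun i _ => ?_
  rw [F.anti (b' j), h, ← F.anti (Y (b' j))]

theorem adj_sym {W : Type*} [AddCommGroup W] [Module k W] (f : V →ₗ[k] V →ₗ[k] W)
    {X : Module.End k V} (h : IsSym θ X) :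
    ∑ i, f (X (b i)) (b' i) = ∑ i, f (b i) (X (b' i)) := F.adj f h

theorem adj_sk {W : Type*} [AddCommGroup W] [Module k W] (f : V →ₗ[k] V →ₗ[k] W)
    {X : Module.End k V} (h : IsSk θ X) :
    ∑ i, f (X (b i)) (b' i) = -∑ i, f (b i) (X (b' i)) := by
  rw [F.adj f (Y := -X) (fun u v => by rw [h, LinearMap.neg_apply, map_neg])]
  simp only [LinearMap.neg_apply, map_neg, Finset.sum_neg_distrib]

theorem flip {W : Type*} [AddCommGroup W] [Module k W] (f : V →ₗ[k] V →ₗ[k] W) :
    ∑ i, f (b' i) (b i) = -∑ i, f (b i) (b' i) := by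
  have h1 : ∀ i, f (b i) (b' i) = ∑ j, θ (b' j) (b' i) • f (b i) (b j) := by
    intro i
    conv_lhs => rw [← F.exp (b' i)]
    simp only [map_sum, map_smul]
  have h2 : ∀ i, f (b' i) (b i) = ∑ j, θ (b' j) (b' i) • f (b j) (b i) := by
    intro i
    conv_lhs => rw [← F.exp (b' i)]
    simp only [map_sum, map_smul, LinearMap.sum_apply, LinearMap.smul_apply]
  simp only [h1, h2]
  rw [Finset.sum_comm, ← Finset.sum_neg_distrib]
  refine Finset.sum_congr rfl fun j _ => ?_
  rw [← Finset.sum_neg_distrib]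
  refine Finset.sum_congr rfl fun i _ => ?_
  rw [F.anti (b' j), neg_smul]

theorem trace (X : Module.End k V) : LinearMap.trace k V X = ∑ i, θ (b' i) (X (b i)) := by
  rw [LinearMap.trace_eq_matrix_trace k b, Matrix.trace]
  refine Finset.sum_congr rfl fun i _ => ?_
  rw [Matrix.diag_apply, LinearMap.toMatrix_apply, F.repr]

theorem trace' (X : Module.End k V) : ∑ i, θ (X (b i)) (b' i) = -LinearMap.trace k V X := by
  rw [F.trace, ← Finset.sum_neg_distrib]
  exact Finset.sum_congr rfl fun i _ => F.anti _ _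

/-- An operator which is orthogonal to all operators is zero. -/
theorem eq_zero_of_trace {X : Module.End k V}
    (h : ∀ Y : Module.End k V, LinearMap.trace k V (X * Y) = 0) : X = 0 := by
  refine LinearMap.ext fun v => ?_
  refine F.eq_zero fun u => ?_
  have h1 := h ((θ u).smulRight v)
  have h2 : X * ((θ u).smulRight v) = (θ u).smulRight (X v) := by
    ext x
    simp
  rw [h2, F.trace] at h1
  simp only [LinearMap.smulRight_apply, map_smul, smul_eq_mul] at h1
  have h3 := F.s1 (θ.flip (X v)) u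
  simp only [LinearMap.flip_apply, smul_eq_mul] at h3
  rw [h3] at h1
  rw [F.anti, h1, neg_zero]

theorem trace_adj {X Y : Module.End k V} (h : ∀ u v, θ (X u) v = θ u (Y v)) :
    LinearMap.trace k V X = LinearMap.trace k V Y := by
  have h1 := F.adj θ h
  rw [F.trace'] at h1
  have h2 := F.flip (θ.comp Y)
  simp only [LinearMap.comp_apply] at h2
  rw [F.trace', neg_neg] at h2
  rw [← h2, ← neg_neg (LinearMap.trace k V X), h1, ← Finset.sum_neg_distrib]
  exact Finset.sum_congr rfl fun i _ => (F.anti _ _).symm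

theorem trace_sym_sk {X Y : Module.End k V} (hX : IsSym θ X) (hY : IsSk θ Y) :
    LinearMap.trace k V (X * Y) = 0 := by
  have h1 : LinearMap.trace k V (X * Y) = LinearMap.trace k V (-(Y * X)) := by
    refine F.trace_adj fun u v => ?_
    rw [Module.End.mul_apply, hX, hY, LinearMap.neg_apply, map_neg, Module.End.mul_apply]
  rw [map_neg, LinearMap.trace_mul_comm] at h1
  have h2 : (2 : k) * LinearMap.trace k V (Y * X) = 0 := by linear_combination h1
  rw [LinearMap.trace_mul_comm]
  exact (mul_eq_zero.1 h2).resolve_left two_ne_zero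

end Fr

theorem IsSym.add {θ : V →ₗ[k] V →ₗ[k] k} {X Y : Module.End k V} (hX : IsSym θ X)
    (hY : IsSym θ Y) : IsSym θ (X + Y) := fun u v => by
  rw [LinearMap.add_apply, map_add, LinearMap.add_apply, hX, hY, LinearMap.add_apply, map_add]

theorem IsSym.sub {θ : V →ₗ[k] V →ₗ[k] k} {X Y : Module.End k V} (hX : IsSym θ X)
    (hY : IsSym θ Y) : IsSym θ (X - Y) := fun u v => by
  rw [LinearMap.sub_apply, map_sub, LinearMap.sub_apply, hX, hY, LinearMap.sub_apply, map_sub]

theorem IsSym.smul {θ : V →ₗ[k] V →ₗ[k] k} {X : Module.End k V} (c : k) (hX : IsSym θ X) :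
    IsSym θ (c • X) := fun u v => by
  rw [LinearMap.smul_apply, map_smul, LinearMap.smul_apply, hX, LinearMap.smul_apply, map_smul]

theorem isSym_one {θ : V →ₗ[k] V →ₗ[k] k} : IsSym θ (1 : Module.End k V) := fun _ _ => rfl

theorem isSym_zero {θ : V →ₗ[k] V →ₗ[k] k} : IsSym θ (0 : Module.End k V) := fun u v => by
  rw [LinearMap.zero_apply, map_zero, LinearMap.zero_apply, LinearMap.zero_apply, map_zero]

/-- the anticommutator of symmetric operators is symmetric -/
theorem IsSym.anti {θ : V →ₗ[k] V →ₗ[k] k} {X Y : Module.End k V} (hX : IsSym θ X)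
    (hY : IsSym θ Y) : IsSym θ (X * Y + Y * X) := fun u v => by
  simp only [LinearMap.add_apply, map_add, Module.End.mul_apply]
  rw [hX, hY, hY, hX, add_comm]

/-- the commutator of a skew and a symmetric operator is symmetric -/
theorem IsSym.br {θ : V →ₗ[k] V →ₗ[k] k} {X h : Module.End k V} (hX : IsSym θ X)
    (hh : IsSk θ h) : IsSym θ (h * X - X * h) := fun u v => by
  simp only [LinearMap.sub_apply, map_sub, Module.End.mul_apply]
  rw [hh, hX, hX, hh]
  ring

/-- The symmetric operators. -/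
def Sy (θ : V →ₗ[k] V →ₗ[k] k) : Submodule k (Module.End k V) where
  carrier := {X | IsSym θ X}
  zero_mem' := isSym_zero
  add_mem' := fun hX hY => IsSym.add hX hY
  smul_mem' := fun c _ hX => IsSym.smul c hX

end Pool.Agent.Q66
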