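import Pool.Agent.Q66.C9

set_option autoImplicit false
set_option linter.unusedSectionVars false
set_option linter.unusedVariables false

/-!
# Isotropic subspaces from four generators
-/

open Module

noncomputable section

namespace Pool.Agent.Q66

variable {V : Type*} [AddCommGroup V] [Module ℂ V] [FiniteDimensional ℂ V]

/-- an isotropic vector in a space of dimension two -/
theorem exists_isotropic (W : Submodule ℂ V) (hW : finrank ℂ W = 2) (β : V →ₗ[ℂ] V →ₗ[ℂ] ℂ)
    (hs : ∀ x ∈ W, ∀ y ∈ W, β x y = β y x) : ∃ v ∈ W, v ≠ 0 ∧ β v v = 0 := by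
  let bW := Module.finBasisOfFinrankEq ℂ W hW
  let w₁ : V := bW 0
  let w₂ : V := bW 1
  have h1 : w₁ ∈ W := (bW 0).2
  have h2 : w₂ ∈ W := (bW 1).2
  have hli : ∀ s t : ℂ, s • w₁ + t • w₂ = 0 → s = 0 ∧ t = 0 := by
    intro s t h
    have h3 := Fintype.linearIndependent_iff.1 bW.linearIndependent ![s, t] (by
      rw [Fin.sum_univ_two]
      exact Subtype.ext h)
    exact ⟨h3 0, h3 1⟩
  by_cases h0 : β w₁ w₁ = 0
  · refine ⟨w₁, h1, fun h => ?_, h0⟩
    have := hli 1 0 (by rw [h]; simp)
    exact one_ne_zero this.1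
  · obtain ⟨r, hr⟩ := IsAlgClosed.exists_pow_nat_eq
      (β w₁ w₂ * β w₁ w₂ - β w₁ w₁ * β w₂ w₂) two_pos
    refine ⟨(-β w₁ w₂ + r) • w₁ + β w₁ w₁ • w₂, W.add_mem (W.smul_mem _ h1) (W.smul_mem _ h2),
      fun h => h0 (hli _ _ h).2, ?_⟩
    simp only [map_add, map_smul, LinearMap.add_apply, LinearMap.smul_apply, smul_eq_mul]
    rw [hs w₂ h2 w₁ h1]
    linear_combination β w₁ w₁ * hr

theorem four {ι : Type*} [Fintype ι] [DecidableEq ι] {θ : V →ₗ[ℂ] V →ₗ[ℂ] ℂ} {b : Basis ι ℂ V}
    {b' : ι → V} (F : Fr θ b b') (hV : finrank ℂ V = 8) {f : Fin 4 → Module.End ℂ V}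
    (hf : Clif f) (hs : ∀ i, IsSym θ (f i)) :
    ∃ S : Submodule ℂ V, S ≠ ⊥ ∧ (∀ u ∈ S, ∀ v ∈ S, θ u v = 0) ∧ (∀ i, ∀ u ∈ S, f i u ∈ S) ∧
      ∀ h : Module.End ℂ V, IsSk θ h → (∀ i, h * f i = f i * h) → ∀ u ∈ S, h u ∈ S := by
  have hI : Complex.I * Complex.I = -1 := Complex.I_mul_I
  -- pointwise rules
  have sq : ∀ i x, f i (f i x) = x := fun i x => by
    rw [← Module.End.mul_apply, hf.sq, Module.End.one_apply]
  have an : ∀ i j x, i ≠ j → f i (f j x) = -f j (f i x) := fun i j x hij => by
    rw [← Module.End.mul_apply, hf.anti i j hij, LinearMap.neg_apply, Module.End.mul_apply]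
  let s₁ : Module.End ℂ V := Complex.I • (f 0 * f 1)
  let s₂ : Module.End ℂ V := Complex.I • (f 2 * f 3)
  have hs₁ : ∀ x, s₁ x = Complex.I • f 0 (f 1 x) := fun x => rfl
  have hs₂ : ∀ x, s₂ x = Complex.I • f 2 (f 3 x) := fun x => rfl
  have e1 : s₁ * s₁ = 1 := by
    ext x
    rw [Module.End.mul_apply, hs₁, hs₁, map_smul, map_smul, smul_smul, hI,
      an 1 0 _ (by decide), map_neg, sq, sq, smul_neg, neg_smul, one_smul, neg_neg]
    rfl
  have e2 : s₂ * s₂ = 1 := by
    ext x
    rw [Module.End.mul_apply, hs₂, hs₂, map_smul, map_smul, smul_smul, hI,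
      an 3 2 _ (by decide), map_neg, sq, sq, smul_neg, neg_smul, one_smul, neg_neg]
    rfl
  have e12 : s₁ * s₂ = s₂ * s₁ := by
    ext x
    rw [Module.End.mul_apply, Module.End.mul_apply]
    simp only [hs₁, hs₂, map_smul]
    rw [an 1 2 _ (by decide), map_neg, an 0 2 _ (by decide), neg_neg, an 1 3 _ (by decide),
      map_neg, map_neg, an 0 3 _ (by decide), map_neg, neg_neg]
  have x1 : f 0 * s₁ = -(s₁ * f 0) := by
    ext x
    rw [Module.End.mul_apply, LinearMap.neg_apply, Module.End.mul_apply, hs₁, hs₁, map_smul,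
      an 1 0 _ (by decide), map_neg, smul_neg, neg_neg]
  have x2 : f 2 * s₂ = -(s₂ * f 2) := by
    ext x
    rw [Module.End.mul_apply, LinearMap.neg_apply, Module.End.mul_apply, hs₂, hs₂, map_smul,
      an 3 2 _ (by decide), map_neg, smul_neg, neg_neg]
  have x3 : f 0 * s₂ = s₂ * f 0 := by
    ext x
    rw [Module.End.mul_apply, Module.End.mul_apply, hs₂, hs₂, map_smul,
      an 0 2 _ (by decide), an 0 3 _ (by decide), map_neg, neg_neg]
  have x4 : f 2 * s₁ = s₁ * f 2 := by
    ext x
    rw [Module.End.mul_apply, Module.End.mul_apply, hs₁, hs₁, map_smul,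
      an 2 0 _ (by decide), an 2 1 _ (by decide), map_neg, neg_neg]
  let P : Module.End ℂ V := (1 + s₁) * ((1 + s₂) * 1)
  have htr : LinearMap.trace ℂ V P = 8 := by
    have hc : f 0 * ((1 + s₂) * 1) = ((1 + s₂) * 1) * f 0 := by
      rw [mul_one, mul_add, add_mul, x3, mul_one, one_mul]
    simp only [P]
    rw [trace_step (hf.sq 0) x1 hc, trace_step (hf.sq 2) x2 (by simp), LinearMap.trace_one, hV]
    norm_num
  have hid : P * P = (2 * (2 * 1) : ℂ) • P := by
    refine idem_step e1 ?_ (idem_step e2 (by simp) (by simp))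
    rw [mul_one, mul_add, add_mul, e12, mul_one, one_mul]
  have hrk : finrank ℂ (LinearMap.range P) = 2 := by
    have h1 := finrank_of_idem (by norm_num) hid
    rw [htr] at h1
    have h2 : (finrank ℂ (LinearMap.range P) : ℂ) = 2 := by
      rw [h1]
      norm_num
    exact_mod_cast h2
  have hP : ∀ x, P x = x + s₂ x + s₁ (x + s₂ x) := fun x => by
    simp [P]
  have hWP : ∀ x, x ∈ LinearMap.range P ↔ s₁ x = x ∧ s₂ x = x := by
    intro x
    constructor
    · rintro ⟨y, rfl⟩
      have h1 : s₁ * P = P := by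
        simp only [P]
        rw [← mul_assoc, mul_add, e1, mul_one, add_comm]
      have h2 : s₂ * P = P := by
        have h3 : s₂ * (1 + s₁) = (1 + s₁) * s₂ := by
          rw [mul_add, add_mul, e12, mul_one, one_mul]
        change s₂ * ((1 + s₁) * ((1 + s₂) * 1)) = (1 + s₁) * ((1 + s₂) * 1)
        rw [mul_one, ← mul_assoc, h3, mul_assoc, mul_add, e2, mul_one, add_comm s₂]
      exact ⟨by rw [← Module.End.mul_apply, h1], by rw [← Module.End.mul_apply, h2]⟩
    · rintro ⟨h1, h2⟩
      refine ⟨(4 : ℂ)⁻¹ • x, ?_⟩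
      rw [map_smul, hP, h2, map_add, h1, ← two_smul ℂ, ← two_smul ℂ, smul_smul, smul_smul]
      norm_num
  -- adjoints
  have ad1 : ∀ x y, θ (s₁ x) y = -θ x (s₁ y) := by
    intro x y
    rw [hs₁, hs₁, map_smul, map_smul, LinearMap.smul_apply, hs, hs, an 1 0 _ (by decide),
      map_neg, smul_neg]
  have ad2 : ∀ x y, θ (s₂ x) y = -θ x (s₂ y) := by
    intro x y
    rw [hs₂, hs₂, map_smul, map_smul, LinearMap.smul_apply, hs, hs, an 3 2 _ (by decide),
      map_neg, smul_neg]
  -- the form
  let β : V →ₗ[ℂ] V →ₗ[ℂ] ℂ := θ.compl₂ (f 0 * f 2)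
  have hβ : ∀ x y, β x y = θ x (f 0 (f 2 y)) := fun x y => rfl
  have hβs : ∀ x y, β x y = β y x := by
    intro x y
    rw [hβ, hβ, ← hs, ← hs, an 2 0 _ (by decide), map_neg, LinearMap.neg_apply, F.anti y]
  have hnd : ∀ v ∈ LinearMap.range P, (∀ x ∈ LinearMap.range P, β v x = 0) → v = 0 := by
    intro v hv h
    obtain ⟨hv1, hv2⟩ := (hWP v).1 hv
    refine F.eq_zero fun u => ?_
    let y : V := u - s₁ u - s₂ (u - s₁ u)
    have hy2 : s₂ y = -y := by
      simp only [y, map_sub]
      have := congrArg (fun T : Module.End ℂ V => T u) e2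
      simp only [Module.End.mul_apply, Module.End.one_apply] at this
      have h3 := congrArg (fun T : Module.End ℂ V => T (s₁ u)) e2
      simp only [Module.End.mul_apply, Module.End.one_apply] at h3
      rw [this, h3]
      abel
    have hy1 : s₁ y = -y := by
      simp only [y, map_sub]
      have h3 := congrArg (fun T : Module.End ℂ V => T u) e1
      simp only [Module.End.mul_apply, Module.End.one_apply] at h3
      have h4 := congrArg (fun T : Module.End ℂ V => T u) e12
      simp only [Module.End.mul_apply] at h4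
      have h5 := congrArg (fun T : Module.End ℂ V => T (s₁ u)) e12
      simp only [Module.End.mul_apply] at h5
      rw [h3, h4, h5, h3]
      abel
    have h1 : θ v y = 4 * θ v u := by
      simp only [y, map_sub]
      have a1 := ad1 v u
      have a2 := ad2 v u
      have a3 := ad2 v (s₁ u)
      rw [hv1] at a1
      rw [hv2] at a2 a3
      linear_combination (-2 : ℂ) * a1 - a2 + a3
    have hx : f 2 (f 0 y) ∈ LinearMap.range P := by
      rw [hWP]
      constructor
      · have h3 := congrArg (fun T : Module.End ℂ V => T (f 0 y)) x4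
        have h4 := congrArg (fun T : Module.End ℂ V => T y) x1
        simp only [Module.End.mul_apply, LinearMap.neg_apply] at h3 h4
        rw [← h3, ← neg_neg (s₁ (f 0 y)), ← h4, hy1]
        simp
      · have h3 := congrArg (fun T : Module.End ℂ V => T (f 0 y)) x2
        have h4 := congrArg (fun T : Module.End ℂ V => T y) x3
        simp only [Module.End.mul_apply, LinearMap.neg_apply] at h3 h4
        rw [← neg_neg (s₂ (f 2 (f 0 y))), ← h3, ← h4, hy2]
        simp
    have h2 := h _ hx
    rw [hβ, sq, sq, h1] at h2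
    exact (mul_eq_zero.1 h2).resolve_left (by norm_num)
  obtain ⟨v, hv, hv0, hvv⟩ := exists_isotropic (LinearMap.range P) hrk β fun x _ y _ => hβs x y
  obtain ⟨hv1, hv2⟩ := (hWP v).1 hv
  -- the vectors orthogonal to `v` are its multiples
  have hmul : ∀ x ∈ LinearMap.range P, β v x = 0 → ∃ c : ℂ, c • v = x := by
    intro x hx hvx
    let φ : LinearMap.range P →ₗ[ℂ] ℂ := (β v).domRestrict _
    have hφ : ∀ y, φ y = β v y := fun y => rfl
    have hφ0 : φ ≠ 0 := by
      intro h0
      apply hv0
      refine hnd v hv fun y hy => ?_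
      have := congrArg (fun g : LinearMap.range P →ₗ[ℂ] ℂ => g ⟨y, hy⟩) h0
      simpa [hφ] using this
    have h1 := LinearMap.finrank_range_add_finrank_ker φ
    rw [LinearMap.range_eq_top.2 (LinearMap.surjective hφ0), finrank_top, finrank_self, hrk] at h1
    have h2 : finrank ℂ (LinearMap.ker φ) = 1 := by omega
    have hvk : (⟨v, hv⟩ : LinearMap.range P) ∈ LinearMap.ker φ := by
      rw [LinearMap.mem_ker, hφ]
      exact hvv
    have hne : (⟨⟨v, hv⟩, hvk⟩ : LinearMap.ker φ) ≠ 0 := by
      intro h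
      apply hv0
      have := congrArg (fun z : LinearMap.ker φ => ((z : LinearMap.range P) : V)) h
      simpa using this
    obtain ⟨c, hc⟩ := (finrank_eq_one_iff_of_nonzero' _ hne).1 h2 ⟨⟨x, hx⟩, by
      rw [LinearMap.mem_ker, hφ]
      exact hvx⟩
    exact ⟨c, congrArg (fun z : LinearMap.ker φ => ((z : LinearMap.range P) : V)) hc⟩
  -- the action on `v`
  have f1v : f 1 v = -(Complex.I • f 0 v) := by
    have h1 := congrArg (f 0) hv1
    rw [hs₁, map_smul, sq] at h1
    rw [← h1, smul_smul, hI, neg_smul, one_smul, neg_neg]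
  have f3v : f 3 v = -(Complex.I • f 2 v) := by
    have h1 := congrArg (f 2) hv2
    rw [hs₂, map_smul, sq] at h1
    rw [← h1, smul_smul, hI, neg_smul, one_smul, neg_neg]
  let G : Set V := {v, f 0 v, f 2 v, f 0 (f 2 v)}
  have g0 : v ∈ Submodule.span ℂ G := Submodule.subset_span (by simp [G])
  have g1 : f 0 v ∈ Submodule.span ℂ G := Submodule.subset_span (by simp [G])
  have g2 : f 2 v ∈ Submodule.span ℂ G := Submodule.subset_span (by simp [G])
  have g3 : f 0 (f 2 v) ∈ Submodule.span ℂ G := Submodule.subset_span (by simp [G])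
  have hstab : ∀ A : Module.End ℂ V, (∀ x ∈ G, A x ∈ Submodule.span ℂ G) →
      ∀ u ∈ Submodule.span ℂ G, A u ∈ Submodule.span ℂ G := by
    intro A hA u hu
    have h1 := (Submodule.map_span_le A G (Submodule.span ℂ G)).2 hA
    exact h1 (Submodule.mem_map_of_mem hu)
  -- isotropy
  have t01 : θ v (f 0 v) = 0 := by
    have h1 := hs 0 v v
    have h2 := F.anti (f 0 v) v
    have h3 : (2 : ℂ) * θ v (f 0 v) = 0 := by linear_combination h2 - h1
    exact (mul_eq_zero.1 h3).resolve_left two_ne_zero
  have t02 : θ v (f 2 v) = 0 := by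
    have h1 := hs 2 v v
    have h2 := F.anti (f 2 v) v
    have h3 : (2 : ℂ) * θ v (f 2 v) = 0 := by linear_combination h2 - h1
    exact (mul_eq_zero.1 h3).resolve_left two_ne_zero
  have tself : ∀ x, θ x x = 0 := fun x => by
    have h2 := F.anti x x
    have h3 : (2 : ℂ) * θ x x = 0 := by linear_combination h2
    exact (mul_eq_zero.1 h3).resolve_left two_ne_zero
  have t03 : θ v (f 0 (f 2 v)) = 0 := hvv
  have t12 : θ (f 0 v) (f 2 v) = 0 := by rw [hs, t03]
  have t13 : θ (f 0 v) (f 0 (f 2 v)) = 0 := by rw [hs, sq, t02]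
  have t23 : θ (f 2 v) (f 0 (f 2 v)) = 0 := by
    rw [hs, an 2 0 _ (by decide), sq, map_neg, t01, neg_zero]
  have hiso : ∀ x ∈ G, ∀ y ∈ G, θ x y = 0 := by
    intro x hx y hy
    simp only [G, Set.mem_insert_iff, Set.mem_singleton_iff] at hx hy
    rcases hx with rfl | rfl | rfl | rfl <;> rcases hy with rfl | rfl | rfl | rfl <;>
      first
      | exact tself _
      | assumption
      | (rw [F.anti, neg_eq_zero]; assumption)
  refine ⟨Submodule.span ℂ G, ?_, ?_, ?_, ?_⟩
  · intro h
    rw [h, Submodule.mem_bot] at g0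
    exact hv0 g0
  · intro x hx y hy
    induction hx using Submodule.span_induction with
    | mem x hx =>
      induction hy using Submodule.span_induction with
      | mem y hy => exact hiso x hx y hy
      | zero => exact map_zero _
      | add y z _ _ h1 h2 => rw [map_add, h1, h2, add_zero]
      | smul c y _ h1 => rw [map_smul, h1, smul_zero]
    | zero => rw [map_zero, LinearMap.zero_apply]
    | add x z _ _ h1 h2 => rw [map_add, LinearMap.add_apply, h1, h2, add_zero]
    | smul c x _ h1 => rw [map_smul, LinearMap.smul_apply, h1, smul_zero]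
  · intro i
    refine hstab _ fun x hx => ?_
    simp only [G, Set.mem_insert_iff, Set.mem_singleton_iff] at hx
    fin_cases i
    · change f 0 x ∈ _
      rcases hx with rfl | rfl | rfl | rfl
      · exact g1
      · rw [sq]; exact g0
      · exact g3
      · rw [sq]; exact g2
    · change f 1 x ∈ _
      rcases hx with rfl | rfl | rfl | rfl
      · rw [f1v]; exact Submodule.neg_mem _ (Submodule.smul_mem _ _ g1)
      · rw [an 1 0 _ (by decide), f1v, map_neg, map_smul, sq, neg_neg]
        exact Submodule.smul_mem _ _ g0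
      · rw [an 1 2 _ (by decide), f1v, map_neg, map_smul, an 2 0 _ (by decide), smul_neg, neg_neg]
        exact Submodule.neg_mem _ (Submodule.smul_mem _ _ g3)
      · rw [an 1 0 _ (by decide), an 1 2 _ (by decide), f1v, map_neg, map_neg, map_smul, map_neg,
          map_smul, neg_neg, an 2 0 _ (by decide), map_neg, sq]
        simp only [smul_neg, neg_neg]
        exact Submodule.smul_mem _ _ g2
    · change f 2 x ∈ _
      rcases hx with rfl | rfl | rfl | rfl
      · exact g2
      · rw [an 2 0 _ (by decide)]; exact Submodule.neg_mem _ g3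
      · rw [sq]; exact g0
      · rw [an 2 0 _ (by decide), sq]; exact Submodule.neg_mem _ g1
    · change f 3 x ∈ _
      rcases hx with rfl | rfl | rfl | rfl
      · rw [f3v]; exact Submodule.neg_mem _ (Submodule.smul_mem _ _ g2)
      · rw [an 3 0 _ (by decide), f3v, map_neg, map_smul, neg_neg]
        exact Submodule.smul_mem _ _ g3
      · rw [an 3 2 _ (by decide), f3v, map_neg, map_smul, sq, neg_neg]
        exact Submodule.smul_mem _ _ g0
      · rw [an 3 0 _ (by decide), an 3 2 _ (by decide), f3v, map_neg, map_neg, map_smul, map_neg,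
          map_smul, neg_neg, sq]
        exact Submodule.neg_mem _ (Submodule.smul_mem _ _ g1)
  · intro h hsk hcom
    have hc : ∀ i x, h (f i x) = f i (h x) := fun i x => by
      rw [← Module.End.mul_apply, hcom, Module.End.mul_apply]
    have hhv : h v ∈ LinearMap.range P := by
      rw [hWP]
      constructor
      · rw [hs₁, ← hc, ← hc, ← map_smul, ← hs₁, hv1]
      · rw [hs₂, ← hc, ← hc, ← map_smul, ← hs₂, hv2]
    have hβv : β v (h v) = 0 := by
      have h1 : β (h v) v = -β v (h v) := by
        rw [hβ, hβ, hsk, hc, hc]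
      rw [hβs] at h1
      have h3 : (2 : ℂ) * β v (h v) = 0 := by linear_combination h1
      exact (mul_eq_zero.1 h3).resolve_left two_ne_zero
    obtain ⟨c, hcv⟩ := hmul _ hhv hβv
    refine hstab _ fun x hx => ?_
    simp only [G, Set.mem_insert_iff, Set.mem_singleton_iff] at hx
    rcases hx with rfl | rfl | rfl | rfl
    · rw [← hcv]; exact Submodule.smul_mem _ _ g0
    · rw [hc, ← hcv, map_smul]; exact Submodule.smul_mem _ _ g1
    · rw [hc, ← hcv, map_smul]; exact Submodule.smul_mem _ _ g2
    · rw [hc, hc, ← hcv, map_smul, map_smul]; exact Submodule.smul_mem _ _ g3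

end Pool.Agent.Q66
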