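import Pool.Agent.Q66.C10

set_option autoImplicit false
set_option linter.unusedSectionVars false
set_option linter.unusedVariables false

/-!
# The main theorem over the complex numbers
-/

open Module

noncomputable section

namespace Pool.Agent.Q66

variable {V : Type*} [AddCommGroup V] [Module ℂ V]

theorem P2_stable {m : ℕ} {e : Fin m → Module.End ℂ V} {S : Submodule ℂ V}
    (hS : ∀ i j, ∀ u ∈ S, (e i * e j) u ∈ S) {s : Module.End ℂ V} (hs : s ∈ P2 e) :
    ∀ u ∈ S, s u ∈ S := by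
  induction hs using Submodule.span_induction with
  | mem x hx =>
    obtain ⟨i, j, rfl⟩ := hx
    exact hS i j
  | zero => exact fun u _ => S.zero_mem
  | add x y _ _ hx hy => exact fun u hu => S.add_mem (hx u hu) (hy u hu)
  | smul c x _ hx => exact fun u hu => S.smul_mem c (hx u hu)

theorem IsSym.mul_of_comm {θ : V →ₗ[ℂ] V →ₗ[ℂ] ℂ} {X Y : Module.End ℂ V} (hX : IsSym θ X)
    (hY : IsSym θ Y) (h : X * Y = Y * X) : IsSym θ (X * Y) := fun u v => by
  rw [Module.End.mul_apply, hX, hY, ← Module.End.mul_apply, ← h]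

/-- **Main theorem over the complex numbers.** -/
theorem core [FiniteDimensional ℂ V] {ι : Type*} [Fintype ι] [DecidableEq ι]
    {θ : V →ₗ[ℂ] V →ₗ[ℂ] ℂ} {b : Basis ι ℂ V}
    {b' : ι → V} (F : Fr θ b b') (hV : finrank ℂ V = 8)
    {ω : V →ₗ[ℂ] V →ₗ[ℂ] V →ₗ[ℂ] V →ₗ[ℂ] ℂ} (hω : Alt4 ω) (hP : Prim θ ω)
    {𝔥 : Set (Module.End ℂ V)} (hsk : ∀ h ∈ 𝔥, IsSk θ h) (hk : ∀ h ∈ 𝔥, Kill4 ω h)
    (hiso : NoIso θ 𝔥) (hcom : ∀ X : Module.End ℂ V, (∀ h ∈ 𝔥, X * h = h * X) → IsSym θ X)
    (hT : ∀ X : Module.End ℂ V, (∀ h ∈ 𝔥, X * h = h * X) → T4 ω b b' X = 0) : ω = 0 := by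
  have hnt : Nontrivial V := Module.nontrivial_of_finrank_pos (R := ℂ) (by omega)
  by_contra h0
  have h1 : T4 ω b b' 1 = 0 := hT 1 fun h _ => by rw [one_mul, mul_one]
  obtain ⟨U, hU, hU0, hUst, hUc, hor⟩ := exists_U F hω hP h1 h0 𝔥 hsk hk
  have hinj : ∀ X ∈ U, T4 ω b b' X = 0 → X = 0 := by
    rcases hor with h | h
    · exact h
    · exact absurd (anti_zero hsk hiso U (fun X hX => (hU0 hX).1) hUst h) hU
  -- the radical
  have hnd : ∀ X ∈ U, (∀ Y ∈ U, X * Y + Y * X = 0) → X = 0 := by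
    let R : Submodule ℂ (Module.End ℂ V) :=
      { carrier := {X | X ∈ U ∧ ∀ Y ∈ U, X * Y + Y * X = 0}
        zero_mem' := ⟨U.zero_mem, fun Y _ => by simp⟩
        add_mem' := fun {X Z} hX hZ => ⟨U.add_mem hX.1 hZ.1, fun Y hY => by
          rw [add_mul, mul_add]
          have := congrArg₂ (· + ·) (hX.2 Y hY) (hZ.2 Y hY)
          simp only [add_zero] at this
          rw [← this]
          abel⟩
        smul_mem' := fun c X hX => ⟨U.smul_mem c hX.1, fun Y hY => by
          rw [smul_mul_assoc, mul_smul_comm, ← smul_add, hX.2 Y hY, smul_zero]⟩ }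
    have hR : R = ⊥ := by
      refine anti_zero hsk hiso R (fun X hX => (hU0 hX.1).1) ?_ fun X hX Y hY => hX.2 Y hY.1
      intro h hh X hX
      refine ⟨hUst h hh X hX.1, fun Y hY => ?_⟩
      have e1 := hX.2 Y hY
      have e2 := hX.2 _ (hUst h hh Y hY)
      have e3 : (h * X - X * h) * Y + Y * (h * X - X * h) =
          h * (X * Y + Y * X) - (X * Y + Y * X) * h -
            (X * (h * Y - Y * h) + (h * Y - Y * h) * X) := by
        simp only [mul_add, add_mul, mul_sub, sub_mul, mul_assoc]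
        abel
      rw [e3, e1, e2]
      simp
    intro X hX h
    have h2 : X ∈ R := ⟨hX, h⟩
    rw [hR] at h2
    exact (Submodule.mem_bot ℂ).1 h2
  obtain ⟨m, e, hm, heU, hcl, hsp⟩ := exists_clif U hU hUc hnd
  have hes : ∀ i, IsSym θ (e i) := fun i => (hU0 (heU i)).1
  have hdec : ∀ h ∈ 𝔥, ∃ s h' : Module.End ℂ V, h = s + h' ∧ s ∈ P2 e ∧ IsSk θ h' ∧
      ∀ i, h' * e i = e i * h' := fun h hh =>
    exists_dec (fun X hX => (hU0 hX).1) hUc heU hsp (hsk h hh) (hUst h hh)
  have hzcom : ∀ h ∈ 𝔥, zz e * h = h * zz e := by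
    intro h hh
    obtain ⟨s, h', rfl, hs, -, hc⟩ := hdec h hh
    rw [mul_add, add_mul, hcl.zz_P2 hs, zz_com e hc]
  have hzsym : IsSym θ (zz e) := hcom _ hzcom
  have heps : eps m ≠ -1 := by
    intro hm1
    have h2 : zz e = 0 := by
      refine LinearMap.ext fun v => F.eq_zero' fun u => ?_
      have h3 := hcl.zz_adj hes u v
      rw [hm1, hzsym] at h3
      have h4 : (2 : ℂ) * θ u (zz e v) = 0 := by linear_combination h3
      exact (mul_eq_zero.1 h4).resolve_left two_ne_zero
    have h3 := hcl.zz_sq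
    rw [h2, zero_mul, hm1] at h3
    have h4 : (1 : Module.End ℂ V) = 0 := by
      rw [neg_smul, one_smul] at h3
      exact neg_eq_zero.1 h3.symm
    exact one_ne_zero h4
  have hm8 := hcl.lt_eight hV
  -- a contradiction from four generators
  have hfour : ∀ f : Fin 4 → Module.End ℂ V, Clif f → (∀ i, IsSym θ (f i)) →
      (∀ h' : Module.End ℂ V, (∀ i, h' * e i = e i * h') → ∀ i, h' * f i = f i * h') →
      (∀ S : Submodule ℂ V, (∀ i, ∀ u ∈ S, f i u ∈ S) → ∀ i j, ∀ u ∈ S, (e i * e j) u ∈ S) →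
      False := by
    intro f hf hfs hfc hfe
    obtain ⟨S, hS, hSi, hSf, hSh⟩ := four F hV hf hfs
    apply hS
    refine hiso S (fun h hh w hw => ?_) hSi
    obtain ⟨s, h', rfl, hs, hsk', hc⟩ := hdec h hh
    rw [LinearMap.add_apply]
    exact S.add_mem (P2_stable (hfe S hSf) hs w hw) (hSh h' hsk' (hfc h' hc) w hw)
  have hcases : m = 1 ∨ m = 2 ∨ m = 3 ∨ m = 4 ∨ m = 5 ∨ m = 6 ∨ m = 7 := by omega
  rcases hcases with rfl | rfl | rfl | rfl | rfl | rfl | rfl
  · -- one generator
    have h2 : T4 ω b b' (e 0) = 0 := by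
      refine hT _ fun h hh => ?_
      obtain ⟨s, h', rfl, hs, -, hc⟩ := hdec h hh
      have h3 : e 0 * s = s * e 0 := by
        have := hcl.zz_P2 hs
        rwa [zz_succ, zz_zero, mul_one] at this
      rw [mul_add, add_mul, h3, hc]
    have h3 := hinj _ (heU 0) h2
    have h4 := hcl.sq 0
    rw [h3, zero_mul] at h4
    exact zero_ne_one h4
  · exact heps (by norm_num [eps])
  · exact heps (by norm_num [eps])
  · exact hfour e hcl hes (fun h' hc => hc) fun S hS i j u hu => hS i _ (hS j u hu)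
  · -- five generators
    have he5 : eps 5 = 1 := by norm_num [eps]
    have hz2 : zz e * zz e = 1 := by rw [hcl.zz_sq, he5, one_smul]
    have hzc : ∀ i, e i * zz e = zz e * e i := fun i => by
      rw [hcl.zz_comm]
      norm_num
    let f : Fin 5 → Module.End ℂ V := fun i => zz e * e i
    have hff : ∀ i j, f i * f j = e i * e j := by
      intro i j
      simp only [f]
      rw [mul_assoc, ← mul_assoc (e i), hzc, mul_assoc, ← mul_assoc, hz2, one_mul]
    have hf4 : f 4 = f 3 * f 2 * (f 1 * f 0) := by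
      rw [hff, hff]
      simp only [f]
      have h2 : zz e = e 0 * (e 1 * (e 2 * (e 3 * e 4))) := by
        simp only [zz_succ, zz_zero, mul_one]
        rfl
      have h3 : e 3 * e 2 * (e 1 * e 0) * zz e = e 4 := by
        rw [h2]
        have q : ∀ i (x : Module.End ℂ V), e i * (e i * x) = x := fun i x => by
          rw [← mul_assoc, hcl.sq, one_mul]
        simp only [mul_assoc, q]
      rw [← h3]
      have h4 : zz e * (e 3 * e 2 * (e 1 * e 0) * zz e) = e 3 * e 2 * (e 1 * e 0) * (zz e * zz e) := by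
        simp only [← mul_assoc]
        rw [← hzc 3]
        simp only [mul_assoc]
        rw [← mul_assoc (zz e) (e 2), ← hzc 2]
        simp only [mul_assoc]
        rw [← mul_assoc (zz e) (e 1), ← hzc 1]
        simp only [mul_assoc]
        rw [← mul_assoc (zz e) (e 0), ← hzc 0]
        simp only [mul_assoc]
      rw [h4, hz2, mul_one]
    refine hfour (fun i => f i.castSucc) ⟨fun i => ?_, fun i j hij => ?_⟩ (fun i => ?_)
      (fun h' hc i => ?_) fun S hS i j u hu => ?_
    · change f _ * f _ = 1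
      rw [hff, hcl.sq]
    · change f _ * f _ = -(f _ * f _)
      rw [hff, hff, hcl.anti _ _ fun h => hij (Fin.castSucc_injective _ h)]
    · exact hzsym.mul_of_comm (hes _) (hzc _).symm
    · change h' * (zz e * e _) = zz e * e _ * h'
      rw [← mul_assoc, zz_com e hc, mul_assoc, hc, mul_assoc]
    · have hS' : ∀ i : Fin 5, ∀ u ∈ S, f i u ∈ S := by
        intro i u hu
        rcases Fin.eq_castSucc_or_eq_last i with ⟨j, rfl⟩ | rfl
        · exact hS j u hu
        · change f 4 u ∈ S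
          rw [hf4]
          exact hS 3 _ (hS 2 _ (hS 1 _ (hS 0 _ hu)))
      rw [← hff]
      exact hS' i _ (hS' j u hu)
  · exact heps (by norm_num [eps])
  · exact heps (by norm_num [eps])

end Pool.Agent.Q66
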