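import Pool.Agent.Q66.C3
import Pool.Agent.W437.HD.Darboux

set_option autoImplicit false
set_option linter.unusedSectionVars false
set_option linter.unusedVariables false

/-!
# Primitive forms of middle degree
-/

open Module Pool.Agent.H204R3.SP

noncomputable section

namespace Pool.Agent.Q66

section

variable {k V : Type*} [Field k] [CharZero k] [AddCommGroup V] [Module k V]

/-- the product of `θ` and `ω` -/
def et (θ : V →ₗ[k] V →ₗ[k] k) (ω : V →ₗ[k] V →ₗ[k] V →ₗ[k] V →ₗ[k] k) (a b c d x y : V) : k :=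
  θ a b * ω c d x y - θ a c * ω b d x y + θ a d * ω b c x y - θ a x * ω b c d y + θ a y * ω b c d x + θ b c * ω a d x y - θ b d * ω a c x y + θ b x * ω a c d y - θ b y * ω a c d x + θ c d * ω a b x y - θ c x * ω a b d y + θ c y * ω a b d x + θ d x * ω a b c y - θ d y * ω a b c x + θ x y * ω a b c d

variable {ι : Type*} [Fintype ι] [DecidableEq ι]
variable {θ : V →ₗ[k] V →ₗ[k] k} {bb : Basis ι k V} {b' : ι → V} (F : Fr θ bb b')
variable {ω : V →ₗ[k] V →ₗ[k] V →ₗ[k] V →ₗ[k] k} (hω : Alt4 ω)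

theorem prim_iff : Prim θ ω ↔ ∀ a b c d x y, et θ ω a b c d x y = 0 := Iff.rfl

include F hω

theorem et_1 (a b c d x y : V) : et θ ω b a c d x y = -et θ ω a b c d x y := by
  unfold et
  linear_combination (ω c d x y) * F.anti b a + (θ c d) * hω.s12 b a x y - (θ c x) * hω.s12 b a d y + (θ c y) * hω.s12 b a d x + (θ d x) * hω.s12 b a c y - (θ d y) * hω.s12 b a c x + (θ x y) * hω.s12 b a c d

theorem et_2 (a b c d x y : V) : et θ ω a c b d x y = -et θ ω a b c d x y := by
  unfold et
  linear_combination (θ a d) * hω.s12 c b x y - (θ a x) * hω.s12 c b d y + (θ a y) * hω.s12 c b d x + (ω a d x y) * F.anti c b + (θ d x) * hω.s23 a c b y - (θ d y) * hω.s23 a c b x + (θ x y) * hω.s23 a c b d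

theorem et_3 (a b c d x y : V) : et θ ω a b d c x y = -et θ ω a b c d x y := by
  unfold et
  linear_combination (θ a b) * hω.s12 d c x y - (θ a x) * hω.s23 b d c y + (θ a y) * hω.s23 b d c x + (θ b x) * hω.s23 a d c y - (θ b y) * hω.s23 a d c x + (ω a b x y) * F.anti d c + (θ x y) * hω.s34 a b d c

theorem et_4 (a b c d x y : V) : et θ ω a b c x d y = -et θ ω a b c d x y := by
  unfold et
  linear_combination (θ a b) * hω.s23 c x d y - (θ a c) * hω.s23 b x d y + (θ a y) * hω.s34 b c x d + (θ b c) * hω.s23 a x d y - (θ b y) * hω.s34 a c x d + (θ c y) * hω.s34 a b x d + (ω a b c y) * F.anti x d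

theorem et_5 (a b c d x y : V) : et θ ω a b c d y x = -et θ ω a b c d x y := by
  unfold et
  linear_combination (θ a b) * hω.s34 c d y x - (θ a c) * hω.s34 b d y x + (θ a d) * hω.s34 b c y x + (θ b c) * hω.s34 a d y x - (θ b d) * hω.s34 a c y x + (θ c d) * hω.s34 a b y x + (ω a b c d) * F.anti y x

/-- the contraction of the product -/
theorem et_contr (h1 : T4 ω bb b' 1 = 0) (hV : LinearMap.trace k V 1 = 8) (a b c d : V) :
    ∑ i, et θ ω a b c d (bb i) (b' i) = 0 := by
  have h2 := contr F hω (Z := 1) isSym_one a b c d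
  have h3 : ∀ u v, S4 ω bb b' 1 u v = 0 := by
    intro u v
    rw [← T4_spec F, h1, LinearMap.zero_apply, map_zero, LinearMap.zero_apply]
  simp only [Module.End.one_apply, h3, hV] at h2
  unfold et
  rw [h2]
  ring

end

section sums

variable {R : Type*} [Fintype R]

/-- the sum over six indices -/
def sm (K : R → R → R → R → R → R → ℚ) : ℚ :=
  ∑ a, ∑ b, ∑ c, ∑ d, ∑ x, ∑ y, K a b c d x y

theorem sm_1 (K : R → R → R → R → R → R → ℚ) :
    sm K = sm (fun a b c d x y => K b a c d x y) := Finset.sum_comm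

theorem sm_2 (K : R → R → R → R → R → R → ℚ) :
    sm K = sm (fun a b c d x y => K a c b d x y) :=
  Finset.sum_congr rfl fun _ _ => Finset.sum_comm

theorem sm_3 (K : R → R → R → R → R → R → ℚ) :
    sm K = sm (fun a b c d x y => K a b d c x y) :=
  Finset.sum_congr rfl fun _ _ => Finset.sum_congr rfl fun _ _ => Finset.sum_comm

theorem sm_4 (K : R → R → R → R → R → R → ℚ) :
    sm K = sm (fun a b c d x y => K a b c x d y) :=
  Finset.sum_congr rfl fun _ _ => Finset.sum_congr rfl fun _ _ => Finset.sum_congr rfl fun _ _ =>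
    Finset.sum_comm

theorem sm_5 (K : R → R → R → R → R → R → ℚ) :
    sm K = sm (fun a b c d x y => K a b c d y x) :=
  Finset.sum_congr rfl fun _ _ => Finset.sum_congr rfl fun _ _ => Finset.sum_congr rfl fun _ _ =>
    Finset.sum_congr rfl fun _ _ => Finset.sum_comm

theorem sm_neg (K : R → R → R → R → R → R → ℚ) :
    sm (fun a b c d x y => -K a b c d x y) = -sm K := by
  simp only [sm, Finset.sum_neg_distrib]

/-- the inner product -/
def In (H t : R → R → R → R → R → R → ℚ) : ℚ := sm (fun a b c d x y => H a b c d x y * t a b c d x y)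

variable {H t t' : R → R → R → R → R → R → ℚ}

theorem In_1 (hH : ∀ a b c d x y, H b a c d x y = -H a b c d x y)
    (h : ∀ a b c d x y, t' a b c d x y = -t b a c d x y) : In H t' = In H t := by
  unfold In
  rw [sm_1 (fun a b c d x y => H a b c d x y * t a b c d x y)]
  unfold sm
  refine Finset.sum_congr rfl fun a _ => Finset.sum_congr rfl fun b _ =>
    Finset.sum_congr rfl fun c _ => Finset.sum_congr rfl fun d _ =>
    Finset.sum_congr rfl fun x _ => Finset.sum_congr rfl fun y _ => ?_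
  dsimp only
  rw [hH, h]
  ring

theorem In_2 (hH : ∀ a b c d x y, H a c b d x y = -H a b c d x y)
    (h : ∀ a b c d x y, t' a b c d x y = -t a c b d x y) : In H t' = In H t := by
  unfold In
  rw [sm_2 (fun a b c d x y => H a b c d x y * t a b c d x y)]
  unfold sm
  refine Finset.sum_congr rfl fun a _ => Finset.sum_congr rfl fun b _ =>
    Finset.sum_congr rfl fun c _ => Finset.sum_congr rfl fun d _ =>
    Finset.sum_congr rfl fun x _ => Finset.sum_congr rfl fun y _ => ?_
  dsimp only
  rw [hH, h]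
  ring

theorem In_3 (hH : ∀ a b c d x y, H a b d c x y = -H a b c d x y)
    (h : ∀ a b c d x y, t' a b c d x y = -t a b d c x y) : In H t' = In H t := by
  unfold In
  rw [sm_3 (fun a b c d x y => H a b c d x y * t a b c d x y)]
  unfold sm
  refine Finset.sum_congr rfl fun a _ => Finset.sum_congr rfl fun b _ =>
    Finset.sum_congr rfl fun c _ => Finset.sum_congr rfl fun d _ =>
    Finset.sum_congr rfl fun x _ => Finset.sum_congr rfl fun y _ => ?_
  dsimp only
  rw [hH, h]
  ring

theorem In_4 (hH : ∀ a b c d x y, H a b c x d y = -H a b c d x y)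
    (h : ∀ a b c d x y, t' a b c d x y = -t a b c x d y) : In H t' = In H t := by
  unfold In
  rw [sm_4 (fun a b c d x y => H a b c d x y * t a b c d x y)]
  unfold sm
  refine Finset.sum_congr rfl fun a _ => Finset.sum_congr rfl fun b _ =>
    Finset.sum_congr rfl fun c _ => Finset.sum_congr rfl fun d _ =>
    Finset.sum_congr rfl fun x _ => Finset.sum_congr rfl fun y _ => ?_
  dsimp only
  rw [hH, h]
  ring

theorem In_5 (hH : ∀ a b c d x y, H a b c d y x = -H a b c d x y)
    (h : ∀ a b c d x y, t' a b c d x y = -t a b c d y x) : In H t' = In H t := by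
  unfold In
  rw [sm_5 (fun a b c d x y => H a b c d x y * t a b c d x y)]
  unfold sm
  refine Finset.sum_congr rfl fun a _ => Finset.sum_congr rfl fun b _ =>
    Finset.sum_congr rfl fun c _ => Finset.sum_congr rfl fun d _ =>
    Finset.sum_congr rfl fun x _ => Finset.sum_congr rfl fun y _ => ?_
  dsimp only
  rw [hH, h]
  ring

theorem In_add : In H (fun a b c d x y => t a b c d x y + t' a b c d x y) = In H t + In H t' := by
  simp only [In, sm, mul_add, Finset.sum_add_distrib]

end sums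

/-- **Primitive forms of middle degree.** -/
theorem prim_of_contr {V : Type*} [AddCommGroup V] [Module ℚ V] {R : Type*} [Fintype R]
    [DecidableEq R] {θ : V →ₗ[ℚ] V →ₗ[ℚ] ℚ} (e : Basis R ℚ V) (inv : R → R) (jj : R → ℚ)
    (hinv : ∀ x, inv (inv x) = x) (hjj : ∀ x, jj (inv x) = -jj x)
    (hj1 : ∀ x, jj x = 1 ∨ jj x = -1) (hθ : ∀ x y, θ (e x) (e y) = JJ inv jj x y)
    (F : Fr θ e (fun x => jj (inv x) • e (inv x)))
    {ω : V →ₗ[ℚ] V →ₗ[ℚ] V →ₗ[ℚ] V →ₗ[ℚ] ℚ} (hω : Alt4 ω)
    (h1 : T4 ω e (fun x => jj (inv x) • e (inv x)) 1 = 0) (hV : LinearMap.trace ℚ V 1 = 8) :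
    Prim θ ω := by
  let H : R → R → R → R → R → R → ℚ := fun a b c d x y => et θ ω (e a) (e b) (e c) (e d) (e x) (e y)
  have hH1 : ∀ a b c d x y, H b a c d x y = -H a b c d x y := fun a b c d x y =>
    et_1 F hω _ _ _ _ _ _
  have hH2 : ∀ a b c d x y, H a c b d x y = -H a b c d x y := fun a b c d x y =>
    et_2 F hω _ _ _ _ _ _
  have hH3 : ∀ a b c d x y, H a b d c x y = -H a b c d x y := fun a b c d x y =>
    et_3 F hω _ _ _ _ _ _
  have hH4 : ∀ a b c d x y, H a b c x d y = -H a b c d x y := fun a b c d x y =>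
    et_4 F hω _ _ _ _ _ _
  have hH5 : ∀ a b c d x y, H a b c d y x = -H a b c d x y := fun a b c d x y =>
    et_5 F hω _ _ _ _ _ _
  obtain ⟨t12, g12⟩ : ∃ t : R → R → R → R → R → R → ℚ, ∀ a b c d x y, t a b c d x y =
      θ (e a) (e b) * ω (e c) (e d) (e x) (e y) := ⟨fun a b c d x y => θ (e a) (e b) * ω (e c) (e d) (e x) (e y), fun _ _ _ _ _ _ => rfl⟩
  obtain ⟨t13, g13⟩ : ∃ t : R → R → R → R → R → R → ℚ, ∀ a b c d x y, t a b c d x y =
      -(θ (e a) (e c) * ω (e b) (e d) (e x) (e y)) := ⟨fun a b c d x y => -(θ (e a) (e c) * ω (e b) (e d) (e x) (e y)), fun _ _ _ _ _ _ => rfl⟩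
  obtain ⟨t14, g14⟩ : ∃ t : R → R → R → R → R → R → ℚ, ∀ a b c d x y, t a b c d x y =
      θ (e a) (e d) * ω (e b) (e c) (e x) (e y) := ⟨fun a b c d x y => θ (e a) (e d) * ω (e b) (e c) (e x) (e y), fun _ _ _ _ _ _ => rfl⟩
  obtain ⟨t15, g15⟩ : ∃ t : R → R → R → R → R → R → ℚ, ∀ a b c d x y, t a b c d x y =
      -(θ (e a) (e x) * ω (e b) (e c) (e d) (e y)) := ⟨fun a b c d x y => -(θ (e a) (e x) * ω (e b) (e c) (e d) (e y)), fun _ _ _ _ _ _ => rfl⟩
  obtain ⟨t16, g16⟩ : ∃ t : R → R → R → R → R → R → ℚ, ∀ a b c d x y, t a b c d x y =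
      θ (e a) (e y) * ω (e b) (e c) (e d) (e x) := ⟨fun a b c d x y => θ (e a) (e y) * ω (e b) (e c) (e d) (e x), fun _ _ _ _ _ _ => rfl⟩
  obtain ⟨t23, g23⟩ : ∃ t : R → R → R → R → R → R → ℚ, ∀ a b c d x y, t a b c d x y =
      θ (e b) (e c) * ω (e a) (e d) (e x) (e y) := ⟨fun a b c d x y => θ (e b) (e c) * ω (e a) (e d) (e x) (e y), fun _ _ _ _ _ _ => rfl⟩
  obtain ⟨t24, g24⟩ : ∃ t : R → R → R → R → R → R → ℚ, ∀ a b c d x y, t a b c d x y =
      -(θ (e b) (e d) * ω (e a) (e c) (e x) (e y)) := ⟨fun a b c d x y => -(θ (e b) (e d) * ω (e a) (e c) (e x) (e y)), fun _ _ _ _ _ _ => rfl⟩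
  obtain ⟨t25, g25⟩ : ∃ t : R → R → R → R → R → R → ℚ, ∀ a b c d x y, t a b c d x y =
      θ (e b) (e x) * ω (e a) (e c) (e d) (e y) := ⟨fun a b c d x y => θ (e b) (e x) * ω (e a) (e c) (e d) (e y), fun _ _ _ _ _ _ => rfl⟩
  obtain ⟨t26, g26⟩ : ∃ t : R → R → R → R → R → R → ℚ, ∀ a b c d x y, t a b c d x y =
      -(θ (e b) (e y) * ω (e a) (e c) (e d) (e x)) := ⟨fun a b c d x y => -(θ (e b) (e y) * ω (e a) (e c) (e d) (e x)), fun _ _ _ _ _ _ => rfl⟩
  obtain ⟨t34, g34⟩ : ∃ t : R → R → R → R → R → R → ℚ, ∀ a b c d x y, t a b c d x y =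
      θ (e c) (e d) * ω (e a) (e b) (e x) (e y) := ⟨fun a b c d x y => θ (e c) (e d) * ω (e a) (e b) (e x) (e y), fun _ _ _ _ _ _ => rfl⟩
  obtain ⟨t35, g35⟩ : ∃ t : R → R → R → R → R → R → ℚ, ∀ a b c d x y, t a b c d x y =
      -(θ (e c) (e x) * ω (e a) (e b) (e d) (e y)) := ⟨fun a b c d x y => -(θ (e c) (e x) * ω (e a) (e b) (e d) (e y)), fun _ _ _ _ _ _ => rfl⟩
  obtain ⟨t36, g36⟩ : ∃ t : R → R → R → R → R → R → ℚ, ∀ a b c d x y, t a b c d x y =
      θ (e c) (e y) * ω (e a) (e b) (e d) (e x) := ⟨fun a b c d x y => θ (e c) (e y) * ω (e a) (e b) (e d) (e x), fun _ _ _ _ _ _ => rfl⟩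
  obtain ⟨t45, g45⟩ : ∃ t : R → R → R → R → R → R → ℚ, ∀ a b c d x y, t a b c d x y =
      θ (e d) (e x) * ω (e a) (e b) (e c) (e y) := ⟨fun a b c d x y => θ (e d) (e x) * ω (e a) (e b) (e c) (e y), fun _ _ _ _ _ _ => rfl⟩
  obtain ⟨t46, g46⟩ : ∃ t : R → R → R → R → R → R → ℚ, ∀ a b c d x y, t a b c d x y =
      -(θ (e d) (e y) * ω (e a) (e b) (e c) (e x)) := ⟨fun a b c d x y => -(θ (e d) (e y) * ω (e a) (e b) (e c) (e x)), fun _ _ _ _ _ _ => rfl⟩
  obtain ⟨t56, g56⟩ : ∃ t : R → R → R → R → R → R → ℚ, ∀ a b c d x y, t a b c d x y =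
      θ (e x) (e y) * ω (e a) (e b) (e c) (e d) := ⟨fun a b c d x y => θ (e x) (e y) * ω (e a) (e b) (e c) (e d), fun _ _ _ _ _ _ => rfl⟩
  have h46 : In H t46 = In H t56 := In_4 hH4 (fun a b c d x y => by rw [g46, g56] <;> ring)
  have h45 : In H t45 = In H t56 := (In_5 hH5 (fun a b c d x y => by rw [g45, g46] <;> ring)).trans h46
  have h36 : In H t36 = In H t56 := (In_3 hH3 (fun a b c d x y => by rw [g36, g46] <;> ring)).trans h46
  have h35 : In H t35 = In H t56 := (In_5 hH5 (fun a b c d x y => by rw [g35, g36] <;> ring)).trans h36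
  have h34 : In H t34 = In H t56 := (In_4 hH4 (fun a b c d x y => by rw [g34, g35] <;> ring)).trans h35
  have h26 : In H t26 = In H t56 := (In_2 hH2 (fun a b c d x y => by rw [g26, g36] <;> ring)).trans h36
  have h25 : In H t25 = In H t56 := (In_5 hH5 (fun a b c d x y => by rw [g25, g26] <;> ring)).trans h26
  have h24 : In H t24 = In H t56 := (In_4 hH4 (fun a b c d x y => by rw [g24, g25] <;> ring)).trans h25
  have h23 : In H t23 = In H t56 := (In_3 hH3 (fun a b c d x y => by rw [g23, g24] <;> ring)).trans h24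
  have h16 : In H t16 = In H t56 := (In_1 hH1 (fun a b c d x y => by rw [g16, g26] <;> ring)).trans h26
  have h15 : In H t15 = In H t56 := (In_5 hH5 (fun a b c d x y => by rw [g15, g16] <;> ring)).trans h16
  have h14 : In H t14 = In H t56 := (In_4 hH4 (fun a b c d x y => by rw [g14, g15] <;> ring)).trans h15
  have h13 : In H t13 = In H t56 := (In_3 hH3 (fun a b c d x y => by rw [g13, g14] <;> ring)).trans h14
  have h12 : In H t12 = In H t56 := (In_2 hH2 (fun a b c d x y => by rw [g12, g13] <;> ring)).trans h13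
  -- the last one is zero
  have h56 : In H t56 = 0 := by
    unfold In sm
    refine Finset.sum_eq_zero fun a _ => Finset.sum_eq_zero fun b _ =>
      Finset.sum_eq_zero fun c _ => Finset.sum_eq_zero fun d _ => ?_
    have h2 := et_contr F hω h1 hV (e a) (e b) (e c) (e d)
    have h3 : ∀ x, ∑ y, H a b c d x y * (θ (e x) (e y) * ω (e a) (e b) (e c) (e d)) =
        -(et θ ω (e a) (e b) (e c) (e d) (e x) (jj (inv x) • e (inv x)) *
          ω (e a) (e b) (e c) (e d)) := by
      intro x
      rw [Finset.sum_eq_single (inv x)]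
      · rw [hθ]
        unfold JJ
        rw [if_pos rfl, hjj]
        simp only [H, et, map_smul, smul_eq_mul]
        ring
      · intro y _ hy
        rw [hθ]
        unfold JJ
        rw [if_neg hy]
        ring
      · intro h
        exact absurd (Finset.mem_univ _) h
    simp only [g56, h3, Finset.sum_neg_distrib, ← Finset.sum_mul, h2, zero_mul, neg_zero]
  have hsum : In H H = In H t12 + In H t13 + In H t14 + In H t15 + In H t16 + In H t23 + In H t24 + In H t25 + In H t26 + In H t34 + In H t35 + In H t36 + In H t45 + In H t46 + In H t56 := by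
    have hd : H = fun a b c d x y => t12 a b c d x y + t13 a b c d x y + t14 a b c d x y + t15 a b c d x y + t16 a b c d x y + t23 a b c d x y + t24 a b c d x y + t25 a b c d x y + t26 a b c d x y + t34 a b c d x y + t35 a b c d x y + t36 a b c d x y + t45 a b c d x y + t46 a b c d x y + t56 a b c d x y := by
      funext a b c d x y
      rw [g12, g13, g14, g15, g16, g23, g24, g25, g26, g34, g35, g36, g45, g46, g56]
      simp only [H, et]
      ring
    conv_lhs =>
      arg 2
      rw [hd]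
    rw [In_add, In_add, In_add, In_add, In_add, In_add, In_add, In_add, In_add, In_add, In_add,
      In_add, In_add, In_add]
  rw [h12, h13, h14, h15, h16, h23, h24, h25, h26, h34, h35, h36, h45, h46, h56] at hsum
  have hz : In H H = 0 := by rw [hsum]; norm_num
  -- all coefficients vanish
  have hc : ∀ a b c d x y, H a b c d x y = 0 := by
    intro a b c d x y
    have hn : ∀ a b c d x y, 0 ≤ H a b c d x y * H a b c d x y := fun _ _ _ _ _ _ =>
      mul_self_nonneg _
    unfold In sm at hz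
    rw [Finset.sum_eq_zero_iff_of_nonneg fun a _ => Finset.sum_nonneg fun b _ =>
      Finset.sum_nonneg fun c _ => Finset.sum_nonneg fun d _ => Finset.sum_nonneg fun x _ =>
      Finset.sum_nonneg fun y _ => hn a b c d x y] at hz
    have z1 := hz a (Finset.mem_univ _)
    rw [Finset.sum_eq_zero_iff_of_nonneg fun b _ =>
      Finset.sum_nonneg fun c _ => Finset.sum_nonneg fun d _ => Finset.sum_nonneg fun x _ =>
      Finset.sum_nonneg fun y _ => hn a b c d x y] at z1
    have z2 := z1 b (Finset.mem_univ _)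
    rw [Finset.sum_eq_zero_iff_of_nonneg fun c _ => Finset.sum_nonneg fun d _ =>
      Finset.sum_nonneg fun x _ => Finset.sum_nonneg fun y _ => hn a b c d x y] at z2
    have z3 := z2 c (Finset.mem_univ _)
    rw [Finset.sum_eq_zero_iff_of_nonneg fun d _ =>
      Finset.sum_nonneg fun x _ => Finset.sum_nonneg fun y _ => hn a b c d x y] at z3
    have z4 := z3 d (Finset.mem_univ _)
    rw [Finset.sum_eq_zero_iff_of_nonneg fun x _ => Finset.sum_nonneg fun y _ =>
      hn a b c d x y] at z4
    have z5 := z4 x (Finset.mem_univ _)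
    rw [Finset.sum_eq_zero_iff_of_nonneg fun y _ => hn a b c d x y] at z5
    exact mul_self_eq_zero.1 (z5 y (Finset.mem_univ _))
  have hext : ∀ f : V → ℚ, (∀ u v, f (u + v) = f u + f v) → (∀ (c : ℚ) u, f (c • u) = c * f u) →
      (∀ x, f (e x) = 0) → ∀ v, f v = 0 := by
    intro f hadd hsmul h0 v
    have hv : v ∈ Submodule.span ℚ (Set.range e) := by rw [e.span_eq]; trivial
    induction hv using Submodule.span_induction with
    | mem v hv =>
      obtain ⟨x, rfl⟩ := hv
      exact h0 x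
    | zero =>
      have := hsmul 0 0
      rw [zero_smul, zero_mul] at this
      exact this
    | add u v _ _ hu hv => rw [hadd, hu, hv, add_zero]
    | smul c u _ hu => rw [hsmul, hu, mul_zero]
  rw [prim_iff]
  intro v₁ v₂ v₃ v₄ v₅ v₆
  refine hext (fun v => et θ ω v v₂ v₃ v₄ v₅ v₆) (fun u v => ?_) (fun c u => ?_) (fun a => ?_) v₁
  · simp only [et, map_add, LinearMap.add_apply]; ring
  · simp only [et, map_smul, LinearMap.smul_apply, smul_eq_mul]; ring
  refine hext (fun v => et θ ω (e a) v v₃ v₄ v₅ v₆) (fun u v => ?_) (fun c u => ?_) (fun b => ?_) v₂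
  · simp only [et, map_add, LinearMap.add_apply]; ring
  · simp only [et, map_smul, LinearMap.smul_apply, smul_eq_mul]; ring
  refine hext (fun v => et θ ω (e a) (e b) v v₄ v₅ v₆) (fun u v => ?_) (fun c u => ?_) (fun c => ?_) v₃
  · simp only [et, map_add, LinearMap.add_apply]; ring
  · simp only [et, map_smul, LinearMap.smul_apply, smul_eq_mul]; ring
  refine hext (fun v => et θ ω (e a) (e b) (e c) v v₅ v₆) (fun u v => ?_) (fun c u => ?_) (fun d => ?_) v₄
  · simp only [et, map_add, LinearMap.add_apply]; ring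
  · simp only [et, map_smul, LinearMap.smul_apply, smul_eq_mul]; ring
  refine hext (fun v => et θ ω (e a) (e b) (e c) (e d) v v₆) (fun u v => ?_) (fun c u => ?_) (fun x => ?_) v₅
  · simp only [et, map_add, LinearMap.add_apply]; ring
  · simp only [et, map_smul, LinearMap.smul_apply, smul_eq_mul]; ring
  refine hext (fun v => et θ ω (e a) (e b) (e c) (e d) (e x) v) (fun u v => ?_) (fun c u => ?_) (fun y => ?_) v₆
  · simp only [et, map_add, LinearMap.add_apply]; ring
  · simp only [et, map_smul, LinearMap.smul_apply, smul_eq_mul]; ring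
  exact hc a b c d x y

end Pool.Agent.Q66
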