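import Pool.Agent.Q66.C3
import Pool.Agent.Y102.V12

set_option autoImplicit false
set_option linter.unusedSectionVars false
set_option linter.unusedVariables false

/-!
# Forms in four variables and their complex extensions
-/

open Module TensorProduct Pool.Agent.H204R3.SP Pool.Agent.W516.DR

noncomputable section

namespace Pool.Agent.Q66

section

variable {k V : Type*} [Field k] [CharZero k] [AddCommGroup V] [Module k V]

/-- four vectors -/
def vec {V : Type*} (a b c d : V) : Fin 2 × Fin 2 → V := fun p =>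
  if p.1 = 0 then (if p.2 = 0 then a else b) else (if p.2 = 0 then c else d)

theorem vec_a {V : Type*} (a b c d x : V) : vec x b c d = Function.update (vec a b c d) (0, 0) x := by
  funext ⟨i, j⟩
  fin_cases i <;> fin_cases j <;> simp [vec, Function.update_apply]

theorem vec_b {V : Type*} (a b c d x : V) : vec a x c d = Function.update (vec a b c d) (0, 1) x := by
  funext ⟨i, j⟩
  fin_cases i <;> fin_cases j <;> simp [vec, Function.update_apply]

theorem vec_c {V : Type*} (a b c d x : V) : vec a b x d = Function.update (vec a b c d) (1, 0) x := by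
  funext ⟨i, j⟩
  fin_cases i <;> fin_cases j <;> simp [vec, Function.update_apply]

theorem vec_d {V : Type*} (a b c d x : V) : vec a b c x = Function.update (vec a b c d) (1, 1) x := by
  funext ⟨i, j⟩
  fin_cases i <;> fin_cases j <;> simp [vec, Function.update_apply]

theorem vec_eta {V : Type*} (v : Fin 2 × Fin 2 → V) : vec (v (0, 0)) (v (0, 1)) (v (1, 0)) (v (1, 1)) = v := by
  funext ⟨i, j⟩
  fin_cases i <;> fin_cases j <;> simp [vec]

theorem vec_map {V W : Type*} (f : V → W) (a b c d : V) :
    (fun p => f (vec a b c d p)) = vec (f a) (f b) (f c) (f d) := by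
  funext ⟨i, j⟩
  fin_cases i <;> fin_cases j <;> simp [vec]

/-- a form as a function of four vectors -/
def nest (φ : MultilinearMap k (fun _ : Fin 2 × Fin 2 => V) k) :
    V →ₗ[k] V →ₗ[k] V →ₗ[k] V →ₗ[k] k :=
  LinearMap.mk₂ k (fun a b => LinearMap.mk₂ k (fun c d => φ (vec a b c d))
    (fun c c' d => by
      rw [vec_c a b c d (c + c'), MultilinearMap.map_update_add, ← vec_c, ← vec_c])
    (fun r c d => by
      rw [vec_c a b c d (r • c), MultilinearMap.map_update_smul, ← vec_c])
    (fun c d d' => by
      rw [vec_d a b c d (d + d'), MultilinearMap.map_update_add, ← vec_d, ← vec_d])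
    (fun r c d => by
      rw [vec_d a b c d (r • d), MultilinearMap.map_update_smul, ← vec_d]))
    (fun a a' b => by
      ext c d
      simp only [LinearMap.mk₂_apply, LinearMap.add_apply]
      rw [vec_a a b c d (a + a'), MultilinearMap.map_update_add, ← vec_a, ← vec_a])
    (fun r a b => by
      ext c d
      simp only [LinearMap.mk₂_apply, LinearMap.smul_apply]
      rw [vec_a a b c d (r • a), MultilinearMap.map_update_smul, ← vec_a])
    (fun a b b' => by
      ext c d
      simp only [LinearMap.mk₂_apply, LinearMap.add_apply]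
      rw [vec_b a b c d (b + b'), MultilinearMap.map_update_add, ← vec_b, ← vec_b])
    (fun r a b => by
      ext c d
      simp only [LinearMap.mk₂_apply, LinearMap.smul_apply]
      rw [vec_b a b c d (r • b), MultilinearMap.map_update_smul, ← vec_b])

theorem nest_apply (φ : MultilinearMap k (fun _ : Fin 2 × Fin 2 => V) k) (a b c d : V) :
    nest φ a b c d = φ (vec a b c d) := rfl

theorem nest_kill {φ : MultilinearMap k (fun _ : Fin 2 × Fin 2 => V) k} {X : Module.End k V}
    (h : Kills X φ) : Kill4 (nest φ) X := by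
  intro a b c d
  have h1 := h (vec a b c d)
  rw [Fintype.sum_prod_type, Fin.sum_univ_two, Fin.sum_univ_two, Fin.sum_univ_two] at h1
  have e1 : vec a b c d (0, 0) = a := rfl
  have e2 : vec a b c d (0, 1) = b := rfl
  have e3 : vec a b c d (1, 0) = c := rfl
  have e4 : vec a b c d (1, 1) = d := rfl
  rw [e1, e2, e3, e4, ← vec_a, ← vec_b, ← vec_c, ← vec_d] at h1
  rw [nest_apply, nest_apply, nest_apply, nest_apply]
  linear_combination h1

theorem nest_alt (φ : AlternatingMap k V k (Fin 2 × Fin 2)) :
    Alt4 (nest φ.toMultilinearMap) := by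
  constructor
  · intro a b c d
    have h := φ.map_swap (vec b a c d) (i := (0, 0)) (j := (0, 1)) (by decide)
    have e : vec b a c d ∘ Equiv.swap ((0, 0) : Fin 2 × Fin 2) (0, 1) = vec a b c d := by
      funext ⟨i, j⟩
      fin_cases i <;> fin_cases j <;> rfl
    rw [e] at h
    exact h
  · intro a b c d
    have h := φ.map_swap (vec a c b d) (i := (0, 1)) (j := (1, 0)) (by decide)
    have e : vec a c b d ∘ Equiv.swap ((0, 1) : Fin 2 × Fin 2) (1, 0) = vec a b c d := by
      funext ⟨i, j⟩
      fin_cases i <;> fin_cases j <;> rfl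
    rw [e] at h
    exact h
  · intro a b c d
    have h := φ.map_swap (vec a b d c) (i := (1, 0)) (j := (1, 1)) (by decide)
    have e : vec a b d c ∘ Equiv.swap ((1, 0) : Fin 2 × Fin 2) (1, 1) = vec a b c d := by
      funext ⟨i, j⟩
      fin_cases i <;> fin_cases j <;> rfl
    rw [e] at h
    exact h

end

section ext

variable {W : Type} [AddCommGroup W] [Module ℚ W] [FiniteDimensional ℚ W]

/-- the inclusion -/
abbrev ic (w : W) : ℂ ⊗[ℚ] W := (1 : ℂ) ⊗ₜ[ℚ] w

theorem ext_one (f : ℂ ⊗[ℚ] W → ℂ) (hadd : ∀ u v, f (u + v) = f u + f v)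
    (hsmul : ∀ (c : ℂ) u, f (c • u) = c * f u) (h : ∀ w, f (ic w) = 0) (z : ℂ ⊗[ℚ] W) :
    f z = 0 := by
  induction z using TensorProduct.induction_on with
  | zero =>
    have := hsmul 0 0
    rw [zero_smul, zero_mul] at this
    exact this
  | tmul a w =>
    have h1 : a ⊗ₜ[ℚ] w = a • ic w := by rw [smul_tmul', smul_eq_mul, mul_one]
    rw [h1, hsmul, h, mul_zero]
  | add u v hu hv => rw [hadd, hu, hv, add_zero]

variable {ν : Type} [Fintype ν] [DecidableEq ν] (bs : Basis ν ℚ W)

/-- the complex extension of a form -/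
def nestC (φ : MultilinearMap ℚ (fun _ : Fin 2 × Fin 2 => W) ℚ) :
    (ℂ ⊗[ℚ] W) →ₗ[ℂ] (ℂ ⊗[ℚ] W) →ₗ[ℂ] (ℂ ⊗[ℚ] W) →ₗ[ℂ] (ℂ ⊗[ℚ] W) →ₗ[ℂ] ℂ :=
  nest (bcm (Ω := ℂ) bs φ)

theorem nestC_ic (φ : MultilinearMap ℚ (fun _ : Fin 2 × Fin 2 => W) ℚ) (a b c d : W) :
    nestC bs φ (ic a) (ic b) (ic c) (ic d) = ((nest φ a b c d : ℚ) : ℂ) := by
  unfold nestC
  rw [nest_apply, nest_apply, ← vec_map, bcm_one]
  rfl

theorem nestC_kill {φ : MultilinearMap ℚ (fun _ : Fin 2 × Fin 2 => W) ℚ} {X : Module.End ℚ W}
    (h : Kills X φ) : Kill4 (nestC bs φ) (X.baseChange ℂ) :=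
  nest_kill (kills_ext _ φ (bcm_one bs φ) X h)

theorem nestC_alt {φ : MultilinearMap ℚ (fun _ : Fin 2 × Fin 2 => W) ℚ} (h : Alt4 (nest φ)) :
    Alt4 (nestC bs φ) := by
  constructor
  · intro x y z t
    rw [← sub_eq_zero, sub_neg_eq_add]
    refine ext_one (fun x => nestC bs φ x y z t + nestC bs φ y x z t) (fun u v => ?_) (fun c u => ?_)
      (fun x => ?_) x
    · simp only [map_add, LinearMap.add_apply]; ring
    · simp only [map_smul, LinearMap.smul_apply, smul_eq_mul]; ring
    refine ext_one (fun y => nestC bs φ (ic x) y z t + nestC bs φ y (ic x) z t) (fun u v => ?_)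
      (fun c u => ?_) (fun y => ?_) y
    · simp only [map_add, LinearMap.add_apply]; ring
    · simp only [map_smul, LinearMap.smul_apply, smul_eq_mul]; ring
    refine ext_one (fun z => nestC bs φ (ic x) (ic y) z t + nestC bs φ (ic y) (ic x) z t)
      (fun u v => ?_) (fun c u => ?_) (fun z => ?_) z
    · simp only [map_add, LinearMap.add_apply]; ring
    · simp only [map_smul, LinearMap.smul_apply, smul_eq_mul]; ring
    refine ext_one (fun t => nestC bs φ (ic x) (ic y) (ic z) t + nestC bs φ (ic y) (ic x) (ic z) t)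
      (fun u v => ?_) (fun c u => ?_) (fun t => ?_) t
    · simp only [map_add]; ring
    · simp only [map_smul, smul_eq_mul]; ring
    rw [nestC_ic, nestC_ic, ← Rat.cast_add, h.s12, neg_add_cancel, Rat.cast_zero]
  · intro x y z t
    rw [← sub_eq_zero, sub_neg_eq_add]
    refine ext_one (fun x => nestC bs φ x y z t + nestC bs φ x z y t) (fun u v => ?_) (fun c u => ?_)
      (fun x => ?_) x
    · simp only [map_add, LinearMap.add_apply]; ring
    · simp only [map_smul, LinearMap.smul_apply, smul_eq_mul]; ring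
    refine ext_one (fun y => nestC bs φ (ic x) y z t + nestC bs φ (ic x) z y t) (fun u v => ?_)
      (fun c u => ?_) (fun y => ?_) y
    · simp only [map_add, LinearMap.add_apply]; ring
    · simp only [map_smul, LinearMap.smul_apply, smul_eq_mul]; ring
    refine ext_one (fun z => nestC bs φ (ic x) (ic y) z t + nestC bs φ (ic x) z (ic y) t)
      (fun u v => ?_) (fun c u => ?_) (fun z => ?_) z
    · simp only [map_add, LinearMap.add_apply]; ring
    · simp only [map_smul, LinearMap.smul_apply, smul_eq_mul]; ring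
    refine ext_one (fun t => nestC bs φ (ic x) (ic y) (ic z) t + nestC bs φ (ic x) (ic z) (ic y) t)
      (fun u v => ?_) (fun c u => ?_) (fun t => ?_) t
    · simp only [map_add]; ring
    · simp only [map_smul, smul_eq_mul]; ring
    rw [nestC_ic, nestC_ic, ← Rat.cast_add, h.s23, neg_add_cancel, Rat.cast_zero]
  · intro x y z t
    rw [← sub_eq_zero, sub_neg_eq_add]
    refine ext_one (fun x => nestC bs φ x y z t + nestC bs φ x y t z) (fun u v => ?_) (fun c u => ?_)
      (fun x => ?_) x
    · simp only [map_add, LinearMap.add_apply]; ring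
    · simp only [map_smul, LinearMap.smul_apply, smul_eq_mul]; ring
    refine ext_one (fun y => nestC bs φ (ic x) y z t + nestC bs φ (ic x) y t z) (fun u v => ?_)
      (fun c u => ?_) (fun y => ?_) y
    · simp only [map_add, LinearMap.add_apply]; ring
    · simp only [map_smul, LinearMap.smul_apply, smul_eq_mul]; ring
    refine ext_one (fun z => nestC bs φ (ic x) (ic y) z t + nestC bs φ (ic x) (ic y) t z)
      (fun u v => ?_) (fun c u => ?_) (fun z => ?_) z
    · simp only [map_add, LinearMap.add_apply]; ring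
    · simp only [map_smul, LinearMap.smul_apply, smul_eq_mul]; ring
    refine ext_one (fun t => nestC bs φ (ic x) (ic y) (ic z) t + nestC bs φ (ic x) (ic y) t (ic z))
      (fun u v => ?_) (fun c u => ?_) (fun t => ?_) t
    · simp only [map_add, LinearMap.add_apply]; ring
    · simp only [map_smul, LinearMap.smul_apply, smul_eq_mul]; ring
    rw [nestC_ic, nestC_ic, ← Rat.cast_add, h.s34, neg_add_cancel, Rat.cast_zero]

end ext

end Pool.Agent.Q66
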