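import Pool.Agent.Q66.C13
import Pool.Agent.Q66.C12

set_option autoImplicit false
set_option linter.unusedSectionVars false
set_option linter.unusedVariables false
set_option linter.unusedSimpArgs false

/-!
# Complex extensions
-/

open Module TensorProduct Pool.Agent.H204R3.SP Pool.Agent.W516.DR

noncomputable section

namespace Pool.Agent.Q66

variable {W : Type} [AddCommGroup W] [Module ℚ W] [FiniteDimensional ℚ W]

/-- the complex extension of a bilinear form -/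
def thC (θ : W →ₗ[ℚ] W →ₗ[ℚ] ℚ) : (ℂ ⊗[ℚ] W) →ₗ[ℂ] (ℂ ⊗[ℚ] W) →ₗ[ℂ] ℂ :=
  LinearMap.BilinForm.baseChange ℂ (θ : LinearMap.BilinForm ℚ W)

theorem thC_ic (θ : W →ₗ[ℚ] W →ₗ[ℚ] ℚ) (u v : W) : thC θ (ic u) (ic v) = ((θ u v : ℚ) : ℂ) := by
  unfold thC ic
  rw [LinearMap.BilinForm.baseChange_tmul, mul_one, Rat.smul_def, mul_one]

theorem thC_ic' (θ : W →ₗ[ℚ] W →ₗ[ℚ] ℚ) (u v : W) :
    thC θ ((1 : ℂ) ⊗ₜ[ℚ] u) ((1 : ℂ) ⊗ₜ[ℚ] v) = algebraMap ℚ ℂ (θ u v) := thC_ic θ u v

theorem thC_anti {θ : W →ₗ[ℚ] W →ₗ[ℚ] ℚ} (h : ∀ u v, θ u v = -θ v u) (x y : ℂ ⊗[ℚ] W) :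
    thC θ x y = -thC θ y x := by
  rw [← sub_eq_zero, sub_neg_eq_add]
  refine ext_one (fun x => thC θ x y + thC θ y x) (fun u v => ?_) (fun c u => ?_) (fun x => ?_) x
  · simp only [map_add, LinearMap.add_apply]; ring
  · simp only [map_smul, LinearMap.smul_apply, smul_eq_mul]; ring
  refine ext_one (fun y => thC θ (ic x) y + thC θ y (ic x)) (fun u v => ?_) (fun c u => ?_)
    (fun y => ?_) y
  · simp only [map_add, LinearMap.add_apply]; ring
  · simp only [map_smul, LinearMap.smul_apply, smul_eq_mul]; ring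
  rw [thC_ic, thC_ic, ← Rat.cast_add, h, neg_add_cancel, Rat.cast_zero]

variable {ν : Type} [Fintype ν] [DecidableEq ν]

theorem frC {θ : W →ₗ[ℚ] W →ₗ[ℚ] ℚ} {b : Basis ν ℚ W} {b' : ν → W} (F : Fr θ b b') :
    Fr (thC θ) (b.baseChange ℂ) (fun i => ic (b' i)) where
  anti := thC_anti F.anti
  dual i j := by
    rw [Basis.baseChange_apply]
    change thC θ (ic (b' i)) (ic (b j)) = _
    rw [thC_ic, F.dual]
    split_ifs <;> simp

theorem primC {θ : W →ₗ[ℚ] W →ₗ[ℚ] ℚ} (bs : Basis ν ℚ W)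
    {φ : MultilinearMap ℚ (fun _ : Fin 2 × Fin 2 => W) ℚ} (h : Prim θ (nest φ)) :
    Prim (thC θ) (nestC bs φ) := by
  rw [prim_iff]
  intro v₁ v₂ v₃ v₄ v₅ v₆
  refine ext_one (fun v => et (thC θ) (nestC bs φ) v v₂ v₃ v₄ v₅ v₆) (fun u v => ?_) (fun c u => ?_)
    (fun a => ?_) v₁
  · simp only [et, map_add, LinearMap.add_apply]; ring
  · simp only [et, map_smul, LinearMap.smul_apply, smul_eq_mul]; ring
  refine ext_one (fun v => et (thC θ) (nestC bs φ) (ic a) v v₃ v₄ v₅ v₆) (fun u v => ?_) (fun c u => ?_)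
    (fun b => ?_) v₂
  · simp only [et, map_add, LinearMap.add_apply]; ring
  · simp only [et, map_smul, LinearMap.smul_apply, smul_eq_mul]; ring
  refine ext_one (fun v => et (thC θ) (nestC bs φ) (ic a) (ic b) v v₄ v₅ v₆) (fun u v => ?_) (fun c u => ?_)
    (fun c => ?_) v₃
  · simp only [et, map_add, LinearMap.add_apply]; ring
  · simp only [et, map_smul, LinearMap.smul_apply, smul_eq_mul]; ring
  refine ext_one (fun v => et (thC θ) (nestC bs φ) (ic a) (ic b) (ic c) v v₅ v₆) (fun u v => ?_) (fun c u => ?_)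
    (fun d => ?_) v₄
  · simp only [et, map_add, LinearMap.add_apply]; ring
  · simp only [et, map_smul, LinearMap.smul_apply, smul_eq_mul]; ring
  refine ext_one (fun v => et (thC θ) (nestC bs φ) (ic a) (ic b) (ic c) (ic d) v v₆) (fun u v => ?_) (fun c u => ?_)
    (fun x => ?_) v₅
  · simp only [et, map_add, LinearMap.add_apply]; ring
  · simp only [et, map_smul, LinearMap.smul_apply, smul_eq_mul]; ring
  refine ext_one (fun v => et (thC θ) (nestC bs φ) (ic a) (ic b) (ic c) (ic d) (ic x) v) (fun u v => ?_) (fun c u => ?_)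
    (fun y => ?_) v₆
  · simp only [et, map_add, LinearMap.add_apply]; ring
  · simp only [et, map_smul, LinearMap.smul_apply, smul_eq_mul]; ring
  have h1 : et (thC θ) (nestC bs φ) (ic a) (ic b) (ic c) (ic d) (ic x) (ic y) =
      ((et θ (nest φ) a b c d x y : ℚ) : ℂ) := by
    simp only [et, thC_ic, nestC_ic]
    push_cast
    ring
  rw [h1, (prim_iff.1 h) a b c d x y, Rat.cast_zero]

/-- the contraction of the extension -/
theorem T4C {θ : W →ₗ[ℚ] W →ₗ[ℚ] ℚ} {b : Basis ν ℚ W} {b' : ν → W} (F : Fr θ b b')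
    {φ : MultilinearMap ℚ (fun _ : Fin 2 × Fin 2 => W) ℚ} {X : Module.End ℚ W}
    (h : T4 (nest φ) b b' X = 0) :
    T4 (nestC b φ) (b.baseChange ℂ) (fun i => ic (b' i)) (X.baseChange ℂ) = 0 := by
  refine LinearMap.ext fun u => ?_
  rw [LinearMap.zero_apply]
  refine (frC F).eq_zero fun v => ?_
  rw [T4_spec (frC F)]
  have h1 : S4 (nestC b φ) (b.baseChange ℂ) (fun i => ic (b' i)) (X.baseChange ℂ) = 0 := by
    refine bilin_ext (F := ℚ) _ _ fun u v => ?_
    rw [S4_apply]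
    have h2 : ∀ i, nestC b φ (X.baseChange ℂ (b.baseChange ℂ i)) (ic (b' i)) (ic u) (ic v) =
        ((nest φ (X (b i)) (b' i) u v : ℚ) : ℂ) := by
      intro i
      rw [Basis.baseChange_apply, LinearMap.baseChange_tmul]
      exact nestC_ic b φ _ _ _ _
    simp only [h2]
    have h3 := S4_apply (nest φ) b b' X u v
    rw [← T4_spec F, h, LinearMap.zero_apply, map_zero, LinearMap.zero_apply] at h3
    rw [← Rat.cast_sum, ← h3, Rat.cast_zero]
    rfl
  rw [h1]
  rfl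

theorem nest_eq_zero (bs : Basis ν ℚ W) {φ : MultilinearMap ℚ (fun _ : Fin 2 × Fin 2 => W) ℚ}
    (h : nestC bs φ = 0) : φ = 0 := by
  ext v
  have h1 := nestC_ic bs φ (v (0, 0)) (v (0, 1)) (v (1, 0)) (v (1, 1))
  rw [h, nest_apply, vec_eta] at h1
  simp only [LinearMap.zero_apply] at h1
  have h2 : ((φ v : ℚ) : ℂ) = 0 := h1.symm
  rw [MultilinearMap.zero_apply]
  exact_mod_cast h2

end Pool.Agent.Q66
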