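import Pool.Agent.Q66.C14
import Pool.Agent.Q66.C11

set_option autoImplicit false
set_option linter.unusedSectionVars false
set_option linter.unusedVariables false
set_option linter.unusedSimpArgs false

/-!
# Abelian varieties all of whose endomorphisms are symmetric
-/

open Module TensorProduct Pool.Agent.H204R3.SP Pool.Agent.W516.DR Pool.Agent.Y102
  Pool.Agent.W516.KC Pool.Agent.H204R3.GP

noncomputable section

namespace Pool.Agent.Q66

section Gen

variable {H : Type} [AddCommGroup H] [Module ℚ H] [FiniteDimensional ℚ H]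

/-- dual bases for the trace form -/
theorem exists_dual_gen (E : Submodule ℚ (Module.End ℚ H))
    (hnd : ∀ x ∈ E, LinearMap.trace ℚ H (x * x) = 0 → x = 0) :
    ∃ (r : ℕ) (z z' : Fin r → Module.End ℚ H),
    (∀ i, z i ∈ E) ∧ (∀ i, z' i ∈ E) ∧
    (∀ P ∈ E, ∑ i, LinearMap.trace ℚ H (z' i * P) • z i = P) ∧
    ∀ P ∈ E, ∑ i, LinearMap.trace ℚ H (P * z i) • z' i = P := by
  classical
  let B : LinearMap.BilinForm ℚ E := LinearMap.mk₂ ℚ
    (fun x y => LinearMap.trace ℚ H (x.1 * y.1))
    (fun x y z => by simp [add_mul]) (fun c x y => by simp)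
    (fun x y z => by simp [mul_add]) (fun c x y => by simp)
  have hB : ∀ x y, B x y = LinearMap.trace ℚ H (x.1 * y.1) := fun _ _ => rfl
  have hBs : ∀ x y, B x y = B y x := fun x y => by rw [hB, hB, LinearMap.trace_mul_comm]
  have hsep : ∀ x, (∀ y, B x y = 0) → x = 0 := by
    intro x hx
    have h1 := hx x
    exact Subtype.ext (hnd _ x.2 h1)
  have hBn : B.Nondegenerate := ⟨hsep, fun y hy => hsep y fun x => by rw [hBs]; exact hy x⟩
  let z := Module.finBasis ℚ E
  let z' := B.dualBasis hBn z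
  have hz : ∀ i j, B (z' i) (z j) = if j = i then 1 else 0 := fun i j =>
    LinearMap.BilinForm.apply_dualBasis_left hBn z i j
  have e1 : ∀ P : E, ∑ i, B (z' i) P • z i = P := by
    intro P
    conv_rhs => rw [← z.sum_repr P]
    refine Finset.sum_congr rfl fun i _ => ?_
    congr 1
    conv_lhs => rw [← z.sum_repr P]
    simp only [map_sum, map_smul, hz, smul_eq_mul]
    simp
  have e2 : ∀ P : E, ∑ i, B P (z i) • z' i = P := by
    intro P
    conv_rhs => rw [← z'.sum_repr P]
    refine Finset.sum_congr rfl fun i _ => ?_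
    congr 1
    rw [LinearMap.BilinForm.dualBasis_repr_apply]
  refine ⟨_, fun i => (z i).1, fun i => (z' i).1, fun i => (z i).2, fun i => (z' i).2,
    fun P hP => ?_, fun P hP => ?_⟩
  · have h1 := congrArg (fun x : E => (x : Module.End ℚ H)) (e1 ⟨P, hP⟩)
    simp only [Submodule.coe_sum, Submodule.coe_smul, hB] at h1
    exact h1
  · have h1 := congrArg (fun x : E => (x : Module.End ℚ H)) (e2 ⟨P, hP⟩)
    simp only [Submodule.coe_sum, Submodule.coe_smul, hB] at h1
    exact h1

/-- a rational scalar after base change -/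
theorem alg_bc (c : ℚ) (w : ℂ ⊗[ℚ] H) :
    ((algebraMap ℚ (Module.End ℚ H) c).baseChange ℂ) w = (c : ℂ) • w := by
  induction w using TensorProduct.induction_on with
  | zero => rw [map_zero, smul_zero]
  | tmul a w =>
    rw [LinearMap.baseChange_tmul, Module.algebraMap_end_apply, TensorProduct.tmul_smul]
    rw [TensorProduct.smul_tmul', TensorProduct.smul_tmul']
    congr 1
  | add u v hu hv => rw [map_add, hu, hv, smul_add]

end Gen

variable {g : ℕ} (A : AbVar g)

/-- Positivity of the trace form on symmetric endomorphisms. -/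
theorem trace_sq_sym {X : Module.End ℚ A.H1} {M : (Fin g → ℂ) →ₗ[ℂ] (Fin g → ℂ)}
    (hM : ∀ w, M (A.per w) = A.per (X w)) (hs : ∀ u v, A.om (X u) v = A.om u (X v))
    (h0 : LinearMap.trace ℚ A.H1 (X * X) = 0) : X = 0 := by
  classical
  have hsk : ∀ u v, A.E (M u) v = A.E u (M v) := by
    have h2 : A.E.comp (M.restrictScalars ℝ) = (A.E.flip.comp (M.restrictScalars ℝ)).flip := by
      refine A.ext_per fun u => A.ext_per fun v => ?_
      change A.E (M (A.per u)) (A.per v) = A.E (A.per u) (M (A.per v))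
      rw [hM, hM, ← AbVar.om_coe, ← AbVar.om_coe, hs]
    intro u v
    exact congrArg (fun F : (Fin g → ℂ) →ₗ[ℝ] (Fin g → ℂ) →ₗ[ℝ] ℝ => F u v) h2
  have hPF : ∀ u v, A.PF (M u) v = A.PF u (M v) := fun u v => by
    rw [AbVar.PF_apply, AbVar.PF_apply, hsk, map_smul]
  have htr : LinearMap.trace ℝ (Fin g → ℂ) ((M.comp M).restrictScalars ℝ) = 0 := by
    rw [← A.trace_real (X := X * X) (M := (M.comp M).restrictScalars ℝ), h0, Rat.cast_zero]
    intro w
    change M (M (A.per w)) = A.per (X (X w))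
    rw [hM, hM]
  have hsym : LinearMap.IsSymm (A.PF) := ⟨fun u v => by rw [RingHom.id_apply]; exact A.PF_symm u v⟩
  obtain ⟨v, hv⟩ := LinearMap.BilinForm.exists_orthogonal_basis hsym
  have hrepr : ∀ x i, v.repr x i * A.PF (v i) (v i) = A.PF x (v i) := by
    intro x i
    conv_rhs => rw [← v.sum_repr x]
    rw [map_sum, LinearMap.sum_apply, Finset.sum_eq_single i]
    · rw [map_smul, LinearMap.smul_apply, smul_eq_mul]
    · intro j _ hj
      rw [map_smul, LinearMap.smul_apply]
      have h1 : A.PF (v j) (v i) = 0 := hv hj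
      rw [h1, smul_zero]
    · intro h
      exact absurd (Finset.mem_univ _) h
  have hpos : ∀ i, 0 < A.PF (v i) (v i) := fun i => A.PF_pos (v.ne_zero i)
  have hterm : ∀ i, v.repr (M (M (v i))) i = A.PF (M (v i)) (M (v i)) / A.PF (v i) (v i) := by
    intro i
    have h1 := hrepr (M (M (v i))) i
    rw [hPF] at h1
    rw [eq_div_iff (hpos i).ne', h1]
  rw [LinearMap.trace_eq_matrix_trace ℝ v, Matrix.trace] at htr
  have hsum : ∑ i, A.PF (M (v i)) (M (v i)) / A.PF (v i) (v i) = 0 := by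
    rw [← htr]
    refine Finset.sum_congr rfl fun i _ => ?_
    rw [Matrix.diag_apply, LinearMap.toMatrix_apply]
    exact (hterm i).symm
  have hnn : ∀ i ∈ Finset.univ, 0 ≤ A.PF (M (v i)) (M (v i)) / A.PF (v i) (v i) := by
    intro i _
    refine div_nonneg ?_ (hpos i).le
    by_cases h : M (v i) = 0
    · rw [h, map_zero]
    · exact (A.PF_pos h).le
  have hM0 : ∀ i, M (v i) = 0 := by
    intro i
    have h1 := (Finset.sum_eq_zero_iff_of_nonneg hnn).1 hsum i (Finset.mem_univ _)
    by_contra hne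
    rw [div_eq_zero_iff] at h1
    rcases h1 with h1 | h1
    · exact (A.PF_pos hne).ne' h1
    · exact (hpos i).ne' h1
  have hM1 : M.restrictScalars ℝ = 0 := v.ext fun i => hM0 i
  refine LinearMap.ext fun w => A.per_inj ?_
  rw [← hM, LinearMap.zero_apply, map_zero]
  exact congrArg (fun F : (Fin g → ℂ) →ₗ[ℝ] (Fin g → ℂ) => F (A.per w)) hM1

/-- All endomorphisms are symmetric. -/
def AllSym : Prop := ∀ P ∈ A.EA, ∀ u v, A.om (P u) v = A.om u (P v)

variable {A}

theorem AllSym.comm (h : AllSym A) {P Q : Module.End ℚ A.H1} (hP : P ∈ A.EA) (hQ : Q ∈ A.EA) :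
    P * Q = Q * P := by
  refine LinearMap.ext fun v => ?_
  rw [← sub_eq_zero]
  apply A.om_nondeg
  intro u
  have h1 := h _ (A.endAlg.mul P hP Q hQ) v u
  have h2 := h P hP (Q v) u
  have h3 := h Q hQ v (P u)
  have h4 := h _ (A.endAlg.mul Q hQ P hP) v u
  rw [map_sub, LinearMap.sub_apply, h1, h4]
  rw [Module.End.mul_apply] at h1
  rw [h2, h3, ← Module.End.mul_apply, ← h4] at h1
  rw [← h1, h4, sub_self]

theorem AllSym.nondeg (h : AllSym A) {P : Module.End ℚ A.H1} (hP : P ∈ A.EA)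
    (h0 : LinearMap.trace ℚ A.H1 (P * P) = 0) : P = 0 := by
  obtain ⟨M, hM⟩ := A.hodge_end (A.mem_EA.1 hP)
  exact trace_sq_sym A hM (h P hP) h0

/-- dual bases of the algebra of endomorphisms -/
theorem AllSym.exists_dual (h : AllSym A) : ∃ (r : ℕ) (z z' : Fin r → Module.End ℚ A.H1),
    (∀ i, z i ∈ A.EA) ∧ (∀ i, z' i ∈ A.EA) ∧
    (∀ P ∈ A.EA, ∑ i, LinearMap.trace ℚ A.H1 (z' i * P) • z i = P) ∧
    ∀ P ∈ A.EA, ∑ i, LinearMap.trace ℚ A.H1 (P * z i) • z' i = P :=
  exists_dual_gen A.EA fun _ hx h0 => h.nondeg hx h0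

/-- the operators commuting with the endomorphisms are in the enveloping algebra -/
theorem stable_of_comm {W : Submodule ℂ (ℂ ⊗[ℚ] A.H1)}
    (hW : ∀ X ∈ A.LA, ∀ w ∈ W, X.baseChange ℂ w ∈ W) {T : Module.End ℚ A.H1}
    (hT : ∀ P ∈ A.EA, T * P = P * T) : ∀ w ∈ W, T.baseChange ℂ w ∈ W := by
  have h1 : T ∈ Algebra.adjoin ℚ (A.LA : Set (Module.End ℚ A.H1)) :=
    mem_adjoin_of_comm A.semi_LA fun P hP => hT P hP
  refine Algebra.adjoin_induction (p := fun X _ => ∀ w ∈ W, X.baseChange ℂ w ∈ W)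
    ?_ ?_ ?_ ?_ h1
  · intro X hX
    exact hW X hX
  · intro c w hw
    rw [alg_bc]
    exact W.smul_mem _ hw
  · intro X Y _ _ hX hY w hw
    rw [LinearMap.baseChange_add, LinearMap.add_apply]
    exact W.add_mem (hX w hw) (hY w hw)
  · intro X Y _ _ hX hY w hw
    rw [bc_mul, Module.End.mul_apply]
    exact hX _ (hY w hw)

end Pool.Agent.Q66
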