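import Pool.Agent.Q66.C15

set_option autoImplicit false
set_option linter.unusedSectionVars false
set_option linter.unusedVariables false
set_option linter.unusedSimpArgs false

/-!
# There are no isotropic stable subspaces
-/

open Module TensorProduct Pool.Agent.H204R3.SP Pool.Agent.W516.DR Pool.Agent.Y102
  Pool.Agent.W516.KC Pool.Agent.H204R3.GP

noncomputable section

namespace Pool.Agent.Q66

variable {g : ℕ} {A : AbVar g}

section

variable {H : Type} [AddCommGroup H] [Module ℚ H] [FiniteDimensional ℚ H]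

theorem ic_smul (c : ℚ) (u : H) : ic (c • u) = (c : ℂ) • ic u := by
  change (1 : ℂ) ⊗ₜ[ℚ] (c • u) = (c : ℂ) • ((1 : ℂ) ⊗ₜ[ℚ] u)
  rw [TensorProduct.tmul_smul, TensorProduct.smul_tmul', TensorProduct.smul_tmul']
  congr 1

theorem ic_add (u v : H) : ic (u + v) = ic u + ic v := TensorProduct.tmul_add _ _ _

theorem ic_sum {ι : Type*} (s : Finset ι) (f : ι → H) : ic (∑ i ∈ s, f i) = ∑ i ∈ s, ic (f i) :=
  TensorProduct.tmul_sum _ _ _

theorem bc_sum {ι : Type*} (s : Finset ι) (f : ι → Module.End ℚ H) :
    ((∑ i ∈ s, f i).baseChange ℂ : Module.End ℂ (ℂ ⊗[ℚ] H)) = ∑ i ∈ s, (f i).baseChange ℂ := by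
  classical
  induction s using Finset.induction_on with
  | empty => rw [Finset.sum_empty, Finset.sum_empty, LinearMap.baseChange_zero]
  | insert a s ha ih => rw [Finset.sum_insert ha, Finset.sum_insert ha, LinearMap.baseChange_add, ih]

theorem bc_smul (c : ℚ) (X : Module.End ℚ H) :
    ((c • X).baseChange ℂ : Module.End ℂ (ℂ ⊗[ℚ] H)) = (c : ℂ) • X.baseChange ℂ := by
  refine TensorProduct.AlgebraTensorModule.ext fun a u => ?_
  rw [LinearMap.baseChange_tmul, LinearMap.smul_apply, LinearMap.smul_apply,
    LinearMap.baseChange_tmul, TensorProduct.tmul_smul, TensorProduct.smul_tmul',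
    TensorProduct.smul_tmul']
  congr 1

theorem ext_one' {f f' : ℂ ⊗[ℚ] H → ℂ} (h1 : ∀ u v, f (u + v) = f u + f v)
    (h2 : ∀ (c : ℂ) u, f (c • u) = c * f u) (h3 : ∀ u v, f' (u + v) = f' u + f' v)
    (h4 : ∀ (c : ℂ) u, f' (c • u) = c * f' u) (h : ∀ w, f (ic w) = f' (ic w)) (z : ℂ ⊗[ℚ] H) :
    f z = f' z := by
  rw [← sub_eq_zero]
  refine ext_one (fun x => f x - f' x) (fun u v => ?_) (fun c u => ?_) (fun w => ?_) z
  · simp only [h1, h3]; ring
  · simp only [h2, h4]; ring
  · simp only [h, sub_self]

end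

theorem trC (P : Module.End ℚ A.H1) : LinearMap.trace ℂ (ℂ ⊗[ℚ] A.H1) (P.baseChange ℂ) =
    ((LinearMap.trace ℚ A.H1 P : ℚ) : ℂ) := LinearMap.trace_baseChange P ℂ

/-- the extension of a linear form -/
def fC (A : AbVar g) (w : ℂ ⊗[ℚ] A.H1) : A.H1 →ₗ[ℚ] ℂ where
  toFun u := thC A.om (ic u) w
  map_add' u v := by
    rw [ic_add, map_add, LinearMap.add_apply]
  map_smul' c u := by
    rw [ic_smul, map_smul, LinearMap.smul_apply, RingHom.id_apply, smul_eq_mul, Rat.smul_def]

theorem fC_apply (w : ℂ ⊗[ℚ] A.H1) (u : A.H1) : fC A w u = thC A.om (ic u) w := rfl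

theorem AllSym.noIso (h : AllSym A) :
    NoIso (thC A.om) {X | ∃ Y ∈ A.LA, X = Y.baseChange ℂ} := by
  intro W hW hWi
  obtain ⟨r, z, z', hz, hz', D1, D2⟩ := h.exists_dual
  rw [Submodule.eq_bot_iff]
  intro w hw
  set f := fC A w with hf
  -- the identity
  have key : ∀ u v, ∑ i, f (z i u) * f (z' i v) = 0 := by
    intro u v
    let a : Module.End ℚ A.H1 := ∑ i, (A.om (z i u)).smulRight (z' i v)
    have ha : ∀ x, a x = ∑ i, A.om (z i u) x • z' i v := fun x => by
      simp only [a, LinearMap.sum_apply, LinearMap.smulRight_apply]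
    have hcomm : ∀ P ∈ A.EA, a * P = P * a := by
      intro P hP
      refine LinearMap.ext fun x => ?_
      rw [Module.End.mul_apply, Module.End.mul_apply, ha, ha, map_sum]
      have h1 : ∀ i, A.om (z i u) (P x) • z' i v =
          ∑ j, (LinearMap.trace ℚ A.H1 (z' j * (P * z i)) * A.om (z j u) x) • z' i v := by
        intro i
        rw [← h P hP, ← Finset.sum_smul]
        congr 1
        have h2 := D1 (P * z i) (A.endAlg.mul P hP _ (hz i))
        have h3 : P (z i u) = ∑ j, LinearMap.trace ℚ A.H1 (z' j * (P * z i)) • z j u := by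
          conv_lhs => rw [← Module.End.mul_apply, ← h2]
          rw [LinearMap.sum_apply]
          simp only [LinearMap.smul_apply]
        rw [h3, map_sum, LinearMap.sum_apply]
        simp only [map_smul, LinearMap.smul_apply, smul_eq_mul]
      simp only [h1]
      rw [Finset.sum_comm]
      refine Finset.sum_congr rfl fun j _ => ?_
      have h4 := D2 (z' j * P) (A.endAlg.mul _ (hz' j) P hP)
      have h5 : P (z' j v) = ∑ i, LinearMap.trace ℚ A.H1 (z' j * P * z i) • z' i v := by
        rw [← Module.End.mul_apply, h.comm hP (hz' j)]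
        conv_lhs => rw [← h4]
        rw [LinearMap.sum_apply]
        simp only [LinearMap.smul_apply]
      rw [map_smul, h5, Finset.smul_sum]
      refine Finset.sum_congr rfl fun i _ => ?_
      rw [smul_smul, mul_assoc]
      congr 1
      exact mul_comm _ _
    have h1 : a.baseChange ℂ w ∈ W :=
      stable_of_comm (fun X hX w hw => hW _ ⟨X, hX, rfl⟩ w hw) hcomm w hw
    have h2 := hWi w hw _ h1
    have h3 : ∀ x : ℂ ⊗[ℚ] A.H1, thC A.om w (a.baseChange ℂ x) =
        ∑ i, thC A.om (ic (z i u)) x * thC A.om w (ic (z' i v)) := by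
      refine ext_one' (f := fun x => thC A.om w (a.baseChange ℂ x))
        (f' := fun x => ∑ i, thC A.om (ic (z i u)) x * thC A.om w (ic (z' i v))) ?_ ?_ ?_ ?_ ?_
      · intro x y
        simp only [map_add]
      · intro c x
        simp only [map_smul, smul_eq_mul]
      · intro x y
        simp only [map_add, add_mul, Finset.sum_add_distrib]
      · intro c x
        simp only [map_smul, smul_eq_mul, mul_assoc, Finset.mul_sum]
      · intro x
        change thC A.om w (a.baseChange ℂ (ic x)) =
          ∑ i, thC A.om (ic (z i u)) (ic x) * thC A.om w (ic (z' i v))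
        rw [LinearMap.baseChange_tmul, ha]
        change thC A.om w (ic _) = _
        rw [ic_sum, map_sum]
        refine Finset.sum_congr rfl fun i _ => ?_
        rw [ic_smul, map_smul, thC_ic, smul_eq_mul]
    rw [h3] at h2
    have h4 : ∀ i, thC A.om (ic (z i u)) w * thC A.om w (ic (z' i v)) =
        -(f (z i u) * f (z' i v)) := fun i => by
      rw [thC_anti A.om_anti w, hf, fC_apply, fC_apply]
      ring
    simp only [h4, Finset.sum_neg_distrib, neg_eq_zero] at h2
    exact h2
  -- the vanishing of `f`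
  have hf0 : ∀ u, f u = 0 := by
    intro u
    let y : Module.End ℂ (ℂ ⊗[ℚ] A.H1) := ∑ i, f (z i u) • (z' i).baseChange ℂ
    have hy : ∀ P ∈ A.EA, LinearMap.trace ℂ _ (y * P.baseChange ℂ) = f (P u) := by
      intro P hP
      simp only [y, Finset.sum_mul, map_sum, smul_mul_assoc, map_smul, ← bc_mul, trC]
      conv_rhs => rw [← D1 P hP]
      rw [LinearMap.sum_apply, map_sum]
      refine Finset.sum_congr rfl fun i _ => ?_
      rw [LinearMap.smul_apply, map_smul, smul_eq_mul, Rat.smul_def, mul_comm]
    have hcx : ∀ Y ∈ cx A.EA, (∀ P ∈ A.EA, LinearMap.trace ℂ _ (Y * P.baseChange ℂ) = 0) →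
        Y = 0 := by
      intro Y hY h0
      have h1 : ∑ k, LinearMap.trace ℂ (ℂ ⊗[ℚ] A.H1) (Y * (z k).baseChange ℂ) •
          (z' k).baseChange ℂ = Y := by
        clear h0
        induction hY using Submodule.span_induction with
        | mem x hx =>
          obtain ⟨P, hP, rfl⟩ := hx
          conv_rhs => rw [← D2 P hP]
          rw [bc_sum]
          refine Finset.sum_congr rfl fun i _ => ?_
          rw [← bc_mul, trC, bc_smul]
        | zero => simp
        | add x y _ _ hx hy =>
          simp only [add_mul, map_add, add_smul, Finset.sum_add_distrib]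
          rw [hx, hy]
        | smul c x _ hx =>
          simp only [smul_mul_assoc, map_smul, smul_assoc, ← Finset.smul_sum]
          rw [hx]
      rw [← h1]
      refine Finset.sum_eq_zero fun k _ => ?_
      rw [h0 _ (hz k), zero_smul]
    have hyy : y * y = 0 := by
      apply hcx
      · have hyc : y ∈ cx A.EA := Submodule.sum_mem _ fun i _ =>
          Submodule.smul_mem _ _ (bc_mem (hz' i))
        simp only [y, Finset.sum_mul, Finset.mul_sum, smul_mul_assoc, mul_smul_comm, ← bc_mul]
        refine Submodule.sum_mem _ fun i _ => Submodule.smul_mem _ _ (Submodule.sum_mem _ fun j _ =>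
          Submodule.smul_mem _ _ (bc_mem (A.endAlg.mul _ (hz' _) _ (hz' _))))
      · intro P hP
        have h1 : y * y * P.baseChange ℂ = ∑ j, f (z j u) • (y * (z' j * P).baseChange ℂ) := by
          conv_lhs => rw [mul_assoc]
          conv_lhs => rw [show y * P.baseChange ℂ = ∑ j, f (z j u) • (z' j * P).baseChange ℂ by
            simp only [y, Finset.sum_mul, smul_mul_assoc, ← bc_mul]]
          rw [Finset.mul_sum]
          simp only [mul_smul_comm]
        rw [h1, map_sum]
        simp only [map_smul]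
        rw [← key u (P u)]
        refine Finset.sum_congr rfl fun j _ => ?_
        rw [hy _ (A.endAlg.mul _ (hz' j) P hP), smul_eq_mul, Module.End.mul_apply]
    have h1 : LinearMap.trace ℂ (ℂ ⊗[ℚ] A.H1) y = 0 := by
      have h2 : IsNilpotent y := ⟨2, by rw [pow_two, hyy]⟩
      exact (LinearMap.isNilpotent_trace_of_isNilpotent h2).eq_zero
    have h2 := hy 1 A.EA_one
    rw [LinearMap.baseChange_one, mul_one, h1, Module.End.one_apply] at h2
    exact h2.symm
  refine nondeg_ext (F := ℚ) (k := ℂ) A.om (thC A.om) (thC_ic' A.om) (fun u hu => A.om_nondeg hu)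
    w fun x => ?_
  rw [thC_anti A.om_anti, neg_eq_zero]
  refine ext_one (fun x => thC A.om x w) (fun u v => ?_) (fun c u => ?_) (fun u => ?_) x
  · simp only [map_add, LinearMap.add_apply]
  · simp only [map_smul, LinearMap.smul_apply, smul_eq_mul]
  · exact hf0 u

end Pool.Agent.Q66
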