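import Pool.Agent.Q66.C16
import Pool.Agent.Y102.AV18

set_option autoImplicit false
set_option linter.unusedSectionVars false
set_option linter.unusedVariables false
set_option linter.unusedSimpArgs false

/-!
# The pairing of forms
-/

open Module TensorProduct Pool.Agent.H204R3.SP Pool.Agent.W516.DR Pool.Agent.Y102
  Pool.Agent.W516.KC Pool.Agent.H204R3.GP

noncomputable section

namespace Pool.Agent.Q66

section Gen

variable {W : Type} [AddCommGroup W] [Module ℚ W] [FiniteDimensional ℚ W]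

/-- the product of two bilinear forms -/
def prodF (B B' : W →ₗ[ℚ] W →ₗ[ℚ] ℚ) : MultilinearMap ℚ (fun _ : Fin 2 × Fin 2 => W) ℚ :=
  MultilinearMap.mk' (fun v => B (v (0, 0)) (v (0, 1)) * B' (v (1, 0)) (v (1, 1)))
    (by
      rintro v ⟨i, j⟩ x y
      fin_cases i <;> fin_cases j <;> simp [Function.update_apply] <;> ring)
    (by
      rintro v ⟨i, j⟩ c x
      fin_cases i <;> fin_cases j <;> simp [Function.update_apply] <;> ring)

theorem prodF_apply (B B' : W →ₗ[ℚ] W →ₗ[ℚ] ℚ) (v : Fin 2 × Fin 2 → W) :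
    prodF B B' v = B (v (0, 0)) (v (0, 1)) * B' (v (1, 0)) (v (1, 1)) := rfl

variable {ν : Type} [Fintype ν] [DecidableEq ν]

/-- the pairing of forms -/
def pr (b b' : ν → W) : MultilinearMap ℚ (fun _ : Fin 2 × Fin 2 => W) ℚ →ₗ[ℚ]
    MultilinearMap ℚ (fun _ : Fin 2 × Fin 2 => W) ℚ →ₗ[ℚ] ℚ :=
  LinearMap.mk₂ ℚ (fun φ ψ => ∑ I : Fin 2 × Fin 2 → ν, φ (b ∘ I) * ψ (b' ∘ I))
    (fun φ φ' ψ => by
      rw [← Finset.sum_add_distrib]
      refine Finset.sum_congr rfl fun I _ => ?_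
      rw [MultilinearMap.add_apply, add_mul])
    (fun c φ ψ => by
      rw [Finset.smul_sum]
      refine Finset.sum_congr rfl fun I _ => ?_
      rw [MultilinearMap.smul_apply, smul_mul_assoc])
    (fun φ ψ ψ' => by
      rw [← Finset.sum_add_distrib]
      refine Finset.sum_congr rfl fun I _ => ?_
      rw [MultilinearMap.add_apply, mul_add])
    (fun c φ ψ => by
      rw [Finset.smul_sum]
      refine Finset.sum_congr rfl fun I _ => ?_
      rw [MultilinearMap.smul_apply, mul_smul_comm])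

theorem pr_apply (b b' : ν → W) (φ ψ : MultilinearMap ℚ (fun _ : Fin 2 × Fin 2 => W) ℚ) :
    pr b b' φ ψ = ∑ I : Fin 2 × Fin 2 → ν, φ (b ∘ I) * ψ (b' ∘ I) := rfl

theorem pr_perm (b b' : ν → W) (φ : AlternatingMap ℚ W ℚ (Fin 2 × Fin 2))
    (ψ : MultilinearMap ℚ (fun _ : Fin 2 × Fin 2 => W) ℚ) (σ : Equiv.Perm (Fin 2 × Fin 2)) :
    pr b b' φ.toMultilinearMap (ψ.domDomCongr σ) =
      (Equiv.Perm.sign σ : ℤ) * pr b b' φ.toMultilinearMap ψ := by
  rw [pr_apply, pr_apply, Finset.mul_sum]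
  refine Fintype.sum_equiv (Equiv.arrowCongr σ.symm (Equiv.refl ν)) _ _ fun I => ?_
  have e1 : (Equiv.arrowCongr σ.symm (Equiv.refl ν)) I = I ∘ σ := by
    funext p
    rfl
  have h1 : φ.toMultilinearMap (b ∘ I ∘ σ) = (Equiv.Perm.sign σ : ℤ) * φ.toMultilinearMap (b ∘ I) := by
    have h2 := φ.map_perm (b ∘ I) σ
    rw [Units.smul_def, zsmul_eq_mul] at h2
    exact h2
  have h3 : ((Equiv.Perm.sign σ : ℤ) : ℚ) * ((Equiv.Perm.sign σ : ℤ) : ℚ) = 1 := by
    rw [← Int.cast_mul, Int.units_coe_mul_self, Int.cast_one]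
  rw [e1, h1]
  change φ.toMultilinearMap (b ∘ I) * ψ (fun p => (b' ∘ I) (σ p)) =
    ((Equiv.Perm.sign σ : ℤ) : ℚ) * (((Equiv.Perm.sign σ : ℤ) : ℚ) * φ.toMultilinearMap (b ∘ I) *
      ψ (b' ∘ I ∘ σ))
  have e2 : (fun p => (b' ∘ I) (σ p)) = b' ∘ I ∘ σ := rfl
  rw [e2]
  linear_combination (-(φ.toMultilinearMap (b ∘ I) * ψ (b' ∘ I ∘ σ))) * h3

theorem alt_eq (ψ : MultilinearMap ℚ (fun _ : Fin 2 × Fin 2 => W) ℚ) :
    (MultilinearMap.alternatization ψ).toMultilinearMap =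
      ∑ σ : Equiv.Perm (Fin 2 × Fin 2), ((Equiv.Perm.sign σ : ℤ) : ℚ) • ψ.domDomCongr σ := by
  ext v
  rw [MultilinearMap.sum_apply]
  have h := MultilinearMap.alternatization_apply ψ v
  refine h.trans (Finset.sum_congr rfl fun σ _ => ?_)
  rw [MultilinearMap.smul_apply, Units.smul_def, zsmul_eq_mul, smul_eq_mul]

theorem pr_alt (b b' : ν → W) (φ : AlternatingMap ℚ W ℚ (Fin 2 × Fin 2))
    (ψ : MultilinearMap ℚ (fun _ : Fin 2 × Fin 2 => W) ℚ) :
    pr b b' φ.toMultilinearMap (MultilinearMap.alternatization ψ).toMultilinearMap =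
      24 * pr b b' φ.toMultilinearMap ψ := by
  rw [alt_eq, map_sum]
  have h1 : ∀ σ : Equiv.Perm (Fin 2 × Fin 2), pr b b' φ.toMultilinearMap
      (((Equiv.Perm.sign σ : ℤ) : ℚ) • ψ.domDomCongr σ) = pr b b' φ.toMultilinearMap ψ := by
    intro σ
    have h3 : ((Equiv.Perm.sign σ : ℤ) : ℚ) * ((Equiv.Perm.sign σ : ℤ) : ℚ) = 1 := by
      rw [← Int.cast_mul, Int.units_coe_mul_self, Int.cast_one]
    rw [map_smul, pr_perm, smul_eq_mul, ← mul_assoc, h3, one_mul]
  simp only [h1]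
  rw [Finset.sum_const, Finset.card_univ, Fintype.card_perm, Fintype.card_prod, Fintype.card_fin,
    nsmul_eq_mul]
  norm_num [Nat.factorial]

/-- the indices -/
def eqv : (Fin 2 × Fin 2 → ν) ≃ ν × ν × ν × ν where
  toFun I := (I (0, 0), I (0, 1), I (1, 0), I (1, 1))
  invFun p := vec p.1 p.2.1 p.2.2.1 p.2.2.2
  left_inv I := vec_eta I
  right_inv p := rfl

theorem sum_vec (f : (Fin 2 × Fin 2 → ν) → ℚ) :
    ∑ I, f I = ∑ i, ∑ j, ∑ k, ∑ l, f (vec i j k l) := by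
  rw [Fintype.sum_equiv eqv f (fun p => f (vec p.1 p.2.1 p.2.2.1 p.2.2.2))
    (fun I => congrArg f (vec_eta I).symm)]
  rw [Fintype.sum_prod_type]
  refine Finset.sum_congr rfl fun i _ => ?_
  rw [Fintype.sum_prod_type]
  refine Finset.sum_congr rfl fun j _ => ?_
  rw [Fintype.sum_prod_type]

variable {θ : W →ₗ[ℚ] W →ₗ[ℚ] ℚ} {b : Basis ν ℚ W} {b' : ν → W} (F : Fr θ b b')

include F in
theorem pr_prod (φ : MultilinearMap ℚ (fun _ : Fin 2 × Fin 2 => W) ℚ) (X Y : Module.End ℚ W) :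
    pr b b' φ (prodF (θ.comp X) (θ.comp Y)) =
      ∑ i, ∑ k, nest φ (b i) (X (b' i)) (b k) (Y (b' k)) := by
  rw [pr_apply, sum_vec]
  refine Finset.sum_congr rfl fun i _ => ?_
  have h1 : ∀ j k l, φ (b ∘ vec i j k l) * prodF (θ.comp X) (θ.comp Y) (b' ∘ vec i j k l) =
      θ (X (b' i)) (b' j) * (θ (Y (b' k)) (b' l) * nest φ (b i) (b j) (b k) (b l)) := by
    intro j k l
    rw [prodF_apply, nest_apply]
    have e1 : (b : ν → W) ∘ vec i j k l = vec (b i) (b j) (b k) (b l) := vec_map b i j k l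
    rw [e1]
    change _ * (θ (X (b' i)) (b' j) * θ (Y (b' k)) (b' l)) = _
    ring
  simp only [h1]
  have h2 : ∀ j k, ∑ l, θ (X (b' i)) (b' j) * (θ (Y (b' k)) (b' l) *
      nest φ (b i) (b j) (b k) (b l)) =
      θ (X (b' i)) (b' j) * -nest φ (b i) (b j) (b k) (Y (b' k)) := by
    intro j k
    rw [← Finset.mul_sum]
    congr 1
    exact F.s2 (nest φ (b i) (b j) (b k)) (Y (b' k))
  simp only [h2]
  rw [Finset.sum_comm]
  refine Finset.sum_congr rfl fun k _ => ?_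
  have h3 := F.s2 (((nest φ (b i)).flip (b k)).flip (Y (b' k))) (X (b' i))
  simp only [LinearMap.flip_apply, smul_eq_mul] at h3
  simp only [mul_neg, Finset.sum_neg_distrib]
  rw [h3, neg_neg]

include F in
/-- the pairing of an alternating form with a product -/
theorem pr_prod' (φ : AlternatingMap ℚ W ℚ (Fin 2 × Fin 2)) {X Y : Module.End ℚ W}
    (hX : IsSym θ X) (hY : IsSym θ Y) :
    pr b b' φ.toMultilinearMap (prodF (θ.comp X) (θ.comp Y)) =
      -LinearMap.trace ℚ W (T4 (nest φ.toMultilinearMap) b b' X * Y) := by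
  rw [pr_prod F, ← phi_eq F (nest_alt φ)]
  rw [Finset.sum_comm]
  have h1 : ∀ k, ∑ i, nest φ.toMultilinearMap (b i) (X (b' i)) (b k) (Y (b' k)) =
      ∑ i, nest φ.toMultilinearMap (X (b i)) (b' i) (b k) (Y (b' k)) := fun k =>
    (F.adj_sym (ev4 (nest φ.toMultilinearMap) (b k) (Y (b' k))) hX).symm
  simp only [h1]
  rw [Finset.sum_comm]
  rw [Finset.sum_comm (f := fun j i => nest φ.toMultilinearMap (X (b i)) (b' i) (Y (b j)) (b' j))]
  refine Finset.sum_congr rfl fun i _ => ?_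
  exact (F.adj_sym (nest φ.toMultilinearMap (X (b i)) (b' i)) hY).symm

end Gen

end Pool.Agent.Q66
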