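import Pool.Agent.Q66.C17
import Pool.Agent.Y102.AV12

set_option autoImplicit false
set_option linter.unusedSectionVars false
set_option linter.unusedVariables false
set_option linter.unusedSimpArgs false

/-!
# Alternating de Rham-Betti classes of degree four on abelian varieties of dimension four
-/

open Module TensorProduct Pool.Agent.H204R3.SP Pool.Agent.W516.DR Pool.Agent.Y102
  Pool.Agent.W516.KC Pool.Agent.H204R3.GP

noncomputable section

namespace Pool.Agent.Q66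

section

variable {g : ℕ} {A : AbVar g}

theorem finrankC (A : AbVar 4) : finrank ℂ (ℂ ⊗[ℚ] A.H1) = 8 := by
  rw [Module.finrank_baseChange, A.finrank_H1, Fintype.card_fin]

/-- the products of the forms given by the endomorphisms are killed -/
theorem lef_killed {ψ : MultilinearMap ℚ (fun _ : Fin 2 × Fin 2 => A.H1) ℚ}
    (h : ψ ∈ AbVar.LefProd A A.EA 2) {X : Module.End ℚ A.H1} (hX : X ∈ A.LA) : Kills X ψ := by
  obtain ⟨σ, Q, hQ, hψ⟩ := h
  choose b hb using fun l => A.lef_drb (hQ l)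
  refine A.kills_of_mem (m := 2) ?_ hX
  have h1 := Compat.prod (F := A.dR) (t := tau) σ (fun l => A.om.comp (Q l)) b hb ψ hψ
  refine ⟨fun J => ∏ l, b l (J (σ (l, 0))) (J (σ (l, 1))), fun v => ?_⟩
  have h2 := h1 v
  rw [zpow_natCast] at h2
  exact h2

variable {ν : Type} [Fintype ν] [DecidableEq ν] {b : Basis ν ℚ A.H1} {b' : ν → A.H1}

theorem mem_EA_of_T4 (F : Fr A.om b b') {φ : MultilinearMap ℚ (fun _ : Fin 2 × Fin 2 => A.H1) ℚ}
    (ha : Alt4 (nest φ)) (hφ : ∀ X ∈ A.LA, Kills X φ) {z : Module.End ℚ A.H1} (hz : z ∈ A.EA) :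
    T4 (nest φ) b b' z ∈ A.EA := by
  intro X hX
  have hs : IsSk A.om X := fun u v => by
    have := A.LA_skew hX u v
    linear_combination this
  have h1 := T4_br F ha hs (nest_kill (hφ X hX)) z
  rw [hz X hX, sub_self, map_zero] at h1
  exact (sub_eq_zero.1 h1.symm)

theorem T4_cx (F : Fr A.om b b') {φ : MultilinearMap ℚ (fun _ : Fin 2 × Fin 2 => A.H1) ℚ}
    (h0 : ∀ z ∈ A.EA, T4 (nest φ) b b' z = 0) {X : Module.End ℂ (ℂ ⊗[ℚ] A.H1)}
    (hX : X ∈ cx A.EA) : T4 (nestC b φ) (b.baseChange ℂ) (fun i => ic (b' i)) X = 0 := by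
  induction hX using Submodule.span_induction with
  | mem x hx =>
    obtain ⟨P, hP, rfl⟩ := hx
    exact T4C F (h0 P hP)
  | zero => rw [map_zero]
  | add x y _ _ hx hy => rw [map_add, hx, hy, add_zero]
  | smul c x _ hx => rw [map_smul, hx, smul_zero]

theorem mem_cx_of_comm {X : Module.End ℂ (ℂ ⊗[ℚ] A.H1)}
    (h : ∀ Y ∈ A.LA, X * Y.baseChange ℂ = Y.baseChange ℂ * X) : X ∈ cx A.EA ∧
      ∀ lam, Pool.Agent.W516.DR.cmpE lam X ∈ A.EA := by
  have h1 : ∀ lam, Pool.Agent.W516.DR.cmpE lam X ∈ A.EA := fun lam Y hY =>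
    (((comm_iff Y X).2 (h Y hY)) lam).symm
  exact ⟨end_mem_span _ X h1, h1⟩

end

/-- **Vanishing.** -/
theorem AllSym.zero {A : AbVar 4} (h : AllSym A) {ν : Type} [Fintype ν] [DecidableEq ν]
    {e : Basis ν ℚ A.H1} {inv : ν → ν} {jj : ν → ℚ} (hi : ∀ x, inv (inv x) = x)
    (hn : ∀ x, inv x ≠ x) (hj : ∀ x, jj (inv x) = -jj x) (hj1 : ∀ x, jj x = 1 ∨ jj x = -1)
    (hθ : ∀ x y, A.om (e x) (e y) = JJ inv jj x y)
    (F : Fr A.om e (fun x => jj (inv x) • e (inv x)))
    {φ : MultilinearMap ℚ (fun _ : Fin 2 × Fin 2 => A.H1) ℚ} (ha : Alt4 (nest φ))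
    (hφ : ∀ X ∈ A.LA, Kills X φ)
    (h0 : ∀ z ∈ A.EA, T4 (nest φ) e (fun x => jj (inv x) • e (inv x)) z = 0) : φ = 0 := by
  have htr : LinearMap.trace ℚ A.H1 1 = 8 := by
    rw [LinearMap.trace_one, A.finrank_H1, Fintype.card_fin]
    norm_num
  have hP : Prim A.om (nest φ) :=
    prim_of_contr e inv jj hi hj hj1 hθ F ha (h0 1 A.EA_one) htr
  refine nest_eq_zero e ?_
  refine core (𝔥 := {X | ∃ Y ∈ A.LA, X = Y.baseChange ℂ}) (frC F) (finrankC A) (nestC_alt e ha)
    (primC e hP) ?_ ?_ h.noIso ?_ ?_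
  · rintro _ ⟨Y, hY, rfl⟩ u v
    have h1 := skew_ext (F := ℚ) (k := ℂ) A.om (thC A.om) (thC_ic' A.om) (A.LA_skew hY) u v
    linear_combination h1
  · rintro _ ⟨Y, hY, rfl⟩
    exact nestC_kill e (hφ Y hY)
  · intro X hX
    have h1 := mem_cx_of_comm (X := X) fun Y hY => hX _ ⟨Y, hY, rfl⟩
    exact sym_of_cmp (F := ℚ) (k := ℂ) A.om (thC A.om) (thC_ic' A.om)
      fun lam u v => h _ (h1.2 lam) u v
  · intro X hX
    have h1 := mem_cx_of_comm (X := X) fun Y hY => hX _ ⟨Y, hY, rfl⟩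
    exact T4_cx F h0 h1.1

/-- the space of the forms considered -/
def Om (A : AbVar 4) : Submodule ℚ (MultilinearMap ℚ (fun _ : Fin 2 × Fin 2 => A.H1) ℚ) where
  carrier := {φ | (∃ α : AlternatingMap ℚ A.H1 ℚ (Fin 2 × Fin 2), α.toMultilinearMap = φ) ∧
    ∀ X ∈ A.LA, Kills X φ}
  zero_mem' := ⟨⟨0, rfl⟩, fun X _ v => by simp⟩
  add_mem' := by
    rintro _ _ ⟨⟨α, rfl⟩, h1⟩ ⟨⟨β, rfl⟩, h2⟩
    refine ⟨⟨α + β, rfl⟩, fun X hX v => ?_⟩
    have h3 := h1 X hX v
    have h4 := h2 X hX v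
    simp only [MultilinearMap.add_apply, Finset.sum_add_distrib, h3, h4, add_zero]
  smul_mem' := by
    rintro c _ ⟨⟨α, rfl⟩, h1⟩
    refine ⟨⟨c • α, rfl⟩, fun X hX v => ?_⟩
    have h3 := h1 X hX v
    simp only [MultilinearMap.smul_apply, ← Finset.smul_sum, h3, smul_zero]

/-- the alternating product of two bilinear forms -/
def cup (A : AbVar 4) (B B' : A.H1 →ₗ[ℚ] A.H1 →ₗ[ℚ] ℚ) :
    AlternatingMap ℚ A.H1 ℚ (Fin 2 × Fin 2) := MultilinearMap.alternatization (prodF B B')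

/-- the forms which are combinations of products -/
def Lef (A : AbVar 4) : Submodule ℚ (MultilinearMap ℚ (fun _ : Fin 2 × Fin 2 => A.H1) ℚ) :=
  Submodule.span ℚ {ψ | ∃ z ∈ A.EA, ∃ z' ∈ A.EA,
    ψ = (cup A (A.om.comp z) (A.om.comp z')).toMultilinearMap}

theorem cup_Om (A : AbVar 4) {z z' : Module.End ℚ A.H1} (hz : z ∈ A.EA)
    (hz' : z' ∈ A.EA) : (cup A (A.om.comp z) (A.om.comp z')).toMultilinearMap ∈ Om A := by
  have h1 : (MultilinearMap.alternatization
      (prodF (A.om.comp z) (A.om.comp z'))).toMultilinearMap ∈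
      Submodule.span ℚ (AbVar.LefProd A A.EA 2) := by
    rw [alt_eq]
    refine Submodule.sum_mem _ fun σ _ => Submodule.smul_mem _ _ (Submodule.subset_span ?_)
    refine ⟨σ, ![z, z'], fun l => ?_, fun v => ?_⟩
    · fin_cases l
      · exact hz
      · exact hz'
    · rw [Fin.prod_univ_two]
      rfl
  refine ⟨⟨_, rfl⟩, fun X hX => ?_⟩
  have hK : Submodule.span ℚ (AbVar.LefProd A A.EA 2) ≤
      { carrier := {ψ | Kills X ψ}
        zero_mem' := fun v => by simp
        add_mem' := fun {a b} ha hb v => by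
          have h3 := ha v
          have h4 := hb v
          simp only [MultilinearMap.add_apply, Finset.sum_add_distrib, h3, h4, add_zero]
        smul_mem' := fun c a ha v => by
          have h3 := ha v
          simp only [MultilinearMap.smul_apply, ← Finset.smul_sum, h3, smul_zero] } := by
    rw [Submodule.span_le]
    intro ψ hψ
    exact lef_killed hψ hX
  exact hK h1

/-- **Main theorem.** -/
theorem AllSym.main {A : AbVar 4} (h : AllSym A) : Om A = Lef A := by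
  classical
  obtain ⟨ν, i1, i2, e, inv, jj, hi, hn, hj, hj1, hθ⟩ :=
    Pool.Agent.W437.HD.exists_darboux (k := ℚ) (finrank ℚ A.H1) A.H1 A.om
      (fun v => by
        have h1 := A.om_anti v v
        linarith) (fun u hu => A.om_nondeg fun v => by rw [A.om_anti, hu, neg_zero]) le_rfl
  have F : Fr A.om e (fun x => jj (inv x) • e (inv x)) := by
    refine ⟨A.om_anti, fun i j => ?_⟩
    rw [map_smul, LinearMap.smul_apply, hθ, JJ, hi, smul_eq_mul]
    by_cases hij : j = i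
    · subst hij
      rw [if_pos rfl, if_pos rfl]
      rcases hj1 (inv j) with h1 | h1 <;> rw [h1] <;> norm_num
    · rw [if_neg hij, if_neg (Ne.symm hij), mul_zero]
  have hle : Lef A ≤ Om A := by
    refine Submodule.span_le.2 ?_
    rintro _ ⟨z, hz, z', hz', rfl⟩
    exact cup_Om A hz hz'
  symm
  refine Submodule.eq_of_le_of_finrank_le hle ?_
  let Φ : Om A →ₗ[ℚ] Module.Dual ℚ (Lef A) :=
    { toFun := fun ω => (pr e (fun x => jj (inv x) • e (inv x)) ω.1).comp (Lef A).subtype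
      map_add' := fun x y => by
        ext z
        simp
      map_smul' := fun c x => by
        ext z
        simp }
  have hinj : Function.Injective Φ := by
    rw [injective_iff_map_eq_zero]
    rintro ⟨ω, ⟨α, rfl⟩, hω⟩ h0
    refine Subtype.ext ?_
    change α.toMultilinearMap = 0
    have ha := nest_alt α
    refine h.zero hi hn hj hj1 hθ F ha hω fun z hz => ?_
    have h1 := mem_EA_of_T4 F ha hω hz
    refine h.nondeg h1 ?_
    have h2 : pr e (fun x => jj (inv x) • e (inv x)) α.toMultilinearMap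
        (MultilinearMap.alternatization (prodF (A.om.comp z) (A.om.comp
          (T4 (nest α.toMultilinearMap) e (fun x => jj (inv x) • e (inv x)) z)))).toMultilinearMap =
        0 := congrArg (fun f : Module.Dual ℚ (Lef A) =>
          f ⟨_, Submodule.subset_span ⟨z, hz, _, h1, rfl⟩⟩) h0
    rw [pr_alt, pr_prod' F α (fun u v => h _ hz u v) (fun u v => h _ h1 u v)] at h2
    linarith
  calc finrank ℚ (Om A) ≤ finrank ℚ (Module.Dual ℚ (Lef A)) :=
        LinearMap.finrank_le_finrank_of_injective hinj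
    _ = finrank ℚ (Lef A) := Subspace.dual_finrank_eq

/-- **Alternating de Rham-Betti classes of degree four.** -/
theorem AllSym.final {A : AbVar 4} (h : AllSym A) (φ : AlternatingMap ℚ A.H1 ℚ (Fin 2 × Fin 2))
    (hφ : IsDeRhamBettiForm QBar A.dR tau 2 φ.toMultilinearMap) :
    φ ∈ Submodule.span ℚ {ψ : AlternatingMap ℚ A.H1 ℚ (Fin 2 × Fin 2) |
      ∃ B B' : A.H1 →ₗ[ℚ] A.H1 →ₗ[ℚ] ℚ, ((∀ u, B u u = 0) ∧
        IsHodgeBilinear (A.per : A.H1 →+ (Fin 4 → ℂ)) B) ∧ ((∀ u, B' u u = 0) ∧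
        IsHodgeBilinear (A.per : A.H1 →+ (Fin 4 → ℂ)) B') ∧ ψ = cup A B B'} := by
  have h1 : φ.toMultilinearMap ∈ Om A := ⟨⟨φ, rfl⟩, fun X hX => A.kills_of_mem hφ hX⟩
  rw [h.main] at h1
  let L : AlternatingMap ℚ A.H1 ℚ (Fin 2 × Fin 2) →ₗ[ℚ]
      MultilinearMap ℚ (fun _ : Fin 2 × Fin 2 => A.H1) ℚ :=
    { toFun := fun f => f.toMultilinearMap
      map_add' := fun _ _ => rfl
      map_smul' := fun _ _ => rfl }
  have hdiv : ∀ z ∈ A.EA, (∀ u, (A.om.comp z) u u = 0) ∧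
      IsHodgeBilinear (A.per : A.H1 →+ (Fin 4 → ℂ)) (A.om.comp z) := by
    intro z hz
    refine ⟨fun u => ?_, ?_⟩
    · have h2 := h z hz u u
      have h3 := A.om_anti (z u) u
      rw [← h2] at h3
      rw [LinearMap.comp_apply]
      linarith
    · obtain ⟨P', hP'⟩ := A.hodge_end (A.mem_EA.1 hz)
      refine ⟨A.E.comp (P'.restrictScalars ℝ), fun x y => ?_, fun c hc u v => ?_⟩
      · have h1 : P' (A.per x) = A.per (z x) := hP' x
        rw [LinearMap.comp_apply, LinearMap.comp_apply, LinearMap.restrictScalars_apply]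
        change A.E (P' (A.per x)) (A.per y) = _
        rw [h1, ← AbVar.om_coe]
      · rw [LinearMap.comp_apply, LinearMap.comp_apply, LinearMap.restrictScalars_apply,
          LinearMap.restrictScalars_apply, P'.map_smul, A.E_unit c hc]
  have h2 : Lef A ≤ Submodule.map L (Submodule.span ℚ
      {ψ : AlternatingMap ℚ A.H1 ℚ (Fin 2 × Fin 2) |
      ∃ B B' : A.H1 →ₗ[ℚ] A.H1 →ₗ[ℚ] ℚ, ((∀ u, B u u = 0) ∧
        IsHodgeBilinear (A.per : A.H1 →+ (Fin 4 → ℂ)) B) ∧ ((∀ u, B' u u = 0) ∧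
        IsHodgeBilinear (A.per : A.H1 →+ (Fin 4 → ℂ)) B') ∧ ψ = cup A B B'}) := by
    refine Submodule.span_le.2 ?_
    rintro _ ⟨z, hz, z', hz', rfl⟩
    exact ⟨_, Submodule.subset_span ⟨_, _, hdiv z hz, hdiv z' hz', rfl⟩, rfl⟩
  obtain ⟨ψ, hψ, he⟩ := h2 h1
  have h3 : ψ = φ := by
    ext v
    exact congrArg (fun F : MultilinearMap ℚ (fun _ : Fin 2 × Fin 2 => A.H1) ℚ => F v) he
  rwa [← h3]

end Pool.Agent.Q66
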