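import Pool.Agent.Q66.C1

set_option autoImplicit false
set_option linter.unusedSectionVars false

/-!
# The operator attached to an alternating form of degree four
-/

open Module

noncomputable section

namespace Pool.Agent.Q66

variable {k V : Type*} [Field k] [CharZero k] [AddCommGroup V] [Module k V]
variable {ι : Type*} [Fintype ι] [DecidableEq ι]

/-- Alternating forms of degree four. -/
structure Alt4 (ω : V →ₗ[k] V →ₗ[k] V →ₗ[k] V →ₗ[k] k) : Prop where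
  s12 : ∀ a b c d, ω a b c d = -ω b a c d
  s23 : ∀ a b c d, ω a b c d = -ω a c b d
  s34 : ∀ a b c d, ω a b c d = -ω a b d c

/-- `h` annihilates `ω`. -/
def Kill4 (ω : V →ₗ[k] V →ₗ[k] V →ₗ[k] V →ₗ[k] k) (h : Module.End k V) : Prop :=
  ∀ a b c d, ω (h a) b c d + ω a (h b) c d + ω a b (h c) d + ω a b c (h d) = 0

/-- evaluation in the last two arguments -/
def ev4 (ω : V →ₗ[k] V →ₗ[k] V →ₗ[k] V →ₗ[k] k) (u v : V) : V →ₗ[k] V →ₗ[k] k :=
  LinearMap.mk₂ k (fun x y => ω x y u v) (fun _ _ _ => by simp) (fun _ _ _ => by simp)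
    (fun _ _ _ => by simp) (fun _ _ _ => by simp)

theorem ev4_apply (ω : V →ₗ[k] V →ₗ[k] V →ₗ[k] V →ₗ[k] k) (u v x y : V) :
    ev4 ω u v x y = ω x y u v := rfl

/-- the contraction of `ω` with an operator -/
def S4 (ω : V →ₗ[k] V →ₗ[k] V →ₗ[k] V →ₗ[k] k) (b : Basis ι k V) (b' : ι → V)
    (X : Module.End k V) : V →ₗ[k] V →ₗ[k] k := ∑ i, ω (X (b i)) (b' i)

theorem S4_apply (ω : V →ₗ[k] V →ₗ[k] V →ₗ[k] V →ₗ[k] k) (b : Basis ι k V) (b' : ι → V)
    (X : Module.End k V) (u v : V) : S4 ω b b' X u v = ∑ i, ω (X (b i)) (b' i) u v := by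
  simp [S4, LinearMap.sum_apply]

/-- the operator of contraction with `ω` -/
def T4 (ω : V →ₗ[k] V →ₗ[k] V →ₗ[k] V →ₗ[k] k) (b : Basis ι k V) (b' : ι → V) :
    Module.End k V →ₗ[k] Module.End k V where
  toFun X := ∑ j, ((S4 ω b b' X).flip (b j)).smulRight (b' j)
  map_add' X Y := by
    rw [← Finset.sum_add_distrib]
    refine Finset.sum_congr rfl fun j _ => LinearMap.ext fun u => ?_
    simp only [LinearMap.add_apply, LinearMap.smulRight_apply, LinearMap.flip_apply, S4_apply,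
      map_add, Finset.sum_add_distrib, add_smul]
  map_smul' c X := by
    rw [RingHom.id_apply, Finset.smul_sum]
    refine Finset.sum_congr rfl fun j _ => LinearMap.ext fun u => ?_
    simp only [LinearMap.smul_apply, LinearMap.smulRight_apply, LinearMap.flip_apply, S4_apply,
      map_smul, smul_eq_mul, ← Finset.mul_sum, mul_smul]

section

variable {θ : V →ₗ[k] V →ₗ[k] k} {b : Basis ι k V} {b' : ι → V} (F : Fr θ b b')
variable {ω : V →ₗ[k] V →ₗ[k] V →ₗ[k] V →ₗ[k] k} (hω : Alt4 ω)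

include F in
theorem T4_spec (X : Module.End k V) (u v : V) : θ (T4 ω b b' X u) v = S4 ω b b' X u v := by
  unfold T4
  simp only [LinearMap.coe_mk, AddHom.coe_mk, LinearMap.sum_apply, LinearMap.smulRight_apply,
    LinearMap.flip_apply, map_sum, map_smul, LinearMap.smul_apply, smul_eq_mul]
  conv_rhs => rw [← F.exp v]
  simp only [map_sum, map_smul, smul_eq_mul]
  exact Finset.sum_congr rfl fun i _ => mul_comm _ _

include hω

theorem Alt4.swap (a b c d : V) : ω a b c d = ω c d a b := by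
  rw [hω.s23 a b, hω.s12 a c, hω.s34 c a, hω.s23 c a]
  ring

theorem Alt4.cyc (a b c d : V) : ω b c d a = -ω a b c d := by
  rw [hω.s34 b c, hω.s23 b c, hω.s12 b a]
  ring

theorem S4_anti (X : Module.End k V) (u v : V) : S4 ω b b' X u v = -S4 ω b b' X v u := by
  rw [S4_apply, S4_apply, ← Finset.sum_neg_distrib]
  exact Finset.sum_congr rfl fun i _ => hω.s34 _ _ _ _

/-- the contraction in the other arguments -/
theorem S4_right (X : Module.End k V) (u v : V) :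
    ∑ i, ω u v (X (b i)) (b' i) = S4 ω b b' X u v := by
  rw [S4_apply]
  exact Finset.sum_congr rfl fun i _ => hω.swap _ _ _ _

include F

theorem T4_sym (X : Module.End k V) : IsSym θ (T4 ω b b' X) := by
  intro u v
  rw [T4_spec F, F.anti u, T4_spec F, S4_anti hω]

theorem S4_adj {X Y : Module.End k V} (h : ∀ u v, θ (X u) v = θ u (Y v)) (u v : V) :
    S4 ω b b' X u v = S4 ω b b' Y u v := by
  have h1 := F.adj (ev4 ω u v) h
  have h2 := F.flip ((ev4 ω u v).comp Y)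
  simp only [LinearMap.comp_apply, ev4_apply] at h1 h2
  have h3 : ∑ i, ω (b i) (Y (b' i)) u v = -∑ i, ω (Y (b' i)) (b i) u v := by
    rw [← Finset.sum_neg_distrib]
    exact Finset.sum_congr rfl fun i _ => hω.s12 _ _ _ _
  rw [S4_apply, S4_apply, h1, h3, h2, neg_neg]

theorem T4_adj {X Y : Module.End k V} (h : ∀ u v, θ (X u) v = θ u (Y v)) :
    T4 ω b b' X = T4 ω b b' Y := by
  refine LinearMap.ext fun u => ?_
  rw [← sub_eq_zero]
  refine F.eq_zero fun v => ?_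
  rw [map_sub, LinearMap.sub_apply, T4_spec F, T4_spec F, S4_adj F hω h, sub_self]

theorem T4_sk {X : Module.End k V} (h : IsSk θ X) : T4 ω b b' X = 0 := by
  have h1 := T4_adj F hω (X := X) (Y := -X) (fun u v => by rw [h, LinearMap.neg_apply, map_neg])
  rw [map_neg] at h1
  have h2 : (2 : k) • T4 ω b b' X = 0 := by
    rw [two_smul]
    nth_rewrite 1 [h1]
    exact neg_add_cancel _
  exact (smul_eq_zero.1 h2).resolve_left two_ne_zero

/-- the full contraction of `ω` with two operators -/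
theorem phi_eq (X Y : Module.End k V) :
    ∑ j, ∑ i, ω (X (b i)) (b' i) (Y (b j)) (b' j) =
      -LinearMap.trace k V (T4 ω b b' X * Y) := by
  rw [← F.trace']
  refine Finset.sum_congr rfl fun j _ => ?_
  rw [Module.End.mul_apply, T4_spec F, S4_apply]

theorem phi_symm (X Y : Module.End k V) :
    LinearMap.trace k V (T4 ω b b' X * Y) = LinearMap.trace k V (X * T4 ω b b' Y) := by
  rw [LinearMap.trace_mul_comm k X, ← neg_inj, ← phi_eq F hω, ← phi_eq F hω, Finset.sum_comm]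
  exact Finset.sum_congr rfl fun i _ => Finset.sum_congr rfl fun j _ => hω.swap _ _ _ _

theorem T4_one_trace (h1 : T4 ω b b' 1 = 0) (X : Module.End k V) :
    LinearMap.trace k V (T4 ω b b' X) = 0 := by
  have h2 := phi_symm F hω X 1
  rw [mul_one, h1, mul_zero, map_zero] at h2
  exact h2

/-- equivariance -/
theorem T4_br {h : Module.End k V} (hh : IsSk θ h) (hk : Kill4 ω h) (X : Module.End k V) :
    T4 ω b b' (h * X - X * h) = h * T4 ω b b' X - T4 ω b b' X * h := by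
  refine LinearMap.ext fun u => ?_
  rw [← sub_eq_zero]
  refine F.eq_zero fun v => ?_
  rw [map_sub, LinearMap.sub_apply, T4_spec F, LinearMap.sub_apply, map_sub,
    LinearMap.sub_apply, Module.End.mul_apply, Module.End.mul_apply, hh, T4_spec F, T4_spec F,
    S4_apply, S4_apply, S4_apply]
  have h3 := F.adj_sk ((ev4 ω u v).comp X) hh
  simp only [LinearMap.comp_apply, ev4_apply] at h3
  have h5 : ∑ i, ω ((h * X - X * h) (b i)) (b' i) u v =
      ∑ i, ω (h (X (b i))) (b' i) u v - ∑ i, ω (X (h (b i))) (b' i) u v := by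
    rw [← Finset.sum_sub_distrib]
    refine Finset.sum_congr rfl fun i _ => ?_
    rw [LinearMap.sub_apply, Module.End.mul_apply, Module.End.mul_apply, ← ev4_apply,
      ← ev4_apply, ← ev4_apply, map_sub, LinearMap.sub_apply]
  rw [h5, h3]
  have h4 : ∑ i, (ω (h (X (b i))) (b' i) u v + ω (X (b i)) (h (b' i)) u v +
      ω (X (b i)) (b' i) (h u) v + ω (X (b i)) (b' i) u (h v)) = 0 :=
    Finset.sum_eq_zero fun i _ => hk _ _ _ _
  simp only [Finset.sum_add_distrib] at h4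
  linear_combination h4

/-- a form without contractions is zero -/
theorem eq_zero_of_T4 (h : ∀ X, IsSym θ X → T4 ω b b' X = 0) : ω = 0 := by
  ext p q r s
  let X : Module.End k V := (θ q).smulRight p
  let Y : Module.End k V := -(θ p).smulRight q
  have hXY : ∀ u v, θ (X u) v = θ u (Y v) := by
    intro u v
    simp only [X, Y, LinearMap.smulRight_apply, LinearMap.neg_apply, map_smul, map_neg,
      LinearMap.smul_apply, smul_eq_mul]
    rw [F.anti u q]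
    ring
  have hYX : ∀ u v, θ (Y u) v = θ u (X v) := by
    intro u v
    rw [F.anti, ← hXY, F.anti, neg_neg]
  have hs : IsSym θ (X + Y) := by
    intro u v
    rw [LinearMap.add_apply, map_add, LinearMap.add_apply, hXY, hYX, LinearMap.add_apply, map_add,
      add_comm]
  have h1 := h _ hs
  rw [map_add, ← T4_adj F hω hXY, ← two_smul k] at h1
  have h2 : T4 ω b b' X = 0 := (smul_eq_zero.1 h1).resolve_left two_ne_zero
  have h3 := T4_spec F (ω := ω) X r s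
  rw [h2, S4_apply] at h3
  simp only [X, LinearMap.smulRight_apply, map_smul, LinearMap.smul_apply,
    LinearMap.zero_apply, map_zero] at h3
  have h4 := F.s1 (((ω p).flip r).flip s) q
  simp only [LinearMap.flip_apply] at h4
  rw [h4] at h3
  simp [← h3]

/-- `θ ∧ ω = 0` -/
def Prim (θ : V →ₗ[k] V →ₗ[k] k) (ω : V →ₗ[k] V →ₗ[k] V →ₗ[k] V →ₗ[k] k) : Prop :=
  ∀ v₁ v₂ v₃ v₄ v₅ v₆, θ v₁ v₂ * ω v₃ v₄ v₅ v₆ - θ v₁ v₃ * ω v₂ v₄ v₅ v₆ + θ v₁ v₄ * ω v₂ v₃ v₅ v₆ -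
    θ v₁ v₅ * ω v₂ v₃ v₄ v₆ + θ v₁ v₆ * ω v₂ v₃ v₄ v₅ + θ v₂ v₃ * ω v₁ v₄ v₅ v₆ -
    θ v₂ v₄ * ω v₁ v₃ v₅ v₆ + θ v₂ v₅ * ω v₁ v₃ v₄ v₆ - θ v₂ v₆ * ω v₁ v₃ v₄ v₅ +
    θ v₃ v₄ * ω v₁ v₂ v₅ v₆ - θ v₃ v₅ * ω v₁ v₂ v₄ v₆ + θ v₃ v₆ * ω v₁ v₂ v₄ v₅ +
    θ v₄ v₅ * ω v₁ v₂ v₃ v₆ - θ v₄ v₆ * ω v₁ v₂ v₃ v₅ + θ v₅ v₆ * ω v₁ v₂ v₃ v₄ = 0

/-- the contraction of `θ ∧ ω` with a symmetric operator in the last two arguments -/
theorem contr {Z : Module.End k V} (hZ : IsSym θ Z) (v₁ v₂ v₃ v₄ : V) :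
    ∑ i, (θ v₁ v₂ * ω v₃ v₄ (Z (b i)) (b' i) - θ v₁ v₃ * ω v₂ v₄ (Z (b i)) (b' i) +
    θ v₁ v₄ * ω v₂ v₃ (Z (b i)) (b' i) -
    θ v₁ (Z (b i)) * ω v₂ v₃ v₄ (b' i) + θ v₁ (b' i) * ω v₂ v₃ v₄ (Z (b i)) +
    θ v₂ v₃ * ω v₁ v₄ (Z (b i)) (b' i) -
    θ v₂ v₄ * ω v₁ v₃ (Z (b i)) (b' i) + θ v₂ (Z (b i)) * ω v₁ v₃ v₄ (b' i) -
    θ v₂ (b' i) * ω v₁ v₃ v₄ (Z (b i)) +
    θ v₃ v₄ * ω v₁ v₂ (Z (b i)) (b' i) - θ v₃ (Z (b i)) * ω v₁ v₂ v₄ (b' i) +
    θ v₃ (b' i) * ω v₁ v₂ v₄ (Z (b i)) +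
    θ v₄ (Z (b i)) * ω v₁ v₂ v₃ (b' i) - θ v₄ (b' i) * ω v₁ v₂ v₃ (Z (b i)) +
    θ (Z (b i)) (b' i) * ω v₁ v₂ v₃ v₄) =
    2 * (ω (Z v₁) v₂ v₃ v₄ + ω v₁ (Z v₂) v₃ v₄ + ω v₁ v₂ (Z v₃) v₄ + ω v₁ v₂ v₃ (Z v₄)) +
    (θ v₁ v₂ * S4 ω b b' Z v₃ v₄ - θ v₁ v₃ * S4 ω b b' Z v₂ v₄ + θ v₁ v₄ * S4 ω b b' Z v₂ v₃ +
    θ v₂ v₃ * S4 ω b b' Z v₁ v₄ - θ v₂ v₄ * S4 ω b b' Z v₁ v₃ + θ v₃ v₄ * S4 ω b b' Z v₁ v₂) -
    LinearMap.trace k V Z * ω v₁ v₂ v₃ v₄ := by
  have e1 : ∀ u v w p : V, ∑ i, θ p (Z (b i)) * ω u v w (b' i) = ω u v w (Z p) := by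
    intro u v w p
    have h1 := F.s1 (ω u v w) (Z p)
    simp only [smul_eq_mul, hZ p] at h1
    exact h1
  have e2 : ∀ u v w p : V, ∑ i, θ p (b' i) * ω u v w (Z (b i)) = -ω u v w (Z p) := by
    intro u v w p
    have h1 := F.s2 ((ω u v w).comp Z) p
    simp only [smul_eq_mul, LinearMap.comp_apply] at h1
    exact h1
  simp only [Finset.sum_add_distrib, Finset.sum_sub_distrib, ← Finset.mul_sum, ← Finset.sum_mul,
    e1, e2, S4_right hω, F.trace']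
  rw [hω.cyc (Z v₁) v₂ v₃ v₄]
  have f2 : ω v₁ v₃ v₄ (Z v₂) = ω v₁ (Z v₂) v₃ v₄ := by
    rw [hω.s34 v₁ v₃, hω.s23 v₁ v₃]; ring
  have f3 : ω v₁ v₂ v₄ (Z v₃) = -ω v₁ v₂ (Z v₃) v₄ := hω.s34 _ _ _ _
  rw [f2, f3]
  ring

end

end Pool.Agent.Q66
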