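import Pool.Agent.Q66.C2

set_option autoImplicit false
set_option linter.unusedSectionVars false

/-!
# The derivation property
-/

open Module

noncomputable section

namespace Pool.Agent.Q66

variable {k V : Type*} [Field k] [CharZero k] [AddCommGroup V] [Module k V]
variable {ι : Type*} [Fintype ι] [DecidableEq ι]
variable {θ : V →ₗ[k] V →ₗ[k] k} {b : Basis ι k V} {b' : ι → V} (F : Fr θ b b')
variable {ω : V →ₗ[k] V →ₗ[k] V →ₗ[k] V →ₗ[k] k} (hω : Alt4 ω)

include F hω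

theorem keyA (hP : Prim θ ω) {Z : Module.End k V} (hZ : IsSym θ Z)
    (htr : LinearMap.trace k V Z = 0) (v₁ v₂ v₃ v₄ : V) :
    2 * (ω (Z v₁) v₂ v₃ v₄ + ω v₁ (Z v₂) v₃ v₄ + ω v₁ v₂ (Z v₃) v₄ + ω v₁ v₂ v₃ (Z v₄)) +
    (θ v₁ v₂ * S4 ω b b' Z v₃ v₄ - θ v₁ v₃ * S4 ω b b' Z v₂ v₄ + θ v₁ v₄ * S4 ω b b' Z v₂ v₃ +
    θ v₂ v₃ * S4 ω b b' Z v₁ v₄ - θ v₂ v₄ * S4 ω b b' Z v₁ v₃ + θ v₃ v₄ * S4 ω b b' Z v₁ v₂) = 0 := by
  have h1 := contr F hω hZ v₁ v₂ v₃ v₄
  rw [htr, zero_mul, sub_zero] at h1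
  rw [← h1]
  exact Finset.sum_eq_zero fun i _ => hP _ _ _ _ _ _

/-- The contraction with `ω` is a derivation for the cubic form. -/
theorem keyK (hP : Prim θ ω) {X Y Z : Module.End k V} (hX : IsSym θ X) (hY : IsSym θ Y)
    (hZ : IsSym θ Z) (tX : LinearMap.trace k V X = 0) (tY : LinearMap.trace k V Y = 0)
    (tZ : LinearMap.trace k V Z = 0) :
    LinearMap.trace k V (T4 ω b b' X * (Y * Z + Z * Y)) +
      LinearMap.trace k V (T4 ω b b' Y * (Z * X + X * Z)) +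
      LinearMap.trace k V (T4 ω b b' Z * (X * Y + Y * X)) = 0 := by
  set S := S4 ω b b' Z with hS
  set T := T4 ω b b' Z with hT
  have hTs : IsSym θ T := T4_sym F hω Z
  have hST : ∀ u v, S u v = θ (T u) v := fun u v => (T4_spec F Z u v).symm
  have h0 : ∑ j, ∑ i, (2 * (ω (Z (X (b i))) (b' i) (Y (b j)) (b' j) +
      ω (X (b i)) (Z (b' i)) (Y (b j)) (b' j) + ω (X (b i)) (b' i) (Z (Y (b j))) (b' j) +
      ω (X (b i)) (b' i) (Y (b j)) (Z (b' j))) +
      (θ (X (b i)) (b' i) * S (Y (b j)) (b' j) - θ (X (b i)) (Y (b j)) * S (b' i) (b' j) +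
      θ (X (b i)) (b' j) * S (b' i) (Y (b j)) + θ (b' i) (Y (b j)) * S (X (b i)) (b' j) -
      θ (b' i) (b' j) * S (X (b i)) (Y (b j)) + θ (Y (b j)) (b' j) * S (X (b i)) (b' i))) = 0 :=
    Finset.sum_eq_zero fun j _ => Finset.sum_eq_zero fun i _ => keyA F hω hP hZ tZ _ _ _ _
  -- the terms with `ω`
  have a1 : ∑ j, ∑ i, ω (Z (X (b i))) (b' i) (Y (b j)) (b' j) =
      -LinearMap.trace k V (T4 ω b b' Y * (Z * X)) := by
    have := phi_eq F hω (Z * X) Y
    simp only [Module.End.mul_apply] at this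
    rw [this, phi_symm F hω, LinearMap.trace_mul_comm]
  have a2 : ∑ j, ∑ i, ω (X (b i)) (Z (b' i)) (Y (b j)) (b' j) =
      -LinearMap.trace k V (T4 ω b b' Y * (X * Z)) := by
    have := phi_eq F hω (X * Z) Y
    simp only [Module.End.mul_apply] at this
    rw [LinearMap.trace_mul_comm, ← phi_symm F hω, ← this]
    refine Finset.sum_congr rfl fun j _ => ?_
    exact (F.adj_sym ((ev4 ω (Y (b j)) (b' j)).comp X) hZ).symm
  have a3 : ∑ j, ∑ i, ω (X (b i)) (b' i) (Z (Y (b j))) (b' j) =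
      -LinearMap.trace k V (T4 ω b b' X * (Z * Y)) := phi_eq F hω X (Z * Y)
  have a4 : ∑ j, ∑ i, ω (X (b i)) (b' i) (Y (b j)) (Z (b' j)) =
      -LinearMap.trace k V (T4 ω b b' X * (Y * Z)) := by
    rw [← phi_eq F hω X (Y * Z), Finset.sum_comm, Finset.sum_comm (f := fun j i =>
      ω (X (b i)) (b' i) ((Y * Z) (b j)) (b' j))]
    refine Finset.sum_congr rfl fun i _ => ?_
    exact (F.adj_sym ((ω (X (b i)) (b' i)).comp Y) hZ).symm
  -- the terms with `S`
  have c1 : ∑ j, ∑ i, θ (X (b i)) (b' i) * S (Y (b j)) (b' j) = 0 := by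
    refine Finset.sum_eq_zero fun j _ => ?_
    rw [← Finset.sum_mul, F.trace', tX, neg_zero, zero_mul]
  have c6 : ∑ j, ∑ i, θ (Y (b j)) (b' j) * S (X (b i)) (b' i) = 0 := by
    rw [Finset.sum_comm]
    refine Finset.sum_eq_zero fun j _ => ?_
    rw [← Finset.sum_mul, F.trace', tY, neg_zero, zero_mul]
  have c2 : ∑ j, ∑ i, θ (X (b i)) (Y (b j)) * S (b' i) (b' j) =
      LinearMap.trace k V (T * (Y * X)) := by
    rw [Finset.sum_comm, F.trace]
    refine Finset.sum_congr rfl fun i _ => ?_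
    have h1 := F.s1 (S (b' i)) (Y (X (b i)))
    simp only [smul_eq_mul, hY (X (b i))] at h1
    rw [h1, hST, hTs]
    rfl
  have c3 : ∑ j, ∑ i, θ (X (b i)) (b' j) * S (b' i) (Y (b j)) =
      -LinearMap.trace k V (T * (Y * X)) := by
    rw [Finset.sum_comm, F.trace, ← Finset.sum_neg_distrib]
    refine Finset.sum_congr rfl fun i _ => ?_
    have h1 := F.s2 ((S (b' i)).comp Y) (X (b i))
    simp only [smul_eq_mul, LinearMap.comp_apply] at h1
    rw [h1, hST, hTs]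
    rfl
  have c4 : ∑ j, ∑ i, θ (b' i) (Y (b j)) * S (X (b i)) (b' j) =
      -LinearMap.trace k V (T * (X * Y)) := by
    rw [Finset.sum_comm, ← mul_assoc, LinearMap.trace_mul_comm, ← F.trace']
    refine Finset.sum_congr rfl fun i _ => ?_
    have h1 := F.s1 (S (X (b i))) (Y (b' i))
    simp only [smul_eq_mul, hY (b' i)] at h1
    rw [h1, hST, ← hY]
    rfl
  have c5 : ∑ j, ∑ i, θ (b' i) (b' j) * S (X (b i)) (Y (b j)) =
      LinearMap.trace k V (T * (X * Y)) := by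
    rw [Finset.sum_comm, ← mul_assoc, LinearMap.trace_mul_comm,
      ← neg_neg (LinearMap.trace k V _), ← F.trace', ← Finset.sum_neg_distrib]
    refine Finset.sum_congr rfl fun i _ => ?_
    have h1 := F.s2 ((S (X (b i))).comp Y) (b' i)
    simp only [smul_eq_mul, LinearMap.comp_apply] at h1
    rw [h1, hST, ← hY]
    rfl
  simp only [Finset.sum_add_distrib, Finset.sum_sub_distrib, ← Finset.mul_sum] at h0
  simp only [← Finset.mul_sum] at c1 c6
  simp only [Finset.sum_add_distrib, Finset.sum_sub_distrib, ← Finset.mul_sum, a1, a2, a3, a4, c1,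
    c2, c3, c4, c5, c6] at h0
  simp only [mul_add, map_add]
  linear_combination (-1 / 2 : k) * h0

end Pool.Agent.Q66
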