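import Pool.Agent.Q66.C3

set_option autoImplicit false
set_option linter.unusedSectionVars false

/-!
# The spectral analysis of the operator
-/

open Module

noncomputable section

namespace Pool.Agent.Q66

section

variable {k V : Type*} [Field k] [CharZero k] [AddCommGroup V] [Module k V]
variable {ι : Type*} [Fintype ι] [DecidableEq ι]
variable {θ : V →ₗ[k] V →ₗ[k] k} {b : Basis ι k V} {b' : ι → V} (F : Fr θ b b')

/-- The symmetric operators of trace zero. -/
def S0 (θ : V →ₗ[k] V →ₗ[k] k) : Submodule k (Module.End k V) where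
  carrier := {X | IsSym θ X ∧ LinearMap.trace k V X = 0}
  zero_mem' := ⟨isSym_zero, map_zero _⟩
  add_mem' := fun hX hY => ⟨IsSym.add hX.1 hY.1, by rw [map_add, hX.2, hY.2, add_zero]⟩
  smul_mem' := fun c _ hX => ⟨IsSym.smul c hX.1, by rw [map_smul, hX.2, smul_zero]⟩

theorem S0_br {X h : Module.End k V} (hX : X ∈ S0 θ) (hh : IsSk θ h) : h * X - X * h ∈ S0 θ :=
  ⟨hX.1.br hh, by rw [map_sub, LinearMap.trace_mul_comm, sub_self]⟩

include F

theorem exists_adj (X : Module.End k V) : ∃ Y : Module.End k V, ∀ u v, θ (X u) v = θ u (Y v) := by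
  refine ⟨-∑ j, (θ (X (b j))).smulRight (b' j), fun u v => ?_⟩
  simp only [LinearMap.neg_apply, LinearMap.sum_apply, LinearMap.smulRight_apply, map_neg, map_sum,
    map_smul, smul_eq_mul]
  have h1 := F.s2 ((θ.flip v).comp X) u
  simp only [smul_eq_mul, LinearMap.comp_apply, LinearMap.flip_apply] at h1
  rw [← neg_eq_iff_eq_neg.2 h1]
  simp only [mul_comm]

/-- Every operator is the sum of a symmetric operator of trace zero, a scalar and a skew
operator. -/
theorem decomp [Nontrivial V] (X : Module.End k V) : ∃ Y ∈ S0 θ, ∃ (c : k) (Z : Module.End k V),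
    IsSk θ Z ∧ X = Y + c • 1 + Z := by
  have : FiniteDimensional k V := Module.Finite.of_basis b
  obtain ⟨X', hX'⟩ := exists_adj F X
  have hX'' : ∀ u v, θ (X' u) v = θ u (X v) := fun u v => by
    rw [F.anti, ← hX', F.anti, neg_neg]
  have hn : (finrank k V : k) ≠ 0 := by
    exact_mod_cast (Module.finrank_pos (R := k) (M := V)).ne'
  obtain ⟨W, hWd⟩ : ∃ W : Module.End k V, W = (2 : k)⁻¹ • (X + X') := ⟨_, rfl⟩
  have hW : IsSym θ W := by
    rw [hWd]
    refine IsSym.smul _ fun u v => ?_
    rw [LinearMap.add_apply, map_add, LinearMap.add_apply, hX', hX'', LinearMap.add_apply, map_add,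
      add_comm]
  let c : k := LinearMap.trace k V W / finrank k V
  refine ⟨W - c • 1, ⟨hW.sub (isSym_one.smul c), ?_⟩, c, (2 : k)⁻¹ • (X - X'), fun u v => ?_, ?_⟩
  · rw [map_sub, map_smul, LinearMap.trace_one, smul_eq_mul]
    simp only [c]
    field_simp
    ring
  · simp only [LinearMap.smul_apply, LinearMap.sub_apply, map_smul, map_sub]
    rw [hX', hX'']
    simp only [smul_eq_mul]
    ring
  · rw [sub_add_cancel, hWd]
    rw [← smul_add, add_add_sub_cancel, ← two_smul k, smul_smul, inv_mul_cancel₀ two_ne_zero,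
      one_smul]

/-- A symmetric operator which is orthogonal to all symmetric operators of trace zero is a
scalar. -/
theorem scalar_of_orth [Nontrivial V] {W : Module.End k V} (hW : IsSym θ W)
    (h : ∀ Z ∈ S0 θ, LinearMap.trace k V (W * Z) = 0) : ∃ c : k, W = c • 1 := by
  have : FiniteDimensional k V := Module.Finite.of_basis b
  have hn : (finrank k V : k) ≠ 0 := by
    exact_mod_cast (Module.finrank_pos (R := k) (M := V)).ne'
  let c : k := LinearMap.trace k V W / finrank k V
  have htr : LinearMap.trace k V (W - c • 1) = 0 := by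
    rw [map_sub, map_smul, LinearMap.trace_one, smul_eq_mul]
    simp only [c]
    field_simp
    ring
  refine ⟨c, sub_eq_zero.1 (F.eq_zero_of_trace fun Y => ?_)⟩
  obtain ⟨Y₀, hY₀, d, Z, hZ, rfl⟩ := decomp F Y
  rw [mul_add, mul_add, map_add, map_add,
    F.trace_sym_sk (hW.sub (isSym_one.smul c)) hZ, mul_smul_comm, mul_one, map_smul, htr, smul_zero,
    sub_mul, smul_mul_assoc, one_mul, map_sub, map_smul, hY₀.2, h Y₀ hY₀]
  simp

variable {ω : V →ₗ[k] V →ₗ[k] V →ₗ[k] V →ₗ[k] k} (hω : Alt4 ω)
include hω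

theorem T4_mem (h1 : T4 ω b b' 1 = 0) (X : Module.End k V) : T4 ω b b' X ∈ S0 θ :=
  ⟨T4_sym F hω X, T4_one_trace F hω h1 X⟩

theorem T4_red [Nontrivial V] (h1 : T4 ω b b' 1 = 0) (X : Module.End k V) :
    ∃ Y ∈ S0 θ, T4 ω b b' X = T4 ω b b' Y := by
  obtain ⟨Y, hY, c, Z, hZ, rfl⟩ := decomp F X
  refine ⟨Y, hY, ?_⟩
  rw [map_add, map_add, map_smul, h1, T4_sk F hω hZ, smul_zero, add_zero, add_zero]

end

/-- the function space operators for the binomial argument -/
theorem binom_aux {E : Type*} [AddCommGroup E] [Module ℂ E] (T : Module.End ℂ E)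
    (N : E → E → E → ℂ) (hN : ∀ x y z, N (T x) y z + N x (T y) z + N x y (T z) = 0)
    (n : ℕ) (x y z : E) :
    ∑ i ∈ Finset.range (n + 1), (n.choose i : ℂ) * N ((T ^ i) x) ((T ^ (n - i)) y) z =
      (-1) ^ n * N x y ((T ^ n) z) := by
  let 𝓕 := E → E → E → ℂ
  let A : Module.End ℂ 𝓕 :=
    { toFun := fun f x y z => f (T x) y z
      map_add' := fun _ _ => rfl
      map_smul' := fun _ _ => rfl }
  let B : Module.End ℂ 𝓕 :=
    { toFun := fun f x y z => f x (T y) z
      map_add' := fun _ _ => rfl
      map_smul' := fun _ _ => rfl }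
  let C : Module.End ℂ 𝓕 :=
    { toFun := fun f x y z => f x y (T z)
      map_add' := fun _ _ => rfl
      map_smul' := fun _ _ => rfl }
  have hA : ∀ (m : ℕ) (f : 𝓕) x y z, (A ^ m) f x y z = f ((T ^ m) x) y z := by
    intro m
    induction m with
    | zero => intro f x y z; rfl
    | succ m ih =>
      intro f x y z
      rw [pow_succ', Module.End.mul_apply]
      change (A ^ m) f (T x) y z = _
      rw [ih, pow_succ, Module.End.mul_apply]
  have hB : ∀ (m : ℕ) (f : 𝓕) x y z, (B ^ m) f x y z = f x ((T ^ m) y) z := by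
    intro m
    induction m with
    | zero => intro f x y z; rfl
    | succ m ih =>
      intro f x y z
      rw [pow_succ', Module.End.mul_apply]
      change (B ^ m) f x (T y) z = _
      rw [ih, pow_succ, Module.End.mul_apply]
  have hC : ∀ (m : ℕ) (f : 𝓕) x y z, (C ^ m) f x y z = f x y ((T ^ m) z) := by
    intro m
    induction m with
    | zero => intro f x y z; rfl
    | succ m ih =>
      intro f x y z
      rw [pow_succ', Module.End.mul_apply]
      change (C ^ m) f x y (T z) = _
      rw [ih, pow_succ, Module.End.mul_apply]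
  have hAB : Commute A B := rfl
  have hABC : Commute (A + B) C := rfl
  have h0 : (A + B) N = -C N := by
    funext x y z
    have := hN x y z
    change N (T x) y z + N x (T y) z = -N x y (T z)
    linear_combination this
  have h1 : ((A + B) ^ n) N = ((-1 : ℂ) ^ n) • (C ^ n) N := by
    clear x y z
    induction n with
    | zero => simp
    | succ n ih =>
      rw [pow_succ, Module.End.mul_apply, h0, map_neg]
      have h2 : ((A + B) ^ n) (C N) = C (((A + B) ^ n) N) := by
        rw [← Module.End.mul_apply, (hABC.pow_left n).eq, Module.End.mul_apply]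
      rw [h2, ih, map_smul, pow_succ' C, Module.End.mul_apply, pow_succ (-1 : ℂ)]
      simp
  let ev : 𝓕 →ₗ[ℂ] ℂ :=
    { toFun := fun f => f x y z
      map_add' := fun _ _ => rfl
      map_smul' := fun _ _ => rfl }
  have hev : ∀ f, ev f = f x y z := fun _ => rfl
  have h2 := congrArg ev h1
  rw [hAB.add_pow, LinearMap.sum_apply, map_sum, map_smul, hev ((C ^ n) N), hC,
    smul_eq_mul] at h2
  rw [← h2]
  refine Finset.sum_congr rfl fun i _ => ?_
  have h3 : (A ^ i * B ^ (n - i) * ((n.choose i : ℕ) : Module.End ℂ 𝓕)) N x y z =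
      (n.choose i : ℂ) * ((A ^ i * B ^ (n - i)) N x y z) := by
    rw [← nsmul_eq_mul', LinearMap.smul_apply]
    have h5 := map_nsmul ev (n.choose i) ((A ^ i * B ^ (n - i)) N)
    rw [hev, hev] at h5
    rw [h5, nsmul_eq_mul]
  rw [hev, h3, Module.End.mul_apply, hA, hB]

/-- The nilpotent case. -/
theorem nil_aux {E : Type*} [AddCommGroup E] [Module ℂ E] (T : Module.End ℂ E)
    (N : E → E → E → ℂ) (hN : ∀ x y z, N (T x) y z + N x (T y) z + N x y (T z) = 0)
    (h0 : ∀ y z, N 0 y z = 0) (h0' : ∀ x z, N x 0 z = 0) (h0'' : ∀ x y, N x y 0 = 0)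
    {n : ℕ} (hn : T ^ (n + 1) = 0) (hn1 : 1 ≤ n) (x y z : E) :
    N ((T ^ n) x) ((T ^ n) y) z = 0 := by
  have hz : ∀ m, n + 1 ≤ m → T ^ m = 0 := by
    intro m hm
    obtain ⟨j, rfl⟩ := Nat.exists_eq_add_of_le hm
    rw [pow_add, hn, zero_mul]
  have h1 := binom_aux T N hN (2 * n) x y z
  rw [hz (2 * n) (by omega), LinearMap.zero_apply, h0'', mul_zero,
    Finset.sum_eq_single n] at h1
  · have h2 : 2 * n - n = n := by omega
    rw [h2] at h1
    have h3 : ((2 * n).choose n : ℂ) ≠ 0 := by
      exact_mod_cast (Nat.choose_pos (by omega)).ne'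
    exact (mul_eq_zero.1 h1).resolve_left h3
  · intro i hi hne
    rcases Nat.lt_or_ge i n with h | h
    · rw [hz (2 * n - i) (by omega), LinearMap.zero_apply, h0', mul_zero]
    · rw [hz i (by omega), LinearMap.zero_apply, h0, mul_zero]
  · intro h
    exact absurd (Finset.mem_range.2 (by omega)) h

/-- An operator is nilpotent or has a nonzero eigenvalue of largest absolute value. -/
theorem nil_or_max {E : Type*} [AddCommGroup E] [Module ℂ E] [FiniteDimensional ℂ E]
    [Nontrivial E] (T : Module.End ℂ E) :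
    IsNilpotent T ∨ ∃ a : ℂ, a ≠ 0 ∧ T.HasEigenvalue a ∧ ∀ c, T.HasEigenvalue c → ‖c‖ ≤ ‖a‖ := by
  obtain ⟨a₀, ha₀⟩ := Module.End.exists_eigenvalue T
  obtain ⟨a, ha, hmax⟩ := Set.exists_max_image {μ | T.HasEigenvalue μ} (fun c => ‖c‖)
    T.finite_hasEigenvalue ⟨a₀, ha₀⟩
  by_cases h : a = 0
  · left
    subst h
    have h1 : ∀ c, T.HasEigenvalue c → c = 0 := by
      intro c hc
      have h2 := hmax c hc
      rw [norm_zero] at h2
      exact norm_le_zero_iff.1 h2
    have h2 : T.maxGenEigenspace 0 = ⊤ := by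
      rw [eq_top_iff, ← Module.End.iSup_maxGenEigenspace_eq_top T]
      refine iSup_le fun c => ?_
      by_cases hc : T.HasEigenvalue c
      · rw [h1 c hc]
      · have h3 : T.maxGenEigenspace c = ⊥ := by
          by_contra hne
          apply hc
          obtain ⟨v, hv, hv0⟩ := Submodule.exists_mem_ne_zero_of_ne_bot hne
          rw [Module.End.maxGenEigenspace_eq_genEigenspace_finrank] at hv
          have h4 : T.genEigenspace c (finrank ℂ E) ≠ ⊥ := by
            intro h5
            rw [h5] at hv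
            exact hv0 hv
          exact Module.End.hasEigenvalue_of_hasGenEigenvalue h4
        rw [h3]
        exact bot_le
    refine ⟨finrank ℂ E, LinearMap.ext fun v => ?_⟩
    have h3 : v ∈ T.maxGenEigenspace 0 := by rw [h2]; trivial
    rw [Module.End.maxGenEigenspace_eq_genEigenspace_finrank, Module.End.mem_genEigenspace_nat] at h3
    rw [zero_smul, sub_zero] at h3
    exact h3
  · exact Or.inr ⟨a, h, ha, fun c hc => hmax c hc⟩

end Pool.Agent.Q66
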