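import Pool.Agent.Q66.C4

set_option autoImplicit false
set_option linter.unusedSectionVars false

/-!
# The space of operators with scalar anticommutators
-/

open Module

noncomputable section

namespace Pool.Agent.Q66

theorem trc {V : Type*} [AddCommGroup V] [Module ℂ V] (P Q R : Module.End ℂ V) :
    LinearMap.trace ℂ V (P * (Q * R)) = LinearMap.trace ℂ V (Q * (R * P)) := by
  rw [LinearMap.trace_mul_comm, mul_assoc]

variable {V : Type*} [AddCommGroup V] [Module ℂ V]
variable {ι : Type*} [Fintype ι] [DecidableEq ι]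
variable {θ : V →ₗ[ℂ] V →ₗ[ℂ] ℂ} {b : Basis ι ℂ V} {b' : ι → V} (F : Fr θ b b')
variable {ω : V →ₗ[ℂ] V →ₗ[ℂ] V →ₗ[ℂ] V →ₗ[ℂ] ℂ} (hω : Alt4 ω)

include F hω

theorem pow_symm (n : ℕ) (X Y : Module.End ℂ V) :
    LinearMap.trace ℂ V (((T4 ω b b') ^ n) X * Y) = LinearMap.trace ℂ V (X * ((T4 ω b b') ^ n) Y) := by
  induction n generalizing X Y with
  | zero => rfl
  | succ n ih =>
    rw [pow_succ, Module.End.mul_apply, ih, phi_symm F hω, ← Module.End.mul_apply (T4 ω b b'),
      ← pow_succ', Module.End.mul_apply, ← Module.End.mul_apply, ← pow_succ]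

theorem pow_br {h : Module.End ℂ V} (hh : IsSk θ h) (hk : Kill4 ω h) (n : ℕ)
    (X : Module.End ℂ V) : ((T4 ω b b') ^ n) (h * X - X * h) =
      h * ((T4 ω b b') ^ n) X - ((T4 ω b b') ^ n) X * h := by
  induction n generalizing X with
  | zero => rfl
  | succ n ih => rw [pow_succ, Module.End.mul_apply, T4_br F hω hh hk, ih, Module.End.mul_apply]

theorem exists_U [Nontrivial V] (hP : Prim θ ω) (h1 : T4 ω b b' 1 = 0) (h0 : ω ≠ 0)
    (𝔥 : Set (Module.End ℂ V)) (hsk : ∀ h ∈ 𝔥, IsSk θ h) (hk : ∀ h ∈ 𝔥, Kill4 ω h) :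
    ∃ U : Submodule ℂ (Module.End ℂ V), U ≠ ⊥ ∧ U ≤ S0 θ ∧
      (∀ h ∈ 𝔥, ∀ X ∈ U, h * X - X * h ∈ U) ∧
      (∀ X ∈ U, ∀ Y ∈ U, ∃ c : ℂ, X * Y + Y * X = c • 1) ∧
      ((∀ X ∈ U, T4 ω b b' X = 0 → X = 0) ∨ ∀ X ∈ U, ∀ Y ∈ U, X * Y + Y * X = 0) := by
  have : FiniteDimensional ℂ V := Module.Finite.of_basis b
  have hn : (finrank ℂ V : ℂ) ≠ 0 := by
    exact_mod_cast (Module.finrank_pos (R := ℂ) (M := V)).ne'
  obtain ⟨T, hT⟩ : ∃ T : Module.End ℂ (Module.End ℂ V), T = T4 ω b b' := ⟨_, rfl⟩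
  have hT0 : T ≠ 0 := by
    intro h
    apply h0
    refine eq_zero_of_T4 F hω fun X _ => ?_
    rw [← hT, h, LinearMap.zero_apply]
  have hmem : ∀ X, T X ∈ S0 θ := fun X => by rw [hT]; exact T4_mem F hω h1 X
  rcases nil_or_max T with hnil | ⟨a, ha, hea, hmax⟩
  · classical
    obtain ⟨n, hn0, hn1, hn2⟩ : ∃ n, 1 ≤ n ∧ T ^ n ≠ 0 ∧ T ^ (n + 1) = 0 := by
      obtain ⟨m, hm⟩ := hnil
      have hex : ∃ m, T ^ m = 0 := ⟨m, hm⟩
      have hf := Nat.find_spec hex
      have hf' := fun j => Nat.find_min hex (m := j)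
      set q := Nat.find hex
      have hq0 : q ≠ 0 := by
        intro h
        rw [h, pow_zero] at hf
        exact one_ne_zero hf
      have hq1 : q ≠ 1 := by
        intro h
        rw [h, pow_one] at hf
        exact hT0 hf
      refine ⟨q - 1, by omega, hf' (q - 1) (by omega), ?_⟩
      have : q - 1 + 1 = q := by omega
      rw [this]
      exact hf
    have hmemn : ∀ X, (T ^ n) X ∈ S0 θ := by
      intro X
      obtain ⟨j, rfl⟩ := Nat.exists_eq_add_of_le hn0
      rw [add_comm, pow_succ', Module.End.mul_apply]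
      exact hmem _
    refine ⟨(S0 θ).map (T ^ n), ?_, ?_, ?_, ?_, ?_⟩
    · intro hbot
      apply hn1
      refine LinearMap.ext fun X => ?_
      obtain ⟨Y, hY, hXY⟩ := T4_red F hω h1 X
      have h2 : (T ^ n) X = (T ^ n) Y := by
        obtain ⟨j, rfl⟩ := Nat.exists_eq_add_of_le hn0
        rw [add_comm, pow_succ, Module.End.mul_apply, Module.End.mul_apply, hT, hXY]
      have h3 : (T ^ n) Y ∈ (S0 θ).map (T ^ n) := Submodule.mem_map_of_mem hY
      rw [hbot, Submodule.mem_bot] at h3
      rw [h2, h3, LinearMap.zero_apply]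
    · rintro _ ⟨Y, _, rfl⟩
      exact hmemn Y
    · rintro h hh _ ⟨Y, hY, rfl⟩
      refine ⟨h * Y - Y * h, S0_br hY (hsk h hh), ?_⟩
      rw [hT, pow_br F hω (hsk h hh) (hk h hh)]
    all_goals
      have key : ∀ X ∈ S0 θ, ∀ Y ∈ S0 θ, (T ^ n) X * (T ^ n) Y + (T ^ n) Y * (T ^ n) X = 0 := by
        intro X hX Y hY
        have hr : ∀ x ∈ S0 θ, T x ∈ S0 θ := fun x _ => hmem x
        let T' : Module.End ℂ (S0 θ) := T.restrict hr
        have hT' : ∀ (m : ℕ) (x : S0 θ), (((T' ^ m) x : S0 θ) : Module.End ℂ V) = (T ^ m) x := by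
          intro m
          induction m with
          | zero => intro x; rfl
          | succ m ih =>
            intro x
            rw [pow_succ, Module.End.mul_apply, ih, pow_succ, Module.End.mul_apply]
            rfl
        let N : S0 θ → S0 θ → S0 θ → ℂ := fun x y z =>
          LinearMap.trace ℂ V ((x.1 * y.1 + y.1 * x.1) * z.1)
        have hN : ∀ x y z, N (T' x) y z + N x (T' y) z + N x y (T' z) = 0 := by
          intro x y z
          have h2 := keyK F hω hP x.2.1 y.2.1 z.2.1 x.2.2 y.2.2 z.2.2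
          rw [← hT] at h2
          rw [← h2]
          simp only [N, T', LinearMap.coe_restrict_apply, add_mul, mul_add, map_add, mul_assoc]
          linear_combination trc y.1 (T x.1) z.1 + trc x.1 (T y.1) z.1 - trc (T z.1) x.1 y.1 -
            trc (T z.1) y.1 x.1
        have hT'n : T' ^ (n + 1) = 0 := by
          refine LinearMap.ext fun x => Subtype.ext ?_
          rw [hT', hn2]
          rfl
        have h3 : ∀ Z ∈ S0 θ, LinearMap.trace ℂ V
            (((T ^ n) X * (T ^ n) Y + (T ^ n) Y * (T ^ n) X) * Z) = 0 := by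
          intro Z hZ
          have h4 := nil_aux T' N hN (fun y z => by simp [N]) (fun x z => by simp [N])
            (fun x y => by simp [N]) hT'n hn0 ⟨X, hX⟩ ⟨Y, hY⟩ ⟨Z, hZ⟩
          simp only [N, hT'] at h4
          exact h4
        obtain ⟨c, hc⟩ := scalar_of_orth F ((hmemn X).1.anti (hmemn Y).1) h3
        have h5 : LinearMap.trace ℂ V ((T ^ n) X * (T ^ n) Y) = 0 := by
          rw [hT, pow_symm F hω, ← Module.End.mul_apply, ← pow_add, ← hT]
          have : n + n = (n + 1) + (n - 1) := by omega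
          rw [this, pow_add, hn2, zero_mul, LinearMap.zero_apply, mul_zero, map_zero]
        have h6 := congrArg (LinearMap.trace ℂ V) hc
        rw [map_add, LinearMap.trace_mul_comm ℂ ((T ^ n) Y), h5, add_zero, map_smul,
          LinearMap.trace_one, smul_eq_mul] at h6
        have h7 : c = 0 := (mul_eq_zero.1 h6.symm).resolve_right hn
        rw [hc, h7, zero_smul]
    · rintro _ ⟨X, hX, rfl⟩ _ ⟨Y, hY, rfl⟩
      exact ⟨0, by rw [zero_smul]; exact key X hX Y hY⟩
    · right
      rintro _ ⟨X, hX, rfl⟩ _ ⟨Y, hY, rfl⟩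
      exact key X hX Y hY
  · have hUm : ∀ X ∈ T.eigenspace a, X ∈ S0 θ := by
      intro X hX
      rw [Module.End.mem_eigenspace_iff] at hX
      have h2 : X = a⁻¹ • T X := by rw [hX, smul_smul, inv_mul_cancel₀ ha, one_smul]
      rw [h2]
      exact Submodule.smul_mem _ _ (hmem X)
    refine ⟨T.eigenspace a, hea, hUm, ?_, ?_, ?_⟩
    · intro h hh X hX
      rw [Module.End.mem_eigenspace_iff] at hX ⊢
      rw [hT, T4_br F hω (hsk h hh) (hk h hh), ← hT, hX, mul_smul_comm, smul_mul_assoc, smul_sub]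
    · intro X hX Y hY
      refine scalar_of_orth F ((hUm X hX).1.anti (hUm Y hY).1) fun W hW => ?_
      -- `T + 2 a` is surjective
      have hinj : Function.Injective (T + (2 * a) • (1 : Module.End ℂ (Module.End ℂ V))) := by
        rw [← LinearMap.ker_eq_bot, LinearMap.ker_eq_bot']
        intro Z hZ
        by_contra hne
        have h2 : T.HasEigenvalue (-(2 * a)) := by
          refine Module.End.hasEigenvalue_of_hasEigenvector (x := Z) ⟨?_, hne⟩
          rw [Module.End.mem_eigenspace_iff, neg_smul]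
          rw [LinearMap.add_apply, LinearMap.smul_apply, Module.End.one_apply] at hZ
          exact eq_neg_of_add_eq_zero_left hZ
        have h3 := hmax _ h2
        rw [norm_neg, norm_mul, Complex.norm_ofNat] at h3
        have h4 : 0 < ‖a‖ := norm_pos_iff.2 ha
        linarith
      obtain ⟨Z, hZ⟩ := LinearMap.injective_iff_surjective.1 hinj W
      rw [LinearMap.add_apply, LinearMap.smul_apply, Module.End.one_apply] at hZ
      have hZm : Z ∈ S0 θ := by
        have h2 : Z = (2 * a)⁻¹ • (W - T Z) := by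
          rw [← hZ, add_sub_cancel_left, smul_smul, inv_mul_cancel₀ (mul_ne_zero two_ne_zero ha),
            one_smul]
        rw [h2]
        exact Submodule.smul_mem _ _ (Submodule.sub_mem _ hW (hmem Z))
      have h2 := keyK F hω hP (hUm X hX).1 (hUm Y hY).1 hZm.1 (hUm X hX).2 (hUm Y hY).2 hZm.2
      rw [Module.End.mem_eigenspace_iff] at hX hY
      rw [← hT, hX, hY] at h2
      rw [← h2, ← hZ]
      simp only [add_mul, mul_add, map_add, mul_assoc, smul_mul_assoc, mul_smul_comm, map_smul,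
        smul_eq_mul]
      linear_combination a * trc X Y Z + a * trc Y X Z - trc (T Z) X Y - trc (T Z) Y X
    · left
      intro X hX h0
      rw [Module.End.mem_eigenspace_iff, hT, h0] at hX
      exact (smul_eq_zero.1 hX.symm).resolve_left ha

end Pool.Agent.Q66
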