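import Pool.Agent.Q66.C5

set_option autoImplicit false
set_option linter.unusedSectionVars false

/-!
# Stable spaces of anticommuting operators of square zero
-/

open Module

noncomputable section

namespace Pool.Agent.Q66

variable {V : Type*} [AddCommGroup V] [Module ℂ V]
variable {θ : V →ₗ[ℂ] V →ₗ[ℂ] ℂ}

/-- There are no totally isotropic stable subspaces. -/
def NoIso (θ : V →ₗ[ℂ] V →ₗ[ℂ] ℂ) (𝔥 : Set (Module.End ℂ V)) : Prop :=
  ∀ W : Submodule ℂ V, (∀ h ∈ 𝔥, ∀ w ∈ W, h w ∈ W) → (∀ u ∈ W, ∀ v ∈ W, θ u v = 0) → W = ⊥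

theorem anti_zero [FiniteDimensional ℂ V] {𝔥 : Set (Module.End ℂ V)} (hsk : ∀ h ∈ 𝔥, IsSk θ h)
    (hiso : NoIso θ 𝔥) (R : Submodule ℂ (Module.End ℂ V)) (hs : ∀ X ∈ R, IsSym θ X)
    (hst : ∀ h ∈ 𝔥, ∀ X ∈ R, h * X - X * h ∈ R) (ha : ∀ X ∈ R, ∀ Y ∈ R, X * Y + Y * X = 0) :
    R = ⊥ := by
  classical
  let K : Submodule ℂ V :=
    { carrier := {v | ∀ X ∈ R, X v = 0}
      zero_mem' := fun X _ => map_zero X
      add_mem' := fun hu hv X hX => by rw [map_add, hu X hX, hv X hX, add_zero]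
      smul_mem' := fun c v hv X hX => by rw [map_smul, hv X hX, smul_zero] }
  let K' : Submodule ℂ V :=
    { carrier := {v | ∀ u ∈ K, θ u v = 0}
      zero_mem' := fun u _ => map_zero _
      add_mem' := fun hu hv w hw => by rw [map_add, hu w hw, hv w hw, add_zero]
      smul_mem' := fun c v hv w hw => by rw [map_smul, hv w hw, smul_zero] }
  have hK : ∀ h ∈ 𝔥, ∀ v ∈ K, h v ∈ K := by
    intro h hh v hv X hX
    have h1 := hv _ (hst h hh X hX)
    rw [LinearMap.sub_apply, Module.End.mul_apply, Module.End.mul_apply, hv X hX, map_zero,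
      zero_sub, neg_eq_zero] at h1
    exact h1
  have hK' : ∀ h ∈ 𝔥, ∀ v ∈ K', h v ∈ K' := by
    intro h hh v hv u hu
    have h1 := hsk h hh u v
    rw [hv _ (hK h hh u hu)] at h1
    exact neg_eq_zero.1 h1.symm
  have hKK : K ⊓ K' = ⊥ := by
    refine hiso _ (fun h hh w hw => ⟨hK h hh w hw.1, hK' h hh w hw.2⟩) ?_
    intro u hu v hv
    exact hv.2 u hu.1
  have hR : ∀ X ∈ R, ∀ v, X v ∈ K' := by
    intro X hX v u hu
    rw [← hs X hX, hu X hX, map_zero, LinearMap.zero_apply]
  have hsq : ∀ X ∈ R, ∀ v, X (X v) = 0 := by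
    intro X hX v
    have h1 := ha X hX X hX
    rw [← two_smul ℂ] at h1
    have h2 : X * X = 0 := (smul_eq_zero.1 h1).resolve_left two_ne_zero
    rw [← Module.End.mul_apply, h2, LinearMap.zero_apply]
  by_contra hne
  obtain ⟨X₀, hX₀, hX₀0⟩ := Submodule.exists_mem_ne_zero_of_ne_bot hne
  obtain ⟨v₀, hv₀⟩ : ∃ v, X₀ v ≠ 0 := by
    by_contra hc
    push Not at hc
    exact hX₀0 (LinearMap.ext hc)
  obtain ⟨s, hs'⟩ := (IsNoetherian.noetherian R : R.FG)
  have key : ∀ t : Finset (Module.End ℂ V), (∀ X ∈ t, X ∈ R) →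
      ∃ w ∈ K', w ≠ 0 ∧ ∀ X ∈ t, X w = 0 := by
    intro t
    induction t using Finset.induction_on with
    | empty => exact fun _ => ⟨X₀ v₀, hR X₀ hX₀ _, hv₀, fun X hX => absurd hX (Finset.notMem_empty X)⟩
    | insert Y t _ ih =>
      intro ht
      obtain ⟨w, hw, hw0, hwt⟩ := ih fun X hX => ht X (Finset.mem_insert_of_mem hX)
      have hY : Y ∈ R := ht Y (Finset.mem_insert_self _ _)
      by_cases hYw : Y w = 0
      · refine ⟨w, hw, hw0, fun X hX => ?_⟩
        rcases Finset.mem_insert.1 hX with rfl | hX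
        · exact hYw
        · exact hwt X hX
      · refine ⟨Y w, hR Y hY w, hYw, fun X hX => ?_⟩
        rcases Finset.mem_insert.1 hX with rfl | hX
        · exact hsq X hY w
        · have h1 := congrArg (fun Z : Module.End ℂ V => Z w)
            (ha X (ht X (Finset.mem_insert_of_mem hX)) Y hY)
          simp only [LinearMap.add_apply, Module.End.mul_apply, hwt X hX, map_zero, add_zero,
            LinearMap.zero_apply] at h1
          exact h1
  obtain ⟨w, hw, hw0, hws⟩ := key s fun X hX => by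
    rw [← hs']
    exact Submodule.subset_span hX
  apply hw0
  have h1 : w ∈ K := by
    intro X hX
    rw [← hs'] at hX
    induction hX using Submodule.span_induction with
    | mem X hX => exact hws X hX
    | zero => rfl
    | add X Y _ _ hX hY => rw [LinearMap.add_apply, hX, hY, add_zero]
    | smul c X _ hX => rw [LinearMap.smul_apply, hX, smul_zero]
  have h2 : w ∈ K ⊓ K' := ⟨h1, hw⟩
  rw [hKK] at h2
  exact (Submodule.mem_bot ℂ).1 h2

end Pool.Agent.Q66
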