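import Pool.Agent.Q66.C6

set_option autoImplicit false
set_option linter.unusedSectionVars false

/-!
# Clifford generators
-/

open Module

noncomputable section

namespace Pool.Agent.Q66

variable {V : Type*} [AddCommGroup V] [Module ℂ V]

/-- generators of a Clifford algebra -/
structure Clif {m : ℕ} (e : Fin m → Module.End ℂ V) : Prop where
  sq : ∀ i, e i * e i = 1
  anti : ∀ i j, i ≠ j → e i * e j = -(e j * e i)

theorem exists_clif [FiniteDimensional ℂ V] [Nontrivial V] (U : Submodule ℂ (Module.End ℂ V))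
    (hU : U ≠ ⊥) (hc : ∀ X ∈ U, ∀ Y ∈ U, ∃ c : ℂ, X * Y + Y * X = c • 1)
    (hnd : ∀ X ∈ U, (∀ Y ∈ U, X * Y + Y * X = 0) → X = 0) :
    ∃ (m : ℕ) (e : Fin m → Module.End ℂ V), 0 < m ∧ (∀ i, e i ∈ U) ∧ Clif e ∧
      ∀ X ∈ U, X = ∑ i, (LinearMap.trace ℂ V (e i * X) / finrank ℂ V) • e i := by
  have hn : (finrank ℂ V : ℂ) ≠ 0 := by
    exact_mod_cast (Module.finrank_pos (R := ℂ) (M := V)).ne'
  have hq : ∀ X ∈ U, ∀ Y ∈ U,
      X * Y + Y * X = (2 * (LinearMap.trace ℂ V (X * Y) / finrank ℂ V)) • 1 := by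
    intro X hX Y hY
    obtain ⟨c, h⟩ := hc X hX Y hY
    have h1 := congrArg (LinearMap.trace ℂ V) h
    rw [map_add, LinearMap.trace_mul_comm ℂ Y X, map_smul, LinearMap.trace_one, smul_eq_mul] at h1
    rw [h]
    congr 1
    field_simp
    linear_combination -h1
  let B : LinearMap.BilinForm ℂ U := LinearMap.mk₂ ℂ
    (fun x y => LinearMap.trace ℂ V (x.1 * y.1))
    (fun x y z => by simp [add_mul]) (fun c x y => by simp)
    (fun x y z => by simp [mul_add]) (fun c x y => by simp)
  have hB : ∀ x y, B x y = LinearMap.trace ℂ V (x.1 * y.1) := fun _ _ => rfl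
  have hs : LinearMap.IsSymm B := ⟨fun x y => by
    rw [RingHom.id_apply, hB, hB, LinearMap.trace_mul_comm]⟩
  have : Invertible (2 : ℂ) := invertibleOfNonzero two_ne_zero
  obtain ⟨v, hv⟩ := LinearMap.BilinForm.exists_orthogonal_basis hs
  have hv' : ∀ i j, i ≠ j → B (v i) (v j) = 0 := fun i j hij => hv hij
  have hvv : ∀ i, B (v i) (v i) ≠ 0 := by
    intro i h
    have h1 : ∀ y : U, B (v i) y = 0 := by
      intro y
      rw [← v.sum_repr y, map_sum]
      refine Finset.sum_eq_zero fun j _ => ?_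
      rw [map_smul]
      by_cases hij : i = j
      · subst hij
        rw [h, smul_zero]
      · rw [hv' i j hij, smul_zero]
    apply v.ne_zero i
    apply Subtype.ext
    refine hnd _ (v i).2 fun Y hY => ?_
    have h2 := h1 ⟨Y, hY⟩
    rw [hB] at h2
    rw [hq _ (v i).2 Y hY, h2, zero_div, mul_zero, zero_smul]
  choose c hc' using fun i => IsAlgClosed.exists_pow_nat_eq
    ((finrank ℂ V : ℂ) / B (v i) (v i)) two_pos
  have hc0 : ∀ i, c i ≠ 0 := by
    intro i h
    have h1 := hc' i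
    rw [h, zero_pow two_ne_zero] at h1
    exact (div_ne_zero hn (hvv i)) h1.symm
  let e : Fin (finrank ℂ U) → Module.End ℂ V := fun i => c i • (v i : Module.End ℂ V)
  have heU : ∀ i, e i ∈ U := fun i => U.smul_mem _ (v i).2
  have htr : ∀ i j, LinearMap.trace ℂ V (e i * e j) = if i = j then (finrank ℂ V : ℂ) else 0 := by
    intro i j
    simp only [e]
    rw [smul_mul_smul_comm, map_smul, smul_eq_mul, ← hB]
    by_cases hij : i = j
    · subst hij
      rw [if_pos rfl, ← pow_two, hc', div_mul_cancel₀ _ (hvv i)]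
    · rw [if_neg hij, hv' i j hij, mul_zero]
  have hpos : 0 < finrank ℂ U := by
    rw [Module.finrank_pos_iff]
    exact Submodule.nontrivial_iff_ne_bot.2 hU
  refine ⟨finrank ℂ U, e, hpos, heU, ⟨fun i => ?_, fun i j hij => ?_⟩, fun X hX => ?_⟩
  · have h1 := hq _ (heU i) _ (heU i)
    rw [htr, if_pos rfl, div_self hn, mul_one, ← two_smul ℂ] at h1
    have h2 : (2 : ℂ) • (e i * e i - 1) = 0 := by rw [smul_sub, h1, sub_self]
    exact sub_eq_zero.1 ((smul_eq_zero.1 h2).resolve_left two_ne_zero)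
  · have h1 := hq _ (heU i) _ (heU j)
    rw [htr, if_neg hij, zero_div, mul_zero, zero_smul] at h1
    exact eq_neg_of_add_eq_zero_left h1
  · -- coordinates
    have h1 : ∃ d : Fin (finrank ℂ U) → ℂ, X = ∑ i, d i • e i := by
      refine ⟨fun i => v.repr ⟨X, hX⟩ i / c i, ?_⟩
      have h2 := congrArg (fun x : U => (x : Module.End ℂ V)) (v.sum_repr ⟨X, hX⟩)
      simp only [Submodule.coe_sum, Submodule.coe_smul] at h2
      refine h2.symm.trans (Finset.sum_congr rfl fun i _ => ?_)
      simp only [e]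
      rw [smul_smul, div_mul_cancel₀ _ (hc0 i)]
    obtain ⟨d, hd⟩ := h1
    have h3 : ∀ i, LinearMap.trace ℂ V (e i * X) / finrank ℂ V = d i := by
      intro i
      rw [hd, Finset.mul_sum, map_sum]
      simp only [mul_smul_comm, map_smul, htr, smul_eq_mul]
      simp [hn]
    simp only [h3]
    exact hd

end Pool.Agent.Q66
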