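import Pool.Agent.Q66.C7

set_option autoImplicit false
set_option linter.unusedSectionVars false

/-!
# The decomposition of the Lie algebra
-/

open Module

noncomputable section

namespace Pool.Agent.Q66

variable {V : Type*} [AddCommGroup V] [Module ℂ V] [FiniteDimensional ℂ V] [Nontrivial V]

theorem anti_eq {U : Submodule ℂ (Module.End ℂ V)}
    (hc : ∀ X ∈ U, ∀ Y ∈ U, ∃ c : ℂ, X * Y + Y * X = c • 1) {X Y : Module.End ℂ V} (hX : X ∈ U)
    (hY : Y ∈ U) :
    X * Y + Y * X = (2 * (LinearMap.trace ℂ V (X * Y) / finrank ℂ V)) • 1 := by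
  have hn : (finrank ℂ V : ℂ) ≠ 0 := by
    exact_mod_cast (Module.finrank_pos (R := ℂ) (M := V)).ne'
  obtain ⟨c, h⟩ := hc X hX Y hY
  have h1 := congrArg (LinearMap.trace ℂ V) h
  rw [map_add, LinearMap.trace_mul_comm ℂ Y X, map_smul, LinearMap.trace_one, smul_eq_mul] at h1
  rw [h]
  congr 1
  field_simp
  linear_combination -h1

/-- the span of the products of two generators -/
def P2 {m : ℕ} (e : Fin m → Module.End ℂ V) : Submodule ℂ (Module.End ℂ V) :=
  Submodule.span ℂ {Y | ∃ i j, Y = e i * e j}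

theorem exists_dec {θ : V →ₗ[ℂ] V →ₗ[ℂ] ℂ} {U : Submodule ℂ (Module.End ℂ V)}
    (hs : ∀ X ∈ U, IsSym θ X)
    (hc : ∀ X ∈ U, ∀ Y ∈ U, ∃ c : ℂ, X * Y + Y * X = c • 1)
    {m : ℕ} {e : Fin m → Module.End ℂ V} (he : ∀ i, e i ∈ U)
    (hsp : ∀ X ∈ U, X = ∑ i, (LinearMap.trace ℂ V (e i * X) / finrank ℂ V) • e i)
    {h : Module.End ℂ V} (hsk : IsSk θ h) (hst : ∀ X ∈ U, h * X - X * h ∈ U) :
    ∃ s h' : Module.End ℂ V, h = s + h' ∧ s ∈ P2 e ∧ IsSk θ h' ∧ ∀ i, h' * e i = e i * h' := by
  let D : Module.End ℂ V → Module.End ℂ V := fun X => h * X - X * h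
  have hD : ∀ X ∈ U, D X ∈ U := hst
  have hDdef : ∀ X, D X = h * X - X * h := fun _ => rfl
  have htr : ∀ X Y, LinearMap.trace ℂ V (D X * Y) = -LinearMap.trace ℂ V (X * D Y) := by
    intro X Y
    simp only [hDdef, sub_mul, mul_sub, map_sub, mul_assoc]
    rw [LinearMap.trace_mul_comm ℂ h (X * Y), mul_assoc]
    ring
  have htr0 : ∀ X, LinearMap.trace ℂ V (X * D X) = 0 := by
    intro X
    have h1 := htr X X
    rw [LinearMap.trace_mul_comm] at h1
    have h2 : (2 : ℂ) * LinearMap.trace ℂ V (X * D X) = 0 := by linear_combination h1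
    exact (mul_eq_zero.1 h2).resolve_left two_ne_zero
  let s : Module.End ℂ V := (1 / 4 : ℂ) • ∑ j, D (e j) * e j
  have hs1 : ∀ i, s * e i - e i * s = D (e i) := by
    intro i
    have key : ∀ j, D (e j) * e j * e i - e i * (D (e j) * e j) =
        (2 * (LinearMap.trace ℂ V (e j * e i) / finrank ℂ V)) • D (e j) +
        (2 * (LinearMap.trace ℂ V (e j * D (e i)) / finrank ℂ V)) • e j := by
      intro j
      have a1 := anti_eq hc (he j) (he i)
      have a2 := anti_eq hc (hD _ (he j)) (he i)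
      rw [htr, neg_div, mul_neg, neg_smul] at a2
      have b1 : e j * e i = (2 * (LinearMap.trace ℂ V (e j * e i) / finrank ℂ V)) • 1 - e i * e j :=
        eq_sub_of_add_eq a1
      have b2 : e i * D (e j) = -((2 * (LinearMap.trace ℂ V (e j * D (e i)) / finrank ℂ V)) • 1) -
          D (e j) * e i := by
        rw [← a2]
        abel
      rw [mul_assoc, ← mul_assoc (e i), b2]
      conv_lhs => rw [b1]
      simp only [mul_sub, sub_mul, mul_smul_comm, mul_one, neg_mul, smul_mul_assoc, one_mul,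
        mul_assoc]
      abel
    have h1 : s * e i - e i * s = (1 / 4 : ℂ) • ∑ j, (D (e j) * e j * e i -
        e i * (D (e j) * e j)) := by
      simp only [s, smul_mul_assoc, mul_smul_comm, Finset.sum_mul, Finset.mul_sum,
        Finset.sum_sub_distrib, smul_sub]
    rw [h1]
    simp only [key, Finset.sum_add_distrib]
    have h2 := hsp _ (he i)
    have h3 := hsp _ (hD _ (he i))
    have h4 : ∑ j, (2 * (LinearMap.trace ℂ V (e j * e i) / finrank ℂ V)) • D (e j) =
        (2 : ℂ) • D (e i) := by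
      conv_rhs => rw [h2]
      simp only [hDdef, Finset.mul_sum, Finset.sum_mul, mul_smul_comm, smul_mul_assoc,
        ← Finset.sum_sub_distrib, ← smul_sub, Finset.smul_sum, smul_smul]
    have h5 : ∑ j, (2 * (LinearMap.trace ℂ V (e j * D (e i)) / finrank ℂ V)) • e j =
        (2 : ℂ) • D (e i) := by
      conv_rhs => rw [h3]
      simp only [Finset.smul_sum, smul_smul]
    rw [h4, h5, ← two_smul ℂ, smul_smul, smul_smul]
    norm_num
  have hsP : s ∈ P2 e := by
    refine Submodule.smul_mem _ _ (Submodule.sum_mem _ fun j _ => ?_)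
    rw [hsp _ (hD _ (he j)), Finset.sum_mul]
    refine Submodule.sum_mem _ fun i _ => ?_
    rw [smul_mul_assoc]
    exact Submodule.smul_mem _ _ (Submodule.subset_span ⟨i, j, rfl⟩)
  have hss : IsSk θ s := by
    intro u v
    have h1 : ∀ j, θ ((D (e j) * e j) u) v = -θ u ((D (e j) * e j) v) := by
      intro j
      have a1 := anti_eq hc (he j) (hD _ (he j))
      rw [htr0, zero_div, mul_zero, zero_smul] at a1
      have a2 : D (e j) * e j = -(e j * D (e j)) := by
        rw [add_comm] at a1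
        exact eq_neg_of_add_eq_zero_left a1
      rw [Module.End.mul_apply, hs _ (hD _ (he j)), hs _ (he j), a2, LinearMap.neg_apply,
        map_neg, neg_neg, Module.End.mul_apply]
    simp only [s, LinearMap.smul_apply, LinearMap.sum_apply, map_smul, map_sum, h1, smul_eq_mul,
      Finset.sum_neg_distrib]
    ring
  refine ⟨s, h - s, by abel, hsP, fun u v => ?_, fun i => ?_⟩
  · rw [LinearMap.sub_apply, map_sub, LinearMap.sub_apply, hsk, hss, LinearMap.sub_apply, map_sub]
    ring
  · have h1 := hs1 i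
    rw [hDdef] at h1
    rw [sub_mul, mul_sub, ← sub_eq_zero]
    have h2 : h * e i - s * e i - (e i * h - e i * s) =
        (h * e i - e i * h) - (s * e i - e i * s) := by abel
    rw [h2, h1, sub_self]

end Pool.Agent.Q66
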