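import Pool.Agent.Q66.C8

set_option autoImplicit false
set_option linter.unusedSectionVars false
set_option linter.unusedVariables false

/-!
# Products of Clifford generators
-/

open Module

noncomputable section

namespace Pool.Agent.Q66

variable {V : Type*} [AddCommGroup V] [Module ℂ V]

/-- the product of all generators -/
def zz {m : ℕ} (e : Fin m → Module.End ℂ V) : Module.End ℂ V := (List.ofFn e).prod

theorem zz_zero (e : Fin 0 → Module.End ℂ V) : zz e = 1 := by simp [zz]

theorem zz_succ {m : ℕ} (e : Fin (m + 1) → Module.End ℂ V) :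
    zz e = e 0 * zz (fun i => e i.succ) := by
  simp [zz, List.ofFn_succ]

theorem zz_anti {m : ℕ} (e : Fin m → Module.End ℂ V) {x : Module.End ℂ V}
    (hx : ∀ i, x * e i = -(e i * x)) : x * zz e = ((-1 : ℂ) ^ m) • (zz e * x) := by
  induction m with
  | zero => simp [zz_zero]
  | succ m ih =>
    have h1 := ih (fun i => e i.succ) fun i => hx _
    rw [zz_succ, ← mul_assoc, hx, neg_mul, mul_assoc, h1, pow_succ]
    simp [mul_assoc]

theorem Clif.tail {m : ℕ} {e : Fin (m + 1) → Module.End ℂ V} (h : Clif e) :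
    Clif (fun i : Fin m => e i.succ) :=
  ⟨fun i => h.sq _, fun i j hij => h.anti _ _ fun h' => hij (Fin.succ_injective _ h')⟩

theorem Clif.zz_comm {m : ℕ} {e : Fin m → Module.End ℂ V} (h : Clif e) (i : Fin m) :
    e i * zz e = ((-1 : ℂ) ^ (m + 1)) • (zz e * e i) := by
  induction m with
  | zero => exact i.elim0
  | succ m ih =>
    have h1 := zz_anti (fun i => e i.succ) (x := e 0) fun i => h.anti _ _ (Fin.succ_ne_zero i).symm
    have h2 : ((-1 : ℂ) ^ m) * (-1) ^ m = 1 := by
      rw [← mul_pow]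
      simp
    rcases Fin.eq_zero_or_eq_succ i with rfl | ⟨j, rfl⟩
    · rw [zz_succ, ← mul_assoc, h.sq, one_mul, h1, smul_mul_assoc, mul_assoc, h.sq, mul_one,
        smul_smul, pow_succ, pow_succ]
      have h3 : ((-1 : ℂ) ^ m) * (-1) * (-1) * (-1) ^ m = 1 := by linear_combination h2
      rw [h3, one_smul]
    · rw [zz_succ, ← mul_assoc, h.anti _ _ (Fin.succ_ne_zero j), neg_mul, mul_assoc,
        ih h.tail j, pow_succ _ (m + 1)]
      simp [mul_assoc]

/-- the sign -/
def eps : ℕ → ℂ
  | 0 => 1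
  | m + 1 => (-1) ^ m * eps m

theorem Clif.zz_sq {m : ℕ} {e : Fin m → Module.End ℂ V} (h : Clif e) :
    zz e * zz e = eps m • 1 := by
  induction m with
  | zero => simp [zz_zero, eps]
  | succ m ih =>
    have h1 := zz_anti (fun i => e i.succ) (x := e 0) fun i => h.anti _ _ (Fin.succ_ne_zero i).symm
    rw [zz_succ]
    nth_rewrite 1 [h1]
    rw [smul_mul_assoc, mul_assoc, ← mul_assoc (e 0), h.sq, one_mul, ih h.tail, smul_smul]
    rfl

theorem Clif.zz_adj {m : ℕ} {e : Fin m → Module.End ℂ V} (h : Clif e)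
    {θ : V →ₗ[ℂ] V →ₗ[ℂ] ℂ} (hs : ∀ i, IsSym θ (e i)) (u v : V) :
    θ (zz e u) v = eps m * θ u (zz e v) := by
  induction m generalizing u v with
  | zero => simp [zz_zero, eps]
  | succ m ih =>
    have h1 := zz_anti (fun i => e i.succ) (x := e 0) fun i => h.anti _ _ (Fin.succ_ne_zero i).symm
    have h2 : ((-1 : ℂ) ^ m) * (-1) ^ m = 1 := by
      rw [← mul_pow]
      simp
    rw [zz_succ, Module.End.mul_apply, hs 0, ih h.tail (fun i => hs _), h1]
    simp only [LinearMap.smul_apply, map_smul, smul_eq_mul, Module.End.mul_apply, eps]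
    linear_combination (-(eps m * θ u ((zz fun i => e i.succ) ((e 0) v)))) * h2

/-- operators which commute with the generators commute with the product -/
theorem zz_com {m : ℕ} (e : Fin m → Module.End ℂ V) {x : Module.End ℂ V}
    (hx : ∀ i, x * e i = e i * x) : x * zz e = zz e * x := by
  induction m with
  | zero => simp [zz_zero]
  | succ m ih =>
    have h1 := ih (fun i => e i.succ) fun i => hx _
    rw [zz_succ, ← mul_assoc, hx, mul_assoc, h1, mul_assoc]

theorem Clif.zz_P2 {m : ℕ} {e : Fin m → Module.End ℂ V} (h : Clif e) {s : Module.End ℂ V}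
    (hs : s ∈ P2 e) : zz e * s = s * zz e := by
  induction hs using Submodule.span_induction with
  | mem x hx =>
    obtain ⟨i, j, rfl⟩ := hx
    have h2 : ((-1 : ℂ) ^ (m + 1)) * (-1) ^ (m + 1) = 1 := by
      rw [← mul_pow]
      simp
    rw [mul_assoc (e i) (e j), h.zz_comm j, mul_smul_comm, ← mul_assoc (e i), h.zz_comm i,
      smul_mul_assoc, smul_smul, h2, one_smul, mul_assoc]
  | zero => simp
  | add x y _ _ hx hy => rw [mul_add, add_mul, hx, hy]
  | smul c x _ hx => rw [mul_smul_comm, smul_mul_assoc, hx]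

theorem trace_zero_of_anti {x Y : Module.End ℂ V} (hx : x * x = 1) (h : x * Y = -(Y * x)) :
    LinearMap.trace ℂ V Y = 0 := by
  have h1 : LinearMap.trace ℂ V Y = -LinearMap.trace ℂ V Y := by
    conv_lhs => rw [← one_mul Y, ← hx, mul_assoc, h, mul_neg, map_neg, LinearMap.trace_mul_comm,
      mul_assoc, hx, mul_one]
  have h2 : (2 : ℂ) * LinearMap.trace ℂ V Y = 0 := by linear_combination h1
  exact (mul_eq_zero.1 h2).resolve_left two_ne_zero

theorem trace_step {x s Q : Module.End ℂ V} (hx : x * x = 1) (hs : x * s = -(s * x))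
    (hQ : x * Q = Q * x) : LinearMap.trace ℂ V ((1 + s) * Q) = LinearMap.trace ℂ V Q := by
  have h1 : LinearMap.trace ℂ V (s * Q) = 0 := by
    refine trace_zero_of_anti hx ?_
    rw [← mul_assoc, hs, neg_mul, mul_assoc, hQ, mul_assoc]
  rw [add_mul, one_mul, map_add, h1, add_zero]

theorem idem_step {s Q : Module.End ℂ V} {c : ℂ} (hs : s * s = 1) (hc : s * Q = Q * s)
    (hQ : Q * Q = c • Q) : ((1 + s) * Q) * ((1 + s) * Q) = (2 * c) • ((1 + s) * Q) := by
  have h1 : Q * (1 + s) = (1 + s) * Q := by rw [mul_add, add_mul, hc, mul_one, one_mul]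
  have h2 : (1 + s) * (1 + s) = (2 : ℂ) • (1 + s) := by
    rw [mul_add, add_mul, add_mul, hs, mul_one, one_mul, mul_one, two_smul]
    abel
  calc ((1 + s) * Q) * ((1 + s) * Q) = (1 + s) * (Q * (1 + s)) * Q := by simp only [mul_assoc]
    _ = ((1 + s) * (1 + s)) * (Q * Q) := by rw [h1]; simp only [mul_assoc]
    _ = _ := by rw [h2, hQ, smul_mul_smul_comm]

/-- the range of an idempotent -/
theorem finrank_of_idem [FiniteDimensional ℂ V] {P : Module.End ℂ V} {c : ℂ} (hc : c ≠ 0)
    (hP : P * P = c • P) : (finrank ℂ (LinearMap.range P) : ℂ) = c⁻¹ * LinearMap.trace ℂ V P := by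
  have h1 : IsIdempotentElem (c⁻¹ • P) := by
    change (c⁻¹ • P) * (c⁻¹ • P) = c⁻¹ • P
    rw [smul_mul_smul_comm, hP, smul_smul, mul_assoc, inv_mul_cancel₀ hc, mul_one]
  have h2 := (LinearMap.isProj_range_iff_isIdempotentElem (c⁻¹ • P)).2 h1
  have h3 := LinearMap.IsProj.trace h2
  rw [map_smul, smul_eq_mul] at h3
  rw [h3]
  have h4 : LinearMap.range (c⁻¹ • P) = LinearMap.range P := by
    exact LinearMap.range_smul P c⁻¹ (inv_ne_zero hc)
  rw [h4]

/-- There are at most seven generators in dimension eight. -/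
theorem Clif.lt_eight [FiniteDimensional ℂ V] (hV : finrank ℂ V = 8) {m : ℕ}
    {e : Fin m → Module.End ℂ V} (h : Clif e) : m < 8 := by
  by_contra hm
  push Not at hm
  let a : Fin 8 → Module.End ℂ V := fun i => e (Fin.castLE hm i)
  have ha : Clif a := ⟨fun i => h.sq _, fun i j hij => h.anti _ _ fun h' =>
    hij (Fin.castLE_injective hm h')⟩
  have hI : Complex.I * Complex.I = -1 := Complex.I_mul_I
  let s : Fin 8 → Fin 8 → Module.End ℂ V := fun i j => Complex.I • (a i * a j)
  have hs : ∀ i j, i ≠ j → s i j * s i j = 1 := by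
    intro i j hij
    simp only [s]
    rw [smul_mul_smul_comm, hI, mul_assoc, ← mul_assoc (a j), ha.anti j i hij.symm, neg_mul,
      mul_assoc, ha.sq, mul_one, mul_neg, ha.sq, neg_smul, one_smul, neg_neg]
  have hx : ∀ i j, i ≠ j → a i * s i j = -(s i j * a i) := by
    intro i j hij
    simp only [s]
    rw [mul_smul_comm, smul_mul_assoc, ← smul_neg, mul_assoc, ha.anti j i hij.symm, mul_neg,
      neg_neg]
  have hc : ∀ l i j, l ≠ i → l ≠ j → a l * s i j = s i j * a l := by
    intro l i j h1 h2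
    simp only [s]
    rw [mul_smul_comm, smul_mul_assoc, ← mul_assoc, ha.anti l i h1, neg_mul, mul_assoc,
      ha.anti l j h2, mul_neg, neg_neg, mul_assoc]
  have hcs : ∀ i j k l, i ≠ k → i ≠ l → j ≠ k → j ≠ l → s i j * s k l = s k l * s i j := by
    intro i j k l h1 h2 h3 h4
    have e1 := hc j k l h3 h4
    have e2 := hc i k l h1 h2
    generalize s k l = t at e1 e2
    change (Complex.I • (a i * a j)) * t = t * (Complex.I • (a i * a j))
    rw [smul_mul_assoc, mul_smul_comm, mul_assoc, e1, ← mul_assoc, e2, mul_assoc]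
  have hc1 : ∀ {y t : Module.End ℂ V}, y * t = t * y → y * (1 + t) = (1 + t) * y := by
    intro y t h
    rw [mul_add, add_mul, h, mul_one, one_mul]
  have hcm : ∀ {y t Q : Module.End ℂ V}, y * t = t * y → y * Q = Q * y →
      y * ((1 + t) * Q) = ((1 + t) * Q) * y := by
    intro y t Q h h'
    rw [← mul_assoc, hc1 h, mul_assoc, h', mul_assoc]
  let P : Module.End ℂ V := (1 + s 0 1) * ((1 + s 2 3) * ((1 + s 4 5) * ((1 + s 6 7) * 1)))
  have htr : LinearMap.trace ℂ V P = 8 := by
    simp only [P]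
    rw [trace_step (ha.sq 0) (hx 0 1 (by decide)) (hcm (hc _ _ _ (by decide) (by decide))
        (hcm (hc _ _ _ (by decide) (by decide)) (hcm (hc _ _ _ (by decide) (by decide)) (by simp)))),
      trace_step (ha.sq 2) (hx 2 3 (by decide))
        (hcm (hc _ _ _ (by decide) (by decide)) (hcm (hc _ _ _ (by decide) (by decide)) (by simp))),
      trace_step (ha.sq 4) (hx 4 5 (by decide))
        (hcm (hc _ _ _ (by decide) (by decide)) (by simp)),
      trace_step (ha.sq 6) (hx 6 7 (by decide)) (by simp), LinearMap.trace_one, hV]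
    norm_num
  have hid : P * P = (2 * (2 * (2 * (2 * 1))) : ℂ) • P := by
    refine idem_step (hs 0 1 (by decide)) (hcm (hcs _ _ _ _ (by decide) (by decide) (by decide)
      (by decide)) (hcm (hcs _ _ _ _ (by decide) (by decide) (by decide)
      (by decide)) (hcm (hcs _ _ _ _ (by decide) (by decide) (by decide)
      (by decide)) (by simp)))) ?_
    refine idem_step (hs 2 3 (by decide)) (hcm (hcs _ _ _ _ (by decide) (by decide) (by decide)
      (by decide)) (hcm (hcs _ _ _ _ (by decide) (by decide) (by decide)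
      (by decide)) (by simp))) ?_
    refine idem_step (hs 4 5 (by decide)) (hcm (hcs _ _ _ _ (by decide) (by decide) (by decide)
      (by decide)) (by simp)) ?_
    refine idem_step (hs 6 7 (by decide)) (by simp) ?_
    simp
  have h1 := finrank_of_idem (by norm_num) hid
  rw [htr] at h1
  have h2 : (2 : ℂ) * (finrank ℂ (LinearMap.range P) : ℂ) = 1 := by
    rw [h1]
    norm_num
  have h3 : 2 * finrank ℂ (LinearMap.range P) = 1 := by exact_mod_cast h2
  omega

end Pool.Agent.Q66
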